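import Pool.Agent.H79.CQ.Grd
import Pool.Agent.H63.YL.Val

/-!
# Worlds at matchings: the interface between the geometry and the logic
-/

set_option autoImplicit false

namespace Pool.Agent.H6.AC

open Pool.Agent.H63.YL (PM dm)
open Pool.Agent.H79.CQ (Gad Wd)

/-- Worlds on the spaces in `UU` at the matchings of `m + 1` pigeons and `m` holes: `W U α` is determined
if `α` covers the points in `sp U`. -/
structure WD {p : ℕ} {K : Type} (g : Gad p K) (UU : Set (Submodule (ZMod p) (K → ZMod p)))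
    (m s : ℕ) where
  /-- the world on `U` at the matching `α` -/
  W : Submodule (ZMod p) (K → ZMod p) → Finset (Fin (m + 1) × Fin m) → Wd p K
  /-- the support of `U` -/
  sp : Submodule (ZMod p) (K → ZMod p) → Finset (Fin (m + 1) ⊕ Fin m)
  card_sp : ∀ U ∈ UU, (sp U).card ≤ s
  isW : ∀ U ∈ UU, ∀ α, PM α → g.IsW U (W U α)
  coh : ∀ U ∈ UU, ∀ U' ∈ UU, U ≤ U' → ∀ α α', PM α' → α ⊆ α' → sp U ⊆ dm α → sp U' ⊆ dm α' →
    g.Agr U (W U α) (W U' α')

end Pool.Agent.H6.AC
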