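import Pool.Agent.H6.AC.Ev
import Pool.Agent.H6.AC.Wd0
import Pool.Agent.H16.LE.Cnt
import Pool.Agent.H63.YL.EvP

/-!
# The values of the nodes of the engine at matchings

`RV wd Y tv α a v`: the matching `α` covers the support of the space `Y a`, and the truth value `tv a` at the world
of `α` on `Y a` is `v`.

PROOF of `ev0` (model: `H63/YL/EvP.ev_pure`). All the spaces `Vn a ⊔ Vn b` are in `UU`; `Vn a = Vn a ⊔ Vn a`.
mono, decide, cert, pm, cons: `rv_*` with `E.val_loc`. and_true: let `U = Vn a ⊔ Vn x`; extend `α` to `β` which covers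
`sp U` (`H63.YL.ext_many`); `f' := W U β` is a world on `U` which agrees with `W (Vn a) α` on `Vn a` and with
`W (Vn x) α` on `Vn x` (`coh`). `E.val_and` and `E.cnt_neg` (`H = stN a`, `U = Vn a`, `U' = U`; tameness of the sums of
three spaces of nodes by `Sm_tame`, `Sm_sup`, `Sm_Vn`) give `tr y` at the extensions of `f'` for all `y ∈ S`; for `y = x`
use `tr_ext`, `tr_loc`. and_false: `E.val_and` gives `x ∈ S` which is not true at `w := ext (Vn a) U (W (Vn a) α)`;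
`β` covers `sp U` and `sp (Vn x)`; `W U β` and `w` agree on `Vn a`; `exists_shift`, `Vs_perp`: `W U β` agrees on `U` with
`sh (pr g) w`, `g ∈ stN a ≤ stS S` (`stN_le_and`); `y := bj S g x ∈ S` (`bj_spec`), `Vn y = Vn x` (`Vn_img`),
`tr_equi`: `y` is not true at `W U β`, hence (`coh`, `tr_loc`) not at `W (Vn y) β`.
-/

set_option autoImplicit false
set_option linter.unusedSectionVars false

namespace Pool.Agent.H6.AC

open Pool.Agent.H63.YL (PM dm)
open Pool.Agent.H42.CS (Ax Atom Gate Circuit Step Refutation)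
open Pool.Agent.H79.CQ (Gad Wd sh Vs_perp)
open Pool.Agent.H16.LE (Eng stN)

/-- The value of the node `a` at the matching `α` is `v`. -/
def RV {p : ℕ} {K N : Type} {g : Gad p K} {UU : Set (Submodule (ZMod p) (K → ZMod p))} {m k : ℕ}
    (wd : WD g UU m k) (Y : N → Submodule (ZMod p) (K → ZMod p)) (tv : N → Wd p K → Prop)
    (α : Finset (Fin (m + 1) × Fin m)) (a : N) (v : Bool) : Prop :=
  PM α ∧ wd.sp (Y a) ⊆ dm α ∧ (tv a (wd.W (Y a) α) ↔ v = true)

section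

variable {p : ℕ} {K N : Type} {g : Gad p K} {UU : Set (Submodule (ZMod p) (K → ZMod p))} {m k : ℕ}
  (wd : WD g UU m k) (Y : N → Submodule (ZMod p) (K → ZMod p)) (tv : N → Wd p K → Prop)

theorem rv_mono {a : N} (hY : Y a ∈ UU)
    (hl : ∀ f f', g.IsW (Y a) f → g.Agr (Y a) f f' → (tv a f ↔ tv a f'))
    {α β : Finset (Fin (m + 1) × Fin m)} {v : Bool} (h : RV wd Y tv α a v) (hαβ : α ⊆ β)
    (hβ : PM β) : RV wd Y tv β a v := by
  obtain ⟨h1, h2, h3⟩ := h
  refine ⟨hβ, h2.trans (Pool.Agent.H63.YL.dm_mono hαβ), ?_⟩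
  rw [← h3]
  exact (hl _ _ (wd.isW _ hY α h1) (wd.coh _ hY _ hY le_rfl α β hβ hαβ h2
    (h2.trans (Pool.Agent.H63.YL.dm_mono hαβ)))).symm

theorem rv_decide {a : N} (hY : Y a ∈ UU) {α : Finset (Fin (m + 1) × Fin m)} (hα : PM α)
    (hM : α.card + k ≤ m) :
    ∃ β v, α ⊆ β ∧ PM β ∧ β.card ≤ α.card + k ∧ RV wd Y tv β a v := by
  have hc := wd.card_sp _ hY
  obtain ⟨β, h1, h2, h3, h4⟩ := Pool.Agent.H63.YL.ext_many (P := Fin (m + 1)) (H := Fin m) (by simp)
    (wd.sp (Y a)) hα (by rw [Fintype.card_fin]; omega)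
  by_cases h5 : tv a (wd.W (Y a) β)
  · exact ⟨β, true, h1, h2, by omega, h2, h4, by simp [h5]⟩
  · exact ⟨β, false, h1, h2, by omega, h2, h4, by simp [h5]⟩

theorem rv_cert {a : N} (hY : Y a ∈ UU)
    (hl : ∀ f f', g.IsW (Y a) f → g.Agr (Y a) f f' → (tv a f ↔ tv a f'))
    {α : Finset (Fin (m + 1) × Fin m)} {v : Bool} (h : RV wd Y tv α a v) :
    ∃ β, β ⊆ α ∧ β.card ≤ k ∧ RV wd Y tv β a v := by
  classical
  obtain ⟨h1, h2, h3⟩ := h
  have hc := wd.card_sp _ hY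
  have h5 : ∀ x : {x // x ∈ wd.sp (Y a)}, ∃ p, p ∈ α ∧ Pool.Agent.H63.YL.Touch p x.1 := fun x =>
    Pool.Agent.H63.YL.mem_dm.1 (h2 x.2)
  choose φ hφ using h5
  have h6 : (wd.sp (Y a)).attach.image φ ⊆ α := by
    intro p hp
    obtain ⟨x, -, rfl⟩ := Finset.mem_image.1 hp
    exact (hφ x).1
  have h7 : wd.sp (Y a) ⊆ dm ((wd.sp (Y a)).attach.image φ) := by
    intro x hx
    exact Pool.Agent.H63.YL.mem_dm.2 ⟨φ ⟨x, hx⟩,
      Finset.mem_image_of_mem _ (Finset.mem_attach _ _), (hφ ⟨x, hx⟩).2⟩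
  have h8 : ((wd.sp (Y a)).attach.image φ).card ≤ k := by
    have h9 := Finset.card_image_le (s := (wd.sp (Y a)).attach) (f := φ)
    rw [Finset.card_attach] at h9
    omega
  refine ⟨(wd.sp (Y a)).attach.image φ, h6, h8, h1.mono h6, h7, ?_⟩
  rw [← h3]
  exact hl _ _ (wd.isW _ hY _ (h1.mono h6)) (wd.coh _ hY _ hY le_rfl _ _ h1 h6 h7 h2)

theorem rv_cons {a : N} {α : Finset (Fin (m + 1) × Fin m)} (h : RV wd Y tv α a true)
    (h' : RV wd Y tv α a false) : False := by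
  obtain ⟨-, -, h1⟩ := h
  obtain ⟨-, -, h2⟩ := h'
  simp only [iff_true] at h1
  simp only [Bool.false_eq_true, iff_false] at h2
  exact h2 h1

end

theorem ev0 {p : ℕ} [hp : Fact p.Prime] {Rel : ℕ → Type} {Pt K G : Type} [Fintype K] [Group G]
    (E : Eng p Rel Pt K G) {UU : Set (Submodule (ZMod p) (K → ZMod p))}
    (hUU : ∀ A ∈ E.fam, ∀ A' ∈ E.fam, A ⊔ A' ∈ UU) {m k s : ℕ} (wd : WD E.toGad UU m k)
    (hs : 2 * k ≤ s) (hroom : 8 * s + 8 ≤ m) :
    EvG (fun a S => E.C.gate a = .and S) Set.univ ∅ s m (RV wd E.Vn E.val) := by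
  have hPH : Fintype.card (Fin m) ≤ Fintype.card (Fin (m + 1)) := by simp
  have hV2 : ∀ a b, E.Vn a ⊔ E.Vn b ∈ UU := fun a b => hUU _ (E.node_mem a) _ (E.node_mem b)
  have hV : ∀ a, E.Vn a ∈ UU := fun a => by
    have h := hV2 a a
    rwa [sup_idem] at h
  have t2 : ∀ a b, E.toGad.Tame (E.Vn a ⊔ E.Vn b) := fun a b =>
    E.Sm_tame (E.Sm_mono (by norm_num) le_rfl (E.Sm_sup (E.Sm_Vn a) (E.Sm_Vn b)))
  have t3 : ∀ a b c, E.toGad.Tame (E.Vn a ⊔ E.Vn b ⊔ E.Vn c) := fun a b c =>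
    E.Sm_tame (E.Sm_mono (by norm_num) le_rfl (E.Sm_sup (E.Sm_sup (E.Sm_Vn a) (E.Sm_Vn b)) (E.Sm_Vn c)))
  have agr_le : ∀ {U U' : Submodule (ZMod p) (K → ZMod p)} {f f' : Wd p K}, U ≤ U' →
      E.toGad.Agr U' f f' → E.toGad.Agr U f f' := fun hle h y hy hD => h y (hle hy) hD
  refine
    { func := ?_
      closed := fun _ _ _ _ => Set.mem_univ _
      pmf := ?_
      mono := ?_
      decide := ?_
      cert := ?_
      pm := ?_
      cons := ?_
      and_true := ?_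
      and_false := ?_
      ext := ?_
      room := ?_ }
  · intro a S S' h h'
    have h1 := h.symm.trans h'
    exact Gate.and.inj h1
  · intro p hp
    exact absurd hp (Finset.notMem_empty _)
  · intro α β a v _ h h1 h2
    exact rv_mono wd E.Vn E.val (hV a) (fun f f' => E.val_loc) h h1 h2
  · intro α a _ hα _ hM
    obtain ⟨β, v, h1, h2, h3, h4⟩ := rv_decide wd E.Vn E.val (hV a) hα (by omega)
    exact ⟨β, v, h1, h2, by omega, h4⟩
  · intro α a v _ h
    obtain ⟨β, h1, h2, h3⟩ := rv_cert wd E.Vn E.val (hV a) (fun f f' => E.val_loc) h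
    exact ⟨β, h1, Finset.empty_subset _, by rw [Finset.card_empty]; omega, h3⟩
  · rintro α a v ⟨h1, -, -⟩
    exact ⟨h1, Finset.empty_subset _⟩
  · intro α a h h'
    exact rv_cons wd E.Vn E.val h h'
  · -- and_true
    rintro α a S x v - hg hx ⟨h1, h2, h3⟩ ⟨-, h5, h6⟩ hM
    have hc := wd.card_sp _ (hV2 a x.node)
    obtain ⟨β, h8, h9, h10, h11⟩ := Pool.Agent.H63.YL.ext_many (P := Fin (m + 1)) (H := Fin m) hPH
      (wd.sp (E.Vn a ⊔ E.Vn x.node)) h1 (by rw [Fintype.card_fin]; omega)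
    have w0 := wd.isW _ (hV a) α h1
    have wx := wd.isW _ (hV x.node) α h1
    have w1 := wd.isW _ (hV2 a x.node) β h9
    have ca := wd.coh _ (hV a) _ (hV2 a x.node) le_sup_left α β h9 h8 h2 h11
    have cx := wd.coh _ (hV x.node) _ (hV2 a x.node) le_sup_right α β h9 h8 h5 h11
    have h12 := (E.val_and hg _).1 (h3.2 rfl)
    have h13 := (E.cnt_neg (stN E.C E.ρ a) S (E.stN_le_and hg) (U := E.Vn a)
      (U' := E.Vn a ⊔ E.Vn x.node) (f := wd.W (E.Vn a) α) (f' := wd.W (E.Vn a ⊔ E.Vn x.node) β)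
      (le_refl (E.Vn a)) (show E.Vn a ≤ _ from le_sup_left) (fun y _ => t2 a y.node)
      (fun y _ => t3 a x.node y.node) w0 w1 ca).1 h12 x hx
    have h14 := (E.tr_ext le_sup_right (t2 a x.node) w1).1 h13
    have h15 := (E.tr_loc (x := x) wx cx).2 h14
    have h16 : (v = true) ↔ x.pos = true := h6.symm.trans h15
    cases v <;> cases hp : x.pos <;> simp_all
  · -- and_false
    rintro α a S - hg ⟨h1, h2, h3⟩ hM
    have h4 : ¬ E.val a (wd.W (E.Vn a) α) := by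
      rw [h3]
      simp
    rw [E.val_and hg] at h4
    push Not at h4
    obtain ⟨x, hx, h5⟩ := h4
    have w0 := wd.isW _ (hV a) α h1
    obtain ⟨w, hw⟩ : ∃ w, w = E.toGad.ext (E.Vn a) (E.Vn a ⊔ E.Vn x.node) (wd.W (E.Vn a) α) := ⟨_, rfl⟩
    rw [← hw] at h5
    have hwW : E.toGad.IsW (E.Vn a ⊔ E.Vn x.node) w := by
      rw [hw]
      exact E.toGad.ext_isW le_sup_left (t2 a x.node) w0
    have hwA : E.toGad.Agr (E.Vn a) (wd.W (E.Vn a) α) w := by
      rw [hw]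
      exact E.toGad.ext_agr le_sup_left (t2 a x.node) w0
    have hc1 := wd.card_sp _ (hV2 a x.node)
    have hc2 := wd.card_sp _ (hV x.node)
    have hc3 := Finset.card_union_le (wd.sp (E.Vn a ⊔ E.Vn x.node)) (wd.sp (E.Vn x.node))
    obtain ⟨β, h8, h9, h10, h11⟩ := Pool.Agent.H63.YL.ext_many (P := Fin (m + 1)) (H := Fin m) hPH
      (wd.sp (E.Vn a ⊔ E.Vn x.node) ∪ wd.sp (E.Vn x.node)) h1 (by rw [Fintype.card_fin]; omega)
    have h12 := Finset.subset_union_left.trans h11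
    have h13 := Finset.subset_union_right.trans h11
    have w1 := wd.isW _ (hV2 a x.node) β h9
    have ca := wd.coh _ (hV a) _ (hV2 a x.node) le_sup_left α β h9 h8 h2 h12
    obtain ⟨t, ht, h14⟩ := E.toGad.exists_shift (le_sup_left : E.Vn a ≤ E.Vn a ⊔ E.Vn x.node) hwW w1
      (fun y hy hD => (hwA y hy hD).symm.trans (ca y hy hD))
    obtain ⟨g, hgg, rfl⟩ := Vs_perp E.pr_mul (stN E.C E.ρ a) t ht
    obtain ⟨b1, b2, b3⟩ := E.bj_spec (E.stN_le_and hg hgg)
    have hyS := b1.mapsTo hx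
    have hyp := b2 x hx
    have hyI := b3 x hx
    obtain ⟨y, hy⟩ : ∃ y, y = E.bj S g x := ⟨_, rfl⟩
    rw [← hy] at hyS hyp hyI
    have hVy := E.Vn_img hyI
    have h15 : ¬ E.tr y (sh (E.pr g) w) := by
      rw [E.tr_equi hyI hyp (E.toGad.isW_mono le_sup_right hwW)]
      exact h5
    have h16 : E.tr y (wd.W (E.Vn a ⊔ E.Vn x.node) β) ↔ E.tr y (sh (E.pr g) w) := by
      apply E.tr_loc
      · rw [hVy]
        exact E.toGad.isW_mono le_sup_right w1
      · rw [hVy]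
        exact agr_le le_sup_right h14
    have cy : E.toGad.Agr (E.Vn y.node) (wd.W (E.Vn y.node) β) (wd.W (E.Vn a ⊔ E.Vn x.node) β) := by
      rw [hVy]
      exact wd.coh _ (hV x.node) _ (hV2 a x.node) le_sup_right β β h9 (Finset.Subset.refl _) h13 h12
    have h17 := E.tr_loc (x := y) (wd.isW _ (hV y.node) β h9) cy
    have h18 : ¬ E.tr y (wd.W (E.Vn y.node) β) := by
      rw [h17, h16]
      exact h15
    refine ⟨y, hyS, β, h8, h9, by omega, h9, ?_, ?_⟩
    · rw [hVy]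
      exact h13
    · unfold Pool.Agent.H16.LE.Eng.tr at h18
      cases hp : y.pos <;> rw [hp] at h18 <;> simpa using h18
  · intro α x h1 _ h3
    exact Pool.Agent.H63.YL.ext_one h1 hPH (by rw [Fintype.card_fin]; exact h3) x
  · rw [Finset.card_empty]
    omega

end Pool.Agent.H6.AC
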