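import Pool.Agent.H6.AC.Ev0
import Pool.Agent.H16.LE.Snd

/-!
# True lines have true members at matchings

PROOF of `loc_tru`. Let `U = Vl Λ ∈ UU` (`= U ⊔ U`), `β ≥ α` covers `sp U`; `f := W U β` is a world on `U`; `E.Tru Λ` gives
`x ∈ Λ` with `tr x w`, `w := ext U (U ⊔ Vn x) f`. `γ ≥ β` covers `sp (U ⊔ Vn x)` and `sp (Vn x)`. `f' := W (U ⊔ Vn x) γ` agrees
with `f` on `U` (`coh`), so (`exists_shift`, `Vs_perp`; tameness by `Sm_tame`) `f'` agrees with `sh (pr g) w` on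
`U ⊔ Vn x` for some `g ∈ stL Λ`. By the definition of `stL` there is `y ∈ Λ`, `y.pos = x.pos`, `Img (ρ g) x.node y.node`;
`tr_equi`: `tr y (sh (pr g) w)`, `Vn_img`: `Vn y = Vn x`, and `f'` agrees with `W (Vn y) γ` on `Vn y` (`coh`); `tr_loc`.

PROOF of `loc_hyp`. `β ≥ α` covers `sp Y`; `f := W Y β`; `h` gives `x`. `γ ≥ β` covers `sp (Y ⊔ Yb (nd x))` and
`sp (Yb (nd x))`. `f' := W (Y ⊔ Yb (nd x)) γ` agrees with `f` on `Y`, so `leaf x.1 f' ↔ x.2 = true`; it agrees with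
`W (Yb (nd x)) γ` on `Yb (nd x)`; `hloc`, `htv`.
-/

set_option autoImplicit false
set_option linter.unusedSectionVars false

namespace Pool.Agent.H6.AC

open Pool.Agent.H63.YL (PM dm)
open Pool.Agent.H42.CS (Ax Atom Gate Circuit Step Refutation)
open Pool.Agent.H79.CQ (Gad Wd)
open Pool.Agent.H16.LE (Eng)

/-- Cover the supports of one space. -/
private theorem lc_one {m : ℕ} (X : Finset (Fin (m + 1) ⊕ Fin m)) {k : ℕ} (hX : X.card ≤ k)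
    {α : Finset (Fin (m + 1) × Fin m)} (hα : PM α) (hM : α.card + k ≤ m) :
    ∃ β, α ⊆ β ∧ PM β ∧ β.card ≤ α.card + k ∧ X ⊆ dm β := by
  obtain ⟨β, h1, h2, h3, h4⟩ := Pool.Agent.H63.YL.ext_many (P := Fin (m + 1)) (H := Fin m)
    (by rw [Fintype.card_fin, Fintype.card_fin]; omega) X hα (by rw [Fintype.card_fin]; omega)
  exact ⟨β, h1, h2, by omega, h4⟩

/-- Cover the supports of two spaces. -/
private theorem lc_two {m : ℕ} (X Y : Finset (Fin (m + 1) ⊕ Fin m)) {k : ℕ} (hX : X.card ≤ k) (hY : Y.card ≤ k)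
    {α : Finset (Fin (m + 1) × Fin m)} (hα : PM α) (hM : α.card + 2 * k ≤ m) :
    ∃ β, α ⊆ β ∧ PM β ∧ β.card ≤ α.card + 2 * k ∧ X ⊆ dm β ∧ Y ⊆ dm β := by
  obtain ⟨β, h1, h2, h3, h4⟩ := lc_one X hX hα (by omega)
  obtain ⟨γ, h5, h6, h7, h8⟩ := lc_one Y hY h2 (by omega)
  exact ⟨γ, h1.trans h5, h6, by omega, h4.trans (Pool.Agent.H63.YL.dm_mono h5), h8⟩

theorem loc_tru {p : ℕ} [hp : Fact p.Prime] {Rel : ℕ → Type} {Pt K G : Type} [Fintype K] [Group G]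
    (E : Eng p Rel Pt K G) {UU : Set (Submodule (ZMod p) (K → ZMod p))}
    (hUU : ∀ A ∈ E.fam, ∀ A' ∈ E.fam, A ⊔ A' ∈ UU) {m k : ℕ} (wd : WD E.toGad UU m k)
    {Λ : Set (H42.CS.Lit E.C.N)} (hΛ : E.Vl Λ ∈ E.fam) (hT : E.Tru Λ)
    {α : Finset (Fin (m + 1) × Fin m)} (hα : PM α) (hM : α.card + 3 * k ≤ m) :
    ∃ x ∈ Λ, ∃ β, α ⊆ β ∧ PM β ∧ β.card ≤ α.card + 3 * k ∧ RV wd E.Vn E.val β x.node x.pos := by
  classical
  have hU : E.Vl Λ ∈ UU := by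
    have h := hUU _ hΛ _ hΛ
    rwa [sup_idem] at h
  obtain ⟨β, hb1, hb2, hb3, hb4⟩ := lc_one (wd.sp (E.Vl Λ)) (wd.card_sp _ hU) hα (by omega)
  have hf := wd.isW _ hU β hb2
  obtain ⟨x, hx, hxw⟩ := hT _ hf
  have hV : E.Vn x.node ∈ UU := by
    have h := hUU _ (E.node_mem x.node) _ (E.node_mem x.node)
    rw [sup_idem] at h
    exact h
  have hU' : E.Vl Λ ⊔ E.Vn x.node ∈ UU := hUU _ hΛ _ (E.node_mem x.node)
  have htame : E.toGad.Tame (E.Vl Λ ⊔ E.Vn x.node) :=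
    E.Sm_tame (E.Sm_mono (by norm_num) le_rfl (E.Sm_sup (E.Sm_mem hΛ) (E.Sm_Vn x.node)))
  obtain ⟨γ, hc1, hc2, hc3, hc4, hc5⟩ := lc_two (wd.sp (E.Vl Λ ⊔ E.Vn x.node)) (wd.sp (E.Vn x.node))
    (wd.card_sp _ hU') (wd.card_sp _ hV) hb2 (by omega)
  have hf' := wd.isW _ hU' γ hc2
  have hcoh := wd.coh _ hU _ hU' le_sup_left β γ hc2 hc1 hb4 hc4
  have hw := E.toGad.ext_isW (le_sup_left : E.Vl Λ ≤ E.Vl Λ ⊔ E.Vn x.node) htame hf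
  have hwa := E.toGad.ext_agr (le_sup_left : E.Vl Λ ≤ E.Vl Λ ⊔ E.Vn x.node) htame hf
  obtain ⟨t, ht1, ht2⟩ := E.toGad.exists_shift (le_sup_left : E.Vl Λ ≤ E.Vl Λ ⊔ E.Vn x.node) hw hf'
    (fun y hy hD => (hwa y hy hD).symm.trans (hcoh y hy hD))
  obtain ⟨g, hg, rfl⟩ := Pool.Agent.H79.CQ.Vs_perp E.pr_mul (Pool.Agent.H16.LE.stL E.C E.ρ Λ) t ht1
  obtain ⟨y, hy, hpos, himg⟩ := hg.1 x hx
  have hVy : E.Vn y.node = E.Vn x.node := E.Vn_img himg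
  have htr := (E.tr_equi himg hpos (E.toGad.isW_mono le_sup_right hw)).2 hxw
  have hcoh2 := wd.coh _ hV _ hU' le_sup_right γ γ hc2 subset_rfl hc5 hc4
  have hfin : E.tr y (wd.W (E.Vn x.node) γ) := by
    refine (E.tr_loc (x := y) ?_ ?_).2 htr
    · rw [hVy]
      exact wd.isW _ hV γ hc2
    · rw [hVy]
      intro z hz hD
      exact (hcoh2 z hz hD).trans (ht2 z (Submodule.mem_sup_right hz) hD)
  refine ⟨y, hy, γ, hb1.trans hc1, hc2, by omega, hc2, ?_, ?_⟩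
  · rw [hVy]
    exact hc5
  · rw [hVy]
    exact hfin

theorem loc_hyp {p : ℕ} {K N X : Type} {g : Gad p K} {UU : Set (Submodule (ZMod p) (K → ZMod p))}
    {m k : ℕ} (wd : WD g UU m k) (Yb : N → Submodule (ZMod p) (K → ZMod p))
    (tv : N → Wd p K → Prop) (leaf : X → Wd p K → Prop) (ins : Set (X × Bool)) (nd : X × Bool → N)
    (Y : Submodule (ZMod p) (K → ZMod p)) (hY : Y ∈ UU)
    (hYb : ∀ x ∈ ins, Yb (nd x) ∈ UU) (hYY : ∀ x ∈ ins, Y ⊔ Yb (nd x) ∈ UU)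
    (h : ∀ f, g.IsW Y f → ∃ x ∈ ins, ∀ f', g.Agr Y f f' → (leaf x.1 f' ↔ x.2 = true))
    (hloc : ∀ x ∈ ins, ∀ f f', g.IsW (Yb (nd x)) f → g.Agr (Yb (nd x)) f f' →
      (tv (nd x) f ↔ tv (nd x) f'))
    (htv : ∀ x ∈ ins, ∀ f, tv (nd x) f ↔ leaf x.1 f)
    {α : Finset (Fin (m + 1) × Fin m)} (hα : PM α) (hM : α.card + 3 * k ≤ m) :
    ∃ x ∈ ins, ∃ β, α ⊆ β ∧ PM β ∧ β.card ≤ α.card + 3 * k ∧ RV wd Yb tv β (nd x) x.2 := by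
  obtain ⟨β, hb1, hb2, hb3, hb4⟩ := lc_one (wd.sp Y) (wd.card_sp _ hY) hα (by omega)
  obtain ⟨x, hx, hxf⟩ := h _ (wd.isW _ hY β hb2)
  obtain ⟨γ, hc1, hc2, hc3, hc4, hc5⟩ := lc_two (wd.sp (Y ⊔ Yb (nd x))) (wd.sp (Yb (nd x)))
    (wd.card_sp _ (hYY x hx)) (wd.card_sp _ (hYb x hx)) hb2 (by omega)
  have h1 := hxf _ (wd.coh _ hY _ (hYY x hx) le_sup_left β γ hc2 hc1 hb4 hc4)
  have h2 := hloc x hx _ _ (wd.isW _ (hYb x hx) γ hc2)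
    (wd.coh _ (hYb x hx) _ (hYY x hx) le_sup_right γ γ hc2 subset_rfl hc5 hc4)
  refine ⟨x, hx, γ, hb1.trans hc1, hc2, by omega, hc2, hc5, ?_⟩
  rw [h2, htv x hx]
  exact h1

end Pool.Agent.H6.AC
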