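import Pool.Agent.H6.AC.Trf
import Pool.Agent.H6.AC.Loc
import Pool.Agent.H6.AC.Ev0

/-!
# The logic core with worlds

`B1`: the nodes which have spaces `V0` and truth values `tv0` at worlds. The variables outside `B1` get the space of
`hleaf` and the truth value `leaf`.

PROOF. `X := {a | ∃ v, C.gate a = .var v}`. `Yc a` := a space as in `hleaf` for the atom of `a` (`⊥` if `a ∉ X`), `tvc a f`
:= `∃ v, C.gate a = .var v ∧ leaf v f`. `trf` (with `R0 = RV wd V0 tv0`, `R1 = RV wd Yc tvc`; `mono`, `decide`, `cert`, `cons` by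
`rv_mono`, `rv_decide`, `rv_cert`, `rv_cons`; `A ⊔ A = A` gives `A ∈ UU` for `A ∈ fam`) gives the evaluation for
`logic_core` with `R α a v := (a ∈ B1 ∧ R0 α a v) ∨ (a ∉ B1 ∧ a ∈ X ∧ R1 α a v)`. With `Yb a := if a ∈ B1 then V0 a else Yc a`,
`tv a := if a ∈ B1 then tv0 a else tvc a`: `RV wd Yb tv α a v → R α a v` for `a ∈ B1 ∪ X`. Rules: second case: `loc_hyp`
(`nd` by choice). Third case: `loc_hyp` with `X = Atom Rel P`, `ins = {(v, true), (v, false)}`,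
`nd x := if x.2 then a else b`, `Y := Yb a`. Fourth case: directly.
-/

set_option autoImplicit false
set_option linter.unusedSectionVars false

namespace Pool.Agent.H6.AC

open Pool.Agent.H63.YL (PM dm)
open Pool.Agent.H42.CS (Ax Atom Gate Circuit)
open Pool.Agent.H79.CQ (Gad Wd)

theorem base_core {p : ℕ} {Rel : ℕ → Type} {Pt K : Type} {C : Circuit Rel Pt}
    {lines : Set (Set (H42.CS.Lit C.N))} (hfin : lines.Finite)
    (order : Set (H42.CS.Lit C.N) → ℕ) {g : Gad p K} {UU fam : Set (Submodule (ZMod p) (K → ZMod p))}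
    {m k t d : ℕ} (wd : WD g UU m k) (leaf : Atom Rel Pt → Wd p K → Prop)
    (hUU : ∀ A ∈ fam, ∀ A' ∈ fam, A ⊔ A' ∈ UU) (B1 : Set C.N)
    (ga' : C.N → Set (H42.CS.Lit C.N) → Prop) (V0 : C.N → Submodule (ZMod p) (K → ZMod p))
    (tv0 : C.N → Wd p K → Prop) (E : EvG ga' Set.univ ∅ (4 * t) m (RV wd V0 tv0))
    (h1 : ∀ a ∈ B1, ∀ S, C.gate a = .and S → ga' a S)
    (h2 : ∀ a ∈ B1, ∀ x ∈ (C.gate a).children, x.node ∈ B1)
    (hV0 : ∀ a, V0 a ∈ fam)
    (hl0 : ∀ a f f', g.IsW (V0 a) f → g.Agr (V0 a) f f' → (tv0 a f ↔ tv0 a f'))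
    (hvar : ∀ a ∈ B1, ∀ v, C.gate a = .var v → ∀ f, tv0 a f ↔ leaf v f)
    (hleaf : ∀ v, ∃ Y ∈ fam, ∀ f f', g.Agr Y f f' → (leaf v f ↔ leaf v f'))
    (hB : ∀ Λ ∈ lines, ∀ x ∈ Λ, BltN C (B1 ∪ {a | ∃ v, C.gate a = .var v}) d x.node)
    (hstep : ∀ Λ ∈ lines, FStep C {Δ | Δ ∈ lines ∧ order Δ < order Λ} Λ ∨
      (∃ ins : Set (Atom Rel Pt × Bool), ∃ Y ∈ fam, (∀ f, g.IsW Y f → ∃ x ∈ ins,
        ∀ f', g.Agr Y f f' → (leaf x.1 f' ↔ x.2 = true)) ∧
        ∀ x ∈ ins, ∃ a, C.gate a = .var x.1 ∧ ⟨a, x.2⟩ ∈ Λ) ∨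
      (∃ v a b, C.gate a = .var v ∧ C.gate b = .var v ∧ ⟨a, true⟩ ∈ Λ ∧ ⟨b, false⟩ ∈ Λ) ∨
      ∃ Λ' ⊆ Λ, (∀ x ∈ Λ', x.node ∈ B1) ∧ ∀ α : Finset (Fin (m + 1) × Fin m), PM α →
        α.card + 12 * t ≤ m → ∃ x ∈ Λ', ∃ β, α ⊆ β ∧ PM β ∧ β.card ≤ α.card + 12 * t ∧
          RV wd V0 tv0 β x.node x.pos)
    (ht : 1 ≤ t) (hk : k ≤ 4 * t) (hm : m < 2 ^ t) (hS : Nat.card C.N + lines.ncard < 2 ^ t)
    (hc : (cc (d + 1) 4 * t) ^ cc (d + 1) 4 ≤ m) (hempty : ∅ ∈ lines) : False := by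
  classical
  have hUU1 : ∀ A ∈ fam, A ∈ UU := fun A hA => by
    have h := hUU A hA A hA
    rwa [sup_idem] at h
  choose Yl hYl hYl2 using hleaf
  obtain ⟨X, hX⟩ : ∃ X : Set C.N, X = {a | ∃ v, C.gate a = .var v} := ⟨_, rfl⟩
  have hX3 : ∀ a ∈ X, ∃ v, C.gate a = .var v := by
    intro a ha
    rw [hX] at ha
    exact ha
  have hXm : ∀ a v, C.gate a = .var v → a ∈ X := by
    intro a v ha
    rw [hX]
    exact ⟨v, ha⟩
  let Yc : C.N → Submodule (ZMod p) (K → ZMod p) := fun a =>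
    if h : ∃ v, C.gate a = .var v then Yl h.choose else V0 a
  let tvc : C.N → Wd p K → Prop := fun a f => ∃ v, C.gate a = .var v ∧ leaf v f
  have hYc : ∀ a v, C.gate a = .var v → Yc a = Yl v := by
    intro a v ha
    have h : ∃ v, C.gate a = .var v := ⟨v, ha⟩
    have h' : h.choose = v := Gate.var.inj (h.choose_spec.symm.trans ha)
    simp only [Yc, dif_pos h, h']
  have hYcf : ∀ a, Yc a ∈ fam := by
    intro a
    by_cases h : ∃ v, C.gate a = .var v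
    · obtain ⟨v, hv⟩ := h
      rw [hYc a v hv]
      exact hYl v
    · simp only [Yc, dif_neg h]
      exact hV0 a
  have htvc : ∀ a v, C.gate a = .var v → ∀ f, tvc a f ↔ leaf v f := by
    intro a v ha f
    constructor
    · rintro ⟨w, hw, hf⟩
      rw [ha] at hw
      rw [Gate.var.inj hw]
      exact hf
    · intro hf
      exact ⟨v, ha, hf⟩
  have hlc : ∀ a ∈ X, ∀ f f', g.IsW (Yc a) f → g.Agr (Yc a) f f' → (tvc a f ↔ tvc a f') := by
    intro a ha f f' _ hff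
    obtain ⟨v, hv⟩ := hX3 a ha
    rw [htvc a v hv, htvc a v hv]
    rw [hYc a v hv] at hff
    exact hYl2 v f f' hff
  have E1 := trf (lines := lines) (R1 := RV wd Yc tvc) E B1 X h1 h2 hX3
    (fun {α β a v} ha h hαβ hβ => rv_mono wd Yc tvc (hUU1 _ (hYcf a)) (hlc a ha) h hαβ hβ)
    (fun {α a} ha hα hM => by
      obtain ⟨β, v, k1, k2, k3, k4⟩ := rv_decide wd Yc tvc (hUU1 _ (hYcf a)) hα (by omega)
      exact ⟨β, v, k1, k2, by omega, k4⟩)
    (fun {α a v} ha h => by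
      obtain ⟨β, k1, k2, k3⟩ := rv_cert wd Yc tvc (hUU1 _ (hYcf a)) (hlc a ha) h
      exact ⟨β, k1, by omega, k3⟩)
    (fun {α a v} h => h.1)
    (fun {α a} h h' => rv_cons wd Yc tvc h h')
  let Yb : C.N → Submodule (ZMod p) (K → ZMod p) := fun a => if a ∈ B1 then V0 a else Yc a
  let tv : C.N → Wd p K → Prop := fun a => if a ∈ B1 then tv0 a else tvc a
  have hYb1 : ∀ a, a ∈ B1 → Yb a = V0 a := fun a ha => if_pos ha
  have hYb2 : ∀ a, a ∉ B1 → Yb a = Yc a := fun a ha => if_neg ha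
  have htv1 : ∀ a, a ∈ B1 → tv a = tv0 a := fun a ha => if_pos ha
  have htv2 : ∀ a, a ∉ B1 → tv a = tvc a := fun a ha => if_neg ha
  have hYbf : ∀ a, Yb a ∈ fam := by
    intro a
    by_cases ha : a ∈ B1
    · rw [hYb1 a ha]; exact hV0 a
    · rw [hYb2 a ha]; exact hYcf a
  have htvl : ∀ a v, C.gate a = .var v → ∀ f, tv a f ↔ leaf v f := by
    intro a v hv f
    by_cases ha : a ∈ B1
    · rw [htv1 a ha]; exact hvar a ha v hv f
    · rw [htv2 a ha]; exact htvc a v hv f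
  have hlb : ∀ a v, C.gate a = .var v → ∀ f f', g.IsW (Yb a) f → g.Agr (Yb a) f f' →
      (tv a f ↔ tv a f') := by
    intro a v hv f f' hf hff
    by_cases ha : a ∈ B1
    · rw [htv1 a ha]
      rw [hYb1 a ha] at hf hff
      exact hl0 a f f' hf hff
    · rw [htv2 a ha]
      rw [hYb2 a ha] at hf hff
      exact hlc a (hXm a v hv) f f' hf hff
  have hR : ∀ {β : Finset (Fin (m + 1) × Fin m)} {a v w}, C.gate a = .var v → RV wd Yb tv β a w →
      (a ∈ B1 ∧ RV wd V0 tv0 β a w) ∨ (a ∉ B1 ∧ a ∈ X ∧ RV wd Yc tvc β a w) := by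
    intro β a v w hv h
    by_cases ha : a ∈ B1
    · left
      refine ⟨ha, ?_⟩
      unfold RV at h ⊢
      rw [hYb1 a ha, htv1 a ha] at h
      exact h
    · right
      refine ⟨ha, hXm a v hv, ?_⟩
      unfold RV at h ⊢
      rw [hYb2 a ha, htv2 a ha] at h
      exact h
  refine logic_core hfin order (B1 ∪ X) ht E1 (by rw [hX]; exact hB) ?_ hm hS hc hempty
  intro Λ hΛ
  rcases hstep Λ hΛ with h | ⟨ins, Y, hY, h3, h4⟩ | ⟨v, a, b, ha, hb, h3, h4⟩ | ⟨Λ', h3, h4, h5⟩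
  · exact Or.inl h
  · right
    intro α hα hM
    obtain ⟨x0, hx0, -⟩ := h3 _ (wd.isW _ (hUU1 _ hY) α hα)
    obtain ⟨a0, -⟩ := h4 x0 hx0
    have : Nonempty C.N := ⟨a0⟩
    choose! nd hnd1 hnd2 using h4
    obtain ⟨x, hx, β, k1, k2, k3, k4⟩ := loc_hyp wd Yb tv leaf ins nd Y (hUU1 _ hY)
      (fun x _ => hUU1 _ (hYbf (nd x))) (fun x _ => hUU _ hY _ (hYbf (nd x))) h3
      (fun x hx f f' hf hff => hlb (nd x) x.1 (hnd1 x hx) f f' hf hff)
      (fun x hx f => htvl (nd x) x.1 (hnd1 x hx) f) hα (by omega)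
    exact ⟨⟨nd x, x.2⟩, hnd2 x hx, Or.inr (hXm _ _ (hnd1 x hx)), β, k1, k2, by omega,
      hR (hnd1 x hx) k4⟩
  · right
    intro α hα hM
    have hnd : ∀ x ∈ ({(v, true), (v, false)} : Set (Atom Rel Pt × Bool)),
        C.gate (if x.2 = true then a else b) = .var x.1 ∧
          (⟨if x.2 = true then a else b, x.2⟩ : H42.CS.Lit C.N) ∈ Λ := by
      rintro x (rfl | rfl)
      · exact ⟨by simpa using ha, by simpa using h3⟩
      · exact ⟨by simpa using hb, by simpa using h4⟩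
    obtain ⟨x, hx, β, k1, k2, k3, k4⟩ := loc_hyp wd Yb tv leaf
      ({(v, true), (v, false)} : Set (Atom Rel Pt × Bool)) (fun x => if x.2 = true then a else b)
      (Yb a) (hUU1 _ (hYbf a))
      (fun x _ => hUU1 _ (hYbf _)) (fun x _ => hUU _ (hYbf a) _ (hYbf _)) (by
        intro f hf
        by_cases hl : leaf v f
        · refine ⟨(v, true), Or.inl rfl, ?_⟩
          intro f' hff
          have h6 := hlb a v ha f f' hf hff
          rw [htvl a v ha, htvl a v ha] at h6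
          simpa using h6.1 hl
        · refine ⟨(v, false), Or.inr rfl, ?_⟩
          intro f' hff
          have h6 := hlb a v ha f f' hf hff
          rw [htvl a v ha, htvl a v ha] at h6
          simpa using fun h7 => hl (h6.2 h7))
      (fun x hx f f' hf hff => hlb _ x.1 (hnd x hx).1 f f' hf hff)
      (fun x hx f => htvl _ x.1 (hnd x hx).1 f) hα (by omega)
    exact ⟨⟨if x.2 = true then a else b, x.2⟩, (hnd x hx).2, Or.inr (hXm _ _ (hnd x hx).1), β, k1,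
      k2, by omega, hR (hnd x hx).1 k4⟩
  · right
    intro α hα hM
    obtain ⟨x, hx, β, k1, k2, k3, k4⟩ := h5 α hα (by omega)
    exact ⟨x, h3 hx, Or.inl (h4 x hx), β, k1, k2, by omega, Or.inl ⟨h4 x hx, k4⟩⟩

end Pool.Agent.H6.AC
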