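import Pool.Agent.H79.CQ.Grd

/-!
# The number of spaces
-/

set_option autoImplicit false
set_option linter.unusedSectionVars false

namespace Pool.Agent.H6.AC

open Pool.Agent.H79.CQ (csp)

theorem sets_fun {K : Type} [Fintype K] [DecidableEq K] (k : ℕ) (s : Finset K) (hs : s.card ≤ k) :
    ∃ φ : Fin k → Option K, s = Finset.univ.filter (fun x => ∃ i, φ i = some x) := by
  refine ⟨fun i => s.toList[(i : ℕ)]?, ?_⟩
  ext x
  rw [Finset.mem_filter, ← Finset.mem_toList, List.mem_iff_getElem?]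
  constructor
  · rintro ⟨i, hi⟩
    have h1 : i < s.toList.length := by
      by_contra h
      rw [List.getElem?_eq_none (by omega)] at hi
      cases hi
    rw [Finset.length_toList] at h1
    exact ⟨Finset.mem_univ _, ⟨i, by omega⟩, hi⟩
  · rintro ⟨-, i, hi⟩
    exact ⟨i, hi⟩

variable {p : ℕ} [hp : Fact p.Prime]

theorem fam_card {K : Type} [Finite K] (Sp : Set (Submodule (ZMod p) (K → ZMod p))) (t k : ℕ)
    (h1 : Sp.ncard ≤ 2 ^ t) (h2 : (Nat.card K + 1) ^ k ≤ 2 ^ t) :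
    (Sp ∪ {A | ∃ s : Finset K, s.card ≤ k ∧ A = csp p s}).ncard ≤ 2 ^ (t + 1) := by
  classical
  have : Fintype K := Fintype.ofFinite K
  have h3 : {A : Submodule (ZMod p) (K → ZMod p) | ∃ s : Finset K, s.card ≤ k ∧ A = csp p s} ⊆
      Set.range (fun φ : Fin k → Option K => csp p (Finset.univ.filter (fun x => ∃ i, φ i = some x))) := by
    rintro A ⟨s, hs, rfl⟩
    obtain ⟨φ, hφ⟩ := sets_fun k s hs
    exact ⟨φ, by show csp p _ = csp p s; rw [← hφ]⟩
  have h4 : {A : Submodule (ZMod p) (K → ZMod p) | ∃ s : Finset K, s.card ≤ k ∧ A = csp p s}.ncard ≤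
      2 ^ t := by
    refine (Set.ncard_le_ncard h3 (Set.finite_range _)).trans ?_
    rw [← Set.image_univ]
    refine (Set.ncard_image_le Set.finite_univ).trans (le_trans (le_of_eq ?_) h2)
    rw [Set.ncard_univ, Nat.card_fun, Finite.card_option, Nat.card_fin]
  have h5 := Set.ncard_union_le Sp
    {A : Submodule (ZMod p) (K → ZMod p) | ∃ s : Finset K, s.card ≤ k ∧ A = csp p s}
  rw [pow_succ]
  omega

theorem sup_card {K : Type} [Finite K] (fam : Set (Submodule (ZMod p) (K → ZMod p))) (t : ℕ)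
    (h1 : fam.ncard ≤ 2 ^ (t + 1)) :
    {U | ∃ A ∈ fam, ∃ A' ∈ fam, U = A ⊔ A'}.ncard ≤ 2 ^ (2 * t + 2) := by
  classical
  have hF : Finite (Submodule (ZMod p) (K → ZMod p)) :=
    Finite.of_injective (fun A : Submodule (ZMod p) (K → ZMod p) => (A : Set (K → ZMod p)))
      SetLike.coe_injective
  have h2 : {U | ∃ A ∈ fam, ∃ A' ∈ fam, U = A ⊔ A'} ⊆ (fun q : Submodule (ZMod p) (K → ZMod p) ×
      Submodule (ZMod p) (K → ZMod p) => q.1 ⊔ q.2) '' (fam ×ˢ fam) := by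
    rintro U ⟨A, hA, A', hA', rfl⟩
    exact ⟨(A, A'), ⟨hA, hA'⟩, rfl⟩
  refine (Set.ncard_le_ncard h2 (Set.toFinite _)).trans ((Set.ncard_image_le (Set.toFinite _)).trans ?_)
  rw [Set.ncard_prod]
  calc fam.ncard * fam.ncard ≤ 2 ^ (t + 1) * 2 ^ (t + 1) := Nat.mul_le_mul h1 h1
    _ = 2 ^ (2 * t + 2) := by
      rw [← pow_add]
      congr 1
      ring

theorem sup3_card {K : Type} [Finite K] (fam : Set (Submodule (ZMod p) (K → ZMod p))) (t : ℕ)
    (h1 : fam.ncard ≤ 2 ^ (t + 1)) :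
    {U | ∃ A ∈ fam, ∃ A' ∈ fam, ∃ A'' ∈ fam, U = A ⊔ A' ⊔ A''}.ncard ≤ 2 ^ (3 * t + 3) := by
  classical
  have hF : Finite (Submodule (ZMod p) (K → ZMod p)) :=
    Finite.of_injective (fun A : Submodule (ZMod p) (K → ZMod p) => (A : Set (K → ZMod p)))
      SetLike.coe_injective
  have h2 : {U | ∃ A ∈ fam, ∃ A' ∈ fam, ∃ A'' ∈ fam, U = A ⊔ A' ⊔ A''} ⊆
      (fun q : Submodule (ZMod p) (K → ZMod p) × Submodule (ZMod p) (K → ZMod p) ×
        Submodule (ZMod p) (K → ZMod p) => q.1 ⊔ q.2.1 ⊔ q.2.2) '' (fam ×ˢ (fam ×ˢ fam)) := by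
    rintro U ⟨A, hA, A', hA', A'', hA'', rfl⟩
    exact ⟨(A, A', A''), ⟨hA, hA', hA''⟩, rfl⟩
  refine (Set.ncard_le_ncard h2 (Set.toFinite _)).trans ((Set.ncard_image_le (Set.toFinite _)).trans ?_)
  rw [Set.ncard_prod, Set.ncard_prod]
  calc fam.ncard * (fam.ncard * fam.ncard) ≤ 2 ^ (t + 1) * (2 ^ (t + 1) * 2 ^ (t + 1)) :=
        Nat.mul_le_mul h1 (Nat.mul_le_mul h1 h1)
    _ = 2 ^ (3 * t + 3) := by
      rw [← pow_add, ← pow_add]
      congr 1
      ring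

end Pool.Agent.H6.AC
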