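import Pool.Agent.H79.CQ.Mo5

/-!
# The atoms depend on few cells

PROOF. Cases on the symbol of `v` (model: `Dat.leaf_loc` in `H79/CQ/Mod`). Z, E, J, F, B, D do not depend on the
world (`s = ∅`). Th, M, G, X with the vertex argument `q`: if `q` is in the block of no `cv x`, `inB L x`, the atom is
false at all worlds; otherwise `x` is unique (`vert_unique`); `s` := the set of the cells `D.j (sq x σ t)`,
`s(σ, t) : Sym2 (Slot d)` (`sq x σ t = sq x t σ`; so `s` is the image of `Sym2 (Slot d)`, `s.card ≤ k8 d`). The values at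
the world which occur are those at `ye p L D.j (ed x σ)`, `isE L (ed x σ)`: this vector is in `D.g.D` (`ye_mem`) and in
`csp p s` (`ye_supp` in `H79/CQ/GGad`: its support consists of cells `D.j (sq x σ t)`). So `D.val x σ u f = D.val x σ u f'`
and the rest follows as in `leaf_loc`.
-/

set_option autoImplicit false
set_option linter.unusedSectionVars false

namespace Pool.Agent.H6.AC

open Pool.Agent.H42.CS (Pt Ed Sq un inB isE isS Slot off ed sq Ax Atom)
open Pool.Agent.H79.CQ (Dat k8 csp Re Wd)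

theorem leaf_csp {p : ℕ} [hp : Fact p.Prime] {d L r : ℕ} {P : Type} (D : Dat p d L r P)
    (v : Atom (Re d) P) : ∃ s : Finset (Fin r), s.card ≤ k8 d ∧
      ∀ f f' : Wd p (Fin r), D.g.Agr (csp p s) f f' → (D.leaf v f ↔ D.leaf v f') := by
  obtain ⟨s, w, hv⟩ : ∃ (s : H79.CQ.Sy d) (w : s.Ix → P), v = H79.CQ.am s w :=
    ⟨H79.CQ.sy v, H79.CQ.arg v, (H79.CQ.am_arg v).symm⟩
  subst hv
  have hiff : ∀ f f' : Wd p (Fin r), (D.leafS s w f ↔ D.leafS s w f') →
      (D.leaf (H79.CQ.am s w) f ↔ D.leaf (H79.CQ.am s w) f') := by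
    intro f f' h
    rw [D.leaf_am, D.leaf_am]
    exact h
  cases s with
  | Z => exact ⟨∅, by simp, fun f f' _ => hiff f f' Iff.rfl⟩
  | E => exact ⟨∅, by simp, fun f f' _ => hiff f f' Iff.rfl⟩
  | J a => exact ⟨∅, by simp, fun f f' _ => hiff f f' Iff.rfl⟩
  | F τ => exact ⟨∅, by simp, fun f f' _ => hiff f f' Iff.rfl⟩
  | B => exact ⟨∅, by simp, fun f f' _ => hiff f f' Iff.rfl⟩
  | D => exact ⟨∅, by simp, fun f f' _ => hiff f f' Iff.rfl⟩
  | Th σ =>
    refine ⟨D.cel (fun t : Slot d => w (Sum.inl t)), (D.card_cel _).trans H79.CQ.Dat.card_slot,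
      fun f f' h => hiff f f' ?_⟩
    exact (D.leaf_aT σ _ _ _ _ f).symm.trans
      ((D.loc_T (Finset.Subset.refl _) h).trans (D.leaf_aT σ _ _ _ _ f'))
  | M σ k =>
    refine ⟨D.cel (fun τ : Sym2 (Slot d) => w (Sum.inl τ)), D.card_cel _, fun f f' h => hiff f f' ?_⟩
    exact (D.leaf_aM σ k _ _ _ _ _ f).symm.trans
      ((D.loc_M (Finset.Subset.refl _) h).trans (D.leaf_aM σ k _ _ _ _ _ f'))
  | G k =>
    refine ⟨D.cel (fun τ : Sym2 (Slot d) => w (Sum.inl τ)), D.card_cel _, fun f f' h => hiff f f' ?_⟩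
    exact (D.leaf_aG k _ _ _ _ f).symm.trans
      ((D.loc_G (Finset.Subset.refl _) h).trans (D.leaf_aG k _ _ _ _ f'))
  | X k =>
    refine ⟨D.cel (fun τ : Sym2 (Slot d) => w (Sum.inl τ)), D.card_cel _, fun f f' h => hiff f f' ?_⟩
    exact (D.leaf_aX k _ _ _ f).symm.trans
      ((D.loc_X (Finset.Subset.refl _) h).trans (D.leaf_aX k _ _ _ f'))

end Pool.Agent.H6.AC
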