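import Mathlib

/-!
# Small covers

If there are no `k` disjoint members of the relation `H`, the ends of a maximal disjoint family are a
cover with at most `2 k` points.
-/

set_option autoImplicit false

namespace Pool.Agent.H6.AC

theorem exists_cover {A B : Type} [Fintype A] [Fintype B] [DecidableEq A] [DecidableEq B]
    (H : Set (A × B)) (k : ℕ) (h : ¬ ∃ (i : Fin k → A) (j : Fin k → B), Function.Injective i ∧
      Function.Injective j ∧ ∀ l, (i l, j l) ∈ H) :
    ∃ Y : Finset (A ⊕ B), Y.card ≤ 2 * k ∧ ∀ a b, (a, b) ∈ H → Sum.inl a ∈ Y ∨ Sum.inr b ∈ Y := by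
  classical
  let P : Finset (A × B) → Prop := fun S => (∀ p ∈ S, p ∈ H) ∧
    (∀ p ∈ S, ∀ q ∈ S, p.1 = q.1 → p = q) ∧ (∀ p ∈ S, ∀ q ∈ S, p.2 = q.2 → p = q)
  obtain ⟨S, hS, hmax⟩ : ∃ S, P S ∧ ∀ T, P T → T.card ≤ S.card := by
    obtain ⟨S, hS, hm⟩ := Finset.exists_max_image (Finset.univ.filter P) Finset.card
      ⟨∅, by simp [P]⟩
    exact ⟨S, (Finset.mem_filter.1 hS).2, fun T hT =>
      hm T (Finset.mem_filter.2 ⟨Finset.mem_univ _, hT⟩)⟩
  obtain ⟨hSH, hS1, hS2⟩ := hS
  have hcard : S.card ≤ k := by
    by_contra hk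
    push Not at hk
    obtain ⟨T, hT, hTc⟩ := Finset.exists_subset_card_eq hk.le
    let e := T.equivFinOfCardEq hTc
    refine h ⟨fun l => (e.symm l).1.1, fun l => (e.symm l).1.2, ?_, ?_, ?_⟩
    · intro x y hxy
      have := hS1 _ (hT (e.symm x).2) _ (hT (e.symm y).2) hxy
      exact e.symm.injective (Subtype.ext this)
    · intro x y hxy
      have := hS2 _ (hT (e.symm x).2) _ (hT (e.symm y).2) hxy
      exact e.symm.injective (Subtype.ext this)
    · intro l
      exact hSH _ (hT (e.symm l).2)
  refine ⟨S.image (fun p => Sum.inl p.1) ∪ S.image (fun p => Sum.inr p.2), ?_, ?_⟩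
  · calc _ ≤ (S.image (fun p => (Sum.inl p.1 : A ⊕ B))).card
          + (S.image (fun p => (Sum.inr p.2 : A ⊕ B))).card := Finset.card_union_le _ _
      _ ≤ S.card + S.card := Nat.add_le_add Finset.card_image_le Finset.card_image_le
      _ ≤ 2 * k := by omega
  · intro a b hab
    by_contra hcon
    push Not at hcon
    obtain ⟨ha, hb⟩ := hcon
    have ha' : ∀ p ∈ S, p.1 ≠ a := by
      intro p hp hpa
      apply ha
      exact Finset.mem_union_left _ (Finset.mem_image.2 ⟨p, hp, by rw [hpa]⟩)
    have hb' : ∀ p ∈ S, p.2 ≠ b := by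
      intro p hp hpb
      apply hb
      exact Finset.mem_union_right _ (Finset.mem_image.2 ⟨p, hp, by rw [hpb]⟩)
    have hnot : (a, b) ∉ S := fun hm => ha' _ hm rfl
    have hnew : P (insert (a, b) S) := by
      refine ⟨?_, ?_, ?_⟩
      · intro p hp
        rcases Finset.mem_insert.1 hp with rfl | hp
        · exact hab
        · exact hSH p hp
      · intro p hp q hq hpq
        rcases Finset.mem_insert.1 hp with rfl | hp <;> rcases Finset.mem_insert.1 hq with rfl | hq
        · rfl
        · exact absurd hpq.symm (ha' q hq)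
        · exact absurd hpq (ha' p hp)
        · exact hS1 p hp q hq hpq
      · intro p hp q hq hpq
        rcases Finset.mem_insert.1 hp with rfl | hp <;> rcases Finset.mem_insert.1 hq with rfl | hq
        · rfl
        · exact absurd hpq.symm (hb' q hq)
        · exact absurd hpq (hb' p hp)
        · exact hS2 p hp q hq hpq
    have := hmax _ hnew
    rw [Finset.card_insert_of_notMem hnot] at this
    omega

end Pool.Agent.H6.AC
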