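import Pool.Agent.H79.CQ.GIso

/-!
# Small sets with a given cut

For a set `Z` of few edges there is one small set `A` of vertices which contains the support of every small
function whose cut lies in `Z`.

PROOF. Call a set `A` of vertices of the box good if `8 |A| < L ^ d` and every edge of the box with exactly
one end in `A` is in `Z`. The union of two good sets is good: let `A` be the union, `|A| ≤ L ^ d / 4`; `iso` for
the indicator function of `A` (values in `ZMod p`) and `Q x := x ∈ A` gives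
`|A| (L ^ d - |A|) ≤ |Z| L ^ (d + 1)`, so `|A| * 3 * L ^ d ≤ 4 |Z| L ^ (d + 1)`, `3 |A| ≤ 4 |Z| L`, and
`16 |Z| < L ^ (d - 1)` gives `12 |A| < L ^ d`. The empty set is good. So the union of all good sets (a finite
union) is good. The support `{x | inB L x ∧ f x ≠ 0}` of `f` as in the statement is good: for an edge `e` with
exactly one end in it, `cob L f e ≠ 0`.
-/

set_option autoImplicit false
set_option linter.unusedSectionVars false

namespace Pool.Agent.H6.AC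

open Pool.Agent.H42.CS (Pt Ed Sq un inB isE isS mix btw Slot off ed sq)
open Pool.Agent.H79.CQ (nm Sup dl cob sg ye tau Gad Wd)

open Classical in
private noncomputable def ind (p : ℕ) {d : ℕ} (A : Set (Pt d)) (x : Pt d) : ZMod p := if x ∈ A then 1 else 0

private theorem cob_ind_ne (p : ℕ) [hp : Fact p.Prime] {d L : ℕ} {A : Set (Pt d)} {e : Ed d} :
    cob L (ind p A) e ≠ 0 ↔ isE L e ∧ ¬ (e.1 ∈ A ↔ e.1 + un e.2 ∈ A) := by
  have h10 : (1 : ZMod p) ≠ 0 := one_ne_zero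
  unfold cob ind
  by_cases he : isE L e
  · rw [if_pos he]
    by_cases h1 : e.1 ∈ A
    · by_cases h2 : e.1 + un e.2 ∈ A
      · rw [if_pos h1, if_pos h2, sub_self]
        exact ⟨fun h => absurd rfl h, fun h => absurd (iff_of_true h1 h2) h.2⟩
      · rw [if_pos h1, if_neg h2, sub_zero]
        exact ⟨fun _ => ⟨he, fun h => h2 (h.1 h1)⟩, fun _ => h10⟩
    · by_cases h2 : e.1 + un e.2 ∈ A
      · rw [if_neg h1, if_pos h2, zero_sub]
        exact ⟨fun _ => ⟨he, fun h => h1 (h.2 h2)⟩, fun _ => neg_ne_zero.2 h10⟩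
      · rw [if_neg h1, if_neg h2, sub_self]
        exact ⟨fun h => absurd rfl h, fun h => absurd (iff_of_false h1 h2) h.2⟩
  · rw [if_neg he]
    exact ⟨fun h => absurd rfl h, fun h => absurd h.1 he⟩

/-- Good sets. -/
private def Good (p : ℕ) {d : ℕ} (L : ℕ) (Z : Set (Ed d)) (A : Set (Pt d)) : Prop :=
  8 * {x | inB L x ∧ x ∈ A}.ncard < L ^ d ∧ ∀ e, cob L (ind p A) e ≠ 0 → e ∈ Z

private theorem split_card {d : ℕ} (L : ℕ) (A : Set (Pt d)) :
    {x | inB L x ∧ x ∈ A}.ncard + {x | inB L x ∧ ¬ x ∈ A}.ncard = L ^ d := by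
  have hfin := (Pool.Agent.H42.CS.box_fin (d := d) L).1
  have hdis : Disjoint {x | inB L x ∧ x ∈ A} {x | inB L x ∧ ¬ x ∈ A} := by
    rw [Set.disjoint_left]
    rintro x ⟨-, h1⟩ ⟨-, h2⟩
    exact h2 h1
  rw [← (Pool.Agent.H42.CS.box_fin (d := d) L).2, ← Set.ncard_union_eq hdis
    (hfin.subset fun x hx => hx.1) (hfin.subset fun x hx => hx.1)]
  congr 1
  ext x
  constructor
  · rintro (h | h)
    · exact h.1
    · exact h.1
  · intro h
    by_cases h1 : x ∈ A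
    · exact Or.inl ⟨h, h1⟩
    · exact Or.inr ⟨h, h1⟩

private theorem good_union (p : ℕ) [hp : Fact p.Prime] {d : ℕ} (hd : 1 ≤ d) (L : ℕ) (hL : 1 ≤ L)
    (Z : Set (Ed d)) (hZ : 16 * Z.ncard < L ^ (d - 1)) (hZf : Z.Finite) {A B : Set (Pt d)}
    (hA : Good p L Z A) (hB : Good p L Z B) : Good p L Z (A ∪ B) := by
  have hfin := (Pool.Agent.H42.CS.box_fin (d := d) L).1
  have hcut : ∀ e, cob L (ind p (A ∪ B)) e ≠ 0 → e ∈ Z := by
    intro e he
    obtain ⟨h1, h2⟩ := (cob_ind_ne p).1 he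
    by_cases h3 : e.1 ∈ A ↔ e.1 + un e.2 ∈ A
    · by_cases h4 : e.1 ∈ B ↔ e.1 + un e.2 ∈ B
      · exact absurd (or_congr h3 h4) h2
      · exact hB.2 e ((cob_ind_ne p).2 ⟨h1, h4⟩)
    · exact hA.2 e ((cob_ind_ne p).2 ⟨h1, h3⟩)
  refine ⟨?_, hcut⟩
  have hsub : {x | inB L x ∧ x ∈ A ∪ B} ⊆ {x | inB L x ∧ x ∈ A} ∪ {x | inB L x ∧ x ∈ B} := by
    rintro x ⟨h1, h2 | h2⟩
    · exact Or.inl ⟨h1, h2⟩
    · exact Or.inr ⟨h1, h2⟩
  have h1 := Set.ncard_le_ncard hsub ((hfin.subset fun x hx => hx.1).union (hfin.subset fun x hx => hx.1))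
  have h2 := Set.ncard_union_le {x | inB L x ∧ x ∈ A} {x | inB L x ∧ x ∈ B}
  have h3 := hA.1
  have h4 := hB.1
  have h5 := split_card L (A ∪ B)
  have h6 := Pool.Agent.H79.CQ.iso L (ind p (A ∪ B)) (fun x => x ∈ A ∪ B) (by
    intro x y hxy hx
    by_contra hy
    unfold ind at hxy
    rw [if_pos hx, if_neg hy] at hxy
    exact one_ne_zero hxy)
  have h7 : nm (cob L (ind p (A ∪ B))) ≤ Z.ncard := by
    unfold nm
    exact Set.ncard_le_ncard hcut hZf
  have h8 := h6.trans (Nat.mul_le_mul_right _ h7)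
  change {x | inB L x ∧ x ∈ A ∪ B}.ncard * {x | inB L x ∧ ¬ x ∈ A ∪ B}.ncard ≤ _ at h8
  generalize {x | inB L x ∧ x ∈ A ∪ B}.ncard = c at h1 h5 h8 ⊢
  generalize {x | inB L x ∧ ¬ x ∈ A ∪ B}.ncard = c' at h5 h8
  generalize Z.ncard = z at hZ h8
  have hLd : 0 < L ^ d := by positivity
  have h9 : 3 * L ^ d ≤ 4 * c' := by omega
  have h10 : (3 * c) * L ^ d ≤ (4 * z * L) * L ^ d := by
    calc (3 * c) * L ^ d = c * (3 * L ^ d) := by ring
      _ ≤ c * (4 * c') := Nat.mul_le_mul_left _ h9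
      _ = 4 * (c * c') := by ring
      _ ≤ 4 * (z * L ^ (d + 1)) := Nat.mul_le_mul_left _ h8
      _ = (4 * z * L) * L ^ d := by ring
  have h11 : 3 * c ≤ 4 * z * L := Nat.le_of_mul_le_mul_right h10 hLd
  have h12 : 16 * z * L < L ^ (d - 1) * L := Nat.mul_lt_mul_of_pos_right hZ (by omega)
  have h13 : L ^ (d - 1) * L = L ^ d := by
    rw [← pow_succ]
    congr 1
    omega
  rw [h13] at h12
  have h14 : 16 * z * L = 4 * (4 * z * L) := by ring
  omega

theorem big_cut (p : ℕ) [hp : Fact p.Prime] {d : ℕ} (hd : 1 ≤ d) (L : ℕ) (hL : 1 ≤ L)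
    (Z : Set (Ed d)) (hZ : 16 * Z.ncard < L ^ (d - 1)) (hZf : Z.Finite) :
    ∃ A : Set (Pt d), 8 * {x | inB L x ∧ x ∈ A}.ncard < L ^ d ∧
      ∀ f : Pt d → ZMod p, 8 * {x | inB L x ∧ f x ≠ 0}.ncard < L ^ d →
        (∀ e, cob L f e ≠ 0 → e ∈ Z) → ∀ x, inB L x → f x ≠ 0 → x ∈ A := by
  classical
  have hfin := (Pool.Agent.H42.CS.box_fin (d := d) L).1
  have hLd : 0 < L ^ d := by positivity
  have h0 : Good p L Z (∅ : Set (Pt d)) := by
    refine ⟨?_, fun e he => ?_⟩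
    · have e0 : {x : Pt d | inB L x ∧ x ∈ (∅ : Set (Pt d))} = ∅ := by
        ext x
        simp
      rw [e0, Set.ncard_empty, mul_zero]
      exact hLd
    · exact absurd (iff_of_false (Set.notMem_empty _) (Set.notMem_empty _)) ((cob_ind_ne p).1 he).2
  obtain ⟨S, hS⟩ : ∃ S : Set ℕ, S = {n | ∃ A : Set (Pt d), Good p L Z A ∧ {x | inB L x ∧ x ∈ A}.ncard = n} := ⟨_, rfl⟩
  have hne : S.Nonempty := by
    rw [hS]
    exact ⟨_, ∅, h0, rfl⟩
  have hbdd : BddAbove S := by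
    refine ⟨L ^ d, fun n hn => ?_⟩
    rw [hS] at hn
    obtain ⟨A, hA, rfl⟩ := hn
    have := hA.1
    omega
  have hmem := Nat.sSup_mem hne hbdd
  rw [hS] at hmem
  obtain ⟨A, hA, hAn⟩ := hmem
  rw [← hS] at hAn
  refine ⟨A, hA.1, fun f hf hcut x hx hfx => ?_⟩
  have hB : Good p L Z {x | f x ≠ 0} := by
    refine ⟨hf, fun e he => hcut e ?_⟩
    obtain ⟨h1, h2⟩ := (cob_ind_ne p).1 he
    intro h3
    unfold cob at h3
    rw [if_pos h1, sub_eq_zero] at h3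
    apply h2
    change (f e.1 ≠ 0 ↔ f (e.1 + un e.2) ≠ 0)
    rw [h3]
  have hU := good_union p hd L hL Z hZ hZf hA hB
  have h1 : {x | inB L x ∧ x ∈ A ∪ {x | f x ≠ 0}}.ncard ≤ sSup S := by
    refine le_csSup hbdd ?_
    rw [hS]
    exact ⟨_, hU, rfl⟩
  rw [← hAn] at h1
  have hsub : {x | inB L x ∧ x ∈ A} ⊆ {x | inB L x ∧ x ∈ A ∪ {x | f x ≠ 0}} := fun y hy => ⟨hy.1, Or.inl hy.2⟩
  have h2 := Set.eq_of_subset_of_ncard_le hsub h1 (hfin.subset fun y hy => hy.1)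
  have h3 : x ∈ {x | inB L x ∧ x ∈ A ∪ {x | f x ≠ 0}} := ⟨hx, Or.inr hfx⟩
  rw [← h2] at h3
  exact h3.2

end Pool.Agent.H6.AC
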