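import Pool.Agent.H79.CQ.GId

/-!
# Paths which hit a set of edges

`hits L Z`: the pairs `(x, y)` of vertices of the box for which the coordinate path from `x` to `y` (the path
of `pth`) uses an edge of `Z`.

PROOF of `hits_card`. It is enough to bound the number of the pairs for one edge `(u, b)` by `L ^ (d + 1)`
(`Z` is finite; sum over its members). Such a pair `q = (x, y)` has `mix y x b t = u` for some `t` in
`btw (x b) (y b)`: so `t = u b`, `y i = u i` for `i < b`, `x i = u i` for `i > b`. The map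
`q ↦ (fun i => if i < b then x i else if i = b then x b else y i, y b)` is injective on these pairs with values in
(box) × `[0, L)`, see `pairs` in `H79/CQ/GFil` and the end of the proof of `iso` in `H79/CQ/GIso`.

PROOF of `pth_hits`: `pth z x y` is a sum of multiples of the `z (mix y x b t, b)`, `t ∈ btw (x b) (y b)`; one of them
is not zero.
-/

set_option autoImplicit false
set_option linter.unusedSectionVars false

namespace Pool.Agent.H6.AC

open Pool.Agent.H42.CS (Pt Ed Sq un inB isE isS mix btw Slot off ed sq)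
open Pool.Agent.H79.CQ (nm Sup dl cob sg ye tau Gad Wd pth)

/-- The pairs of vertices whose path uses an edge of `Z`. -/
def hits {d : ℕ} (L : ℕ) (Z : Set (Ed d)) : Set (Pt d × Pt d) :=
  {q | inB L q.1 ∧ inB L q.2 ∧ ∃ b : Fin d, ∃ t ∈ H42.CS.btw (q.1 b) (q.2 b), (mix q.2 q.1 b t, b) ∈ Z}

theorem hits_card {d : ℕ} (L : ℕ) (Z : Set (Ed d)) (hZ : Z.Finite) :
    (hits L Z).ncard ≤ Z.ncard * L ^ (d + 1) := by
  classical
  by_cases hne : (hits L Z).Nonempty
  swap
  · rw [Set.not_nonempty_iff_eq_empty.1 hne, Set.ncard_empty]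
    exact Nat.zero_le _
  obtain ⟨q0, hq0⟩ := hne
  obtain ⟨b0, -⟩ := hq0.2.2
  have hex : ∀ q : Pt d × Pt d, q ∈ hits L Z → ∃ u : Fin d × ℤ,
      u.2 ∈ H42.CS.btw (q.1 u.1) (q.2 u.1) ∧ (mix q.2 q.1 u.1 u.2, u.1) ∈ Z := by
    rintro q ⟨-, -, b, t, ht, hZt⟩
    exact ⟨(b, t), ht, hZt⟩
  obtain ⟨u, hu⟩ : ∃ u : Pt d × Pt d → Fin d × ℤ, ∀ q ∈ hits L Z,
      (u q).2 ∈ H42.CS.btw (q.1 (u q).1) (q.2 (u q).1) ∧
      (mix q.2 q.1 (u q).1 (u q).2, (u q).1) ∈ Z := by
    refine ⟨fun q => if h : q ∈ hits L Z then (hex q h).choose else (b0, 0), fun q hq => ?_⟩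
    simp only [dif_pos hq]
    exact (hex q hq).choose_spec
  obtain ⟨Ψ, hΨ⟩ : ∃ Ψ : Pt d × Pt d → Ed d × (Pt d × ℤ), ∀ q, Ψ q =
      ((mix q.2 q.1 (u q).1 (u q).2, (u q).1),
      (fun i => if i ≤ (u q).1 then q.1 i else q.2 i), q.2 (u q).1) := ⟨_, fun _ => rfl⟩
  have hT : (Z ×ˢ ({x : Pt d | inB L x} ×ˢ Set.Ico (0 : ℤ) L)).Finite :=
    hZ.prod ((H42.CS.box_fin (d := d) L).1.prod (Set.finite_Ico _ _))
  have hmaps : ∀ q ∈ hits L Z, Ψ q ∈ Z ×ˢ ({x : Pt d | inB L x} ×ˢ Set.Ico (0 : ℤ) L) := by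
    intro q hq
    rw [hΨ]
    have hq1 : inB L q.1 := hq.1
    have hq2 : inB L q.2 := hq.2.1
    refine ⟨(hu q hq).2, ?_, hq2 _⟩
    intro i
    change 0 ≤ (if i ≤ (u q).1 then q.1 i else q.2 i) ∧
      (if i ≤ (u q).1 then q.1 i else q.2 i) < (L : ℤ)
    split_ifs
    · exact hq1 i
    · exact hq2 i
  have hinj : Set.InjOn Ψ (hits L Z) := by
    intro q hq q' hq' h
    rw [hΨ, hΨ] at h
    have h1 : (u q).1 = (u q').1 := congrArg (fun w => w.1.2) h
    have h2 : mix q.2 q.1 (u q).1 (u q).2 = mix q'.2 q'.1 (u q').1 (u q').2 :=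
      congrArg (fun w => w.1.1) h
    have h3 : (fun i => if i ≤ (u q).1 then q.1 i else q.2 i) =
        fun i => if i ≤ (u q').1 then q'.1 i else q'.2 i :=
      congrArg (fun w => w.2.1) h
    have h4 : q.2 (u q).1 = q'.2 (u q').1 := congrArg (fun w => w.2.2) h
    rw [← h1] at h2 h3 h4
    have k2 := fun i => congrFun h2 i
    have k3 := fun i => congrFun h3 i
    simp only [mix] at k2 k3
    apply Prod.ext
    · funext i
      have a2 := k2 i
      have a3 := k3 i
      by_cases h5 : i ≤ (u q).1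
      · rw [if_pos h5, if_pos h5] at a3
        exact a3
      · have h6 : ¬ i < (u q).1 := fun h => h5 h.le
        have h7 : ¬ i = (u q).1 := fun h => h5 h.le
        rw [if_neg h6, if_neg h7, if_neg h6, if_neg h7] at a2
        exact a2
    · funext i
      have a2 := k2 i
      have a3 := k3 i
      rcases lt_trichotomy i (u q).1 with h5 | h5 | h5
      · rw [if_pos h5, if_pos h5] at a2
        exact a2
      · rw [h5]
        exact h4
      · rw [if_neg (not_le.2 h5), if_neg (not_le.2 h5)] at a3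
        exact a3
  have hfin := Set.ncard_le_ncard_of_injOn Ψ hmaps hinj hT
  rw [Set.ncard_prod, Set.ncard_prod, (H42.CS.box_fin (d := d) L).2] at hfin
  have h8 : (Set.Ico (0 : ℤ) L).ncard = L := by
    rw [← Finset.coe_Ico, Set.ncard_coe_finset, Int.card_Ico]
    omega
  rw [h8, ← pow_succ] at hfin
  exact hfin

theorem pth_hits {p d : ℕ} (L : ℕ) (Z : Set (Ed d)) (z : Ed d → ZMod p)
    (hz : ∀ e, z e ≠ 0 → e ∈ Z) {x y : Pt d} (hx : inB L x) (hy : inB L y)
    (h : pth z x y ≠ 0) : (x, y) ∈ hits L Z := by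
  unfold pth at h
  obtain ⟨b, -, hb⟩ := Finset.exists_ne_zero_of_sum_ne_zero h
  obtain ⟨t, ht, ht2⟩ := Finset.exists_ne_zero_of_sum_ne_zero (right_ne_zero_of_mul hb)
  exact ⟨hx, hy, b, t, ht, hz _ ht2⟩

end Pool.Agent.H6.AC
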