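import Mathlib

/-!
# Random points

PROOF. Count the pairs `(a, b)` of functions `Fin (m + 1) → X`, `Fin m → X`: `N ^ (2 m + 1)` of them,
`N = |X|`.
(1) For `Q ∈ 𝓑` and injective `i : Fin k → Fin (m + 1)`, `j : Fin k → Fin m` the number of the `(a, b)` with
`(a (i l), b (j l)) ∈ Q` for all `l` is `|Q| ^ k * N ^ (2 m + 1 - 2 k)` (if `k ≤ m`; otherwise there are no
injective `j`). There are at most `(m + 1) ^ k * m ^ k` pairs `(i, j)`. So the number of the bad `(a, b)` for `Q` is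
at most `((m + 1) * m * |Q|) ^ k * N ^ (2 m + 1 - 2 k)`, and `2 * ((m + 1) * m * |Q|) ≤ N ^ 2` gives
`bad * 2 ^ k ≤ N ^ (2 m + 1)`. Sum over `Q ∈ 𝓑`: `2 * |𝓑| < 2 ^ k` gives `2 * bad < N ^ (2 m + 1)`.
(2) For `A ∈ 𝓒`: if at most `4 k` of the `a i` are not in `A`, there is a set `J` of indices with
`|J| = m + 1 - 4 k` and `a i ∈ A` for `i ∈ J`. At most `2 ^ (m + 1) * |A| ^ (m + 1 - 4 k) * N ^ (4 k) * N ^ m` pairs;
`8 |A| ≤ N` gives `bad * 8 ^ (m + 1 - 4 k) ≤ 2 ^ (m + 1) * N ^ (2 m + 1)`, so `bad * 4 ^ (m + 1) ≤ 2 ^ (12 k) * N ^ (2 m + 1)`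
and the sum over `𝓒` is at most `N ^ (2 m + 1) / 2` by `hC2`. (If `m + 1 < 4 k` then `4 ^ (m + 1) < 2 ^ (12 k)` and `hC2`
forces `𝓒 = ∅`.)
(A convenient way: work with the product type `Fin (m + 1) ⊕ Fin m → X`, or fix `J` and use
`Fintype.card_piFinset`.)
-/

set_option autoImplicit false
set_option linter.unusedSectionVars false

namespace Pool.Agent.H6.AC

open Finset

private theorem pt_J {X : Type} [Fintype X] [DecidableEq X] (n : ℕ) (A : Finset X)
    (hA : 8 * A.card ≤ Fintype.card X) (J : Finset (Fin n)) :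
    (univ.filter fun a : Fin n → X => ∀ i ∈ J, a i ∈ A).card * 8 ^ J.card ≤ Fintype.card X ^ n := by
  have h1 : (univ.filter fun a : Fin n → X => ∀ i ∈ J, a i ∈ A) =
      Fintype.piFinset fun i => if i ∈ J then A else univ := by
    ext a
    rw [mem_filter, Fintype.mem_piFinset]
    constructor
    · rintro ⟨_, h⟩ i
      by_cases hi : i ∈ J
      · rw [if_pos hi]; exact h i hi
      · rw [if_neg hi]; exact mem_univ _
    · intro h
      refine ⟨mem_univ _, fun i hi => ?_⟩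
      have h2 := h i
      rwa [if_pos hi] at h2
  have h3 : (8 : ℕ) ^ J.card = ∏ i : Fin n, if i ∈ J then 8 else 1 := by
    rw [Finset.prod_ite_mem, univ_inter, prod_const]
  rw [h1, Fintype.card_piFinset, h3, ← Finset.prod_mul_distrib]
  calc ∏ i : Fin n, (if i ∈ J then A else univ).card * (if i ∈ J then 8 else 1)
      ≤ ∏ _i : Fin n, Fintype.card X := by
        refine Finset.prod_le_prod (fun _ _ => Nat.zero_le _) fun i _ => ?_
        by_cases hi : i ∈ J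
        · rw [if_pos hi, if_pos hi, mul_comm]; exact hA
        · rw [if_neg hi, if_neg hi, mul_one]; exact le_of_eq (card_univ)
    _ = Fintype.card X ^ n := by rw [prod_const, card_univ, Fintype.card_fin]

private theorem pt_A {X : Type} [Fintype X] [DecidableEq X] (n k : ℕ) (A : Finset X)
    (hA : 8 * A.card ≤ Fintype.card X) :
    (univ.filter fun a : Fin n → X => (univ.filter fun i => a i ∉ A).card ≤ 4 * k).card * 4 ^ n ≤
      Fintype.card X ^ n * 2 ^ (12 * k) := by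
  obtain ⟨P, hP⟩ : ∃ P : Finset (Finset (Fin n)), P = univ.powerset.filter fun J => n ≤ J.card + 4 * k :=
    ⟨_, rfl⟩
  have h1 : (univ.filter fun a : Fin n → X => (univ.filter fun i => a i ∉ A).card ≤ 4 * k) ⊆
      P.biUnion fun J => univ.filter fun a : Fin n → X => ∀ i ∈ J, a i ∈ A := by
    intro a ha
    rw [mem_filter] at ha
    rw [mem_biUnion]
    refine ⟨univ.filter fun i => a i ∈ A, ?_, ?_⟩
    · rw [hP, mem_filter]
      refine ⟨mem_powerset.2 (subset_univ _), ?_⟩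
      have h2 := Finset.card_filter_add_card_filter_not (s := (univ : Finset (Fin n))) (fun i => a i ∈ A)
      rw [card_univ, Fintype.card_fin] at h2
      have h3 := ha.2
      omega
    · rw [mem_filter]
      exact ⟨mem_univ _, fun i hi => (mem_filter.1 hi).2⟩
  have h2 : ∀ J ∈ P, (univ.filter fun a : Fin n → X => ∀ i ∈ J, a i ∈ A).card * 8 ^ n ≤
      Fintype.card X ^ n * 8 ^ (4 * k) := by
    intro J hJ
    rw [hP, mem_filter] at hJ
    calc (univ.filter fun a : Fin n → X => ∀ i ∈ J, a i ∈ A).card * 8 ^ n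
        ≤ (univ.filter fun a : Fin n → X => ∀ i ∈ J, a i ∈ A).card * 8 ^ (J.card + 4 * k) :=
          Nat.mul_le_mul_left _ (Nat.pow_le_pow_right (by norm_num) hJ.2)
      _ = (univ.filter fun a : Fin n → X => ∀ i ∈ J, a i ∈ A).card * 8 ^ J.card * 8 ^ (4 * k) := by
          rw [pow_add, mul_assoc]
      _ ≤ _ := Nat.mul_le_mul_right _ (pt_J n A hA J)
  have hPc : P.card ≤ 2 ^ n := by
    rw [hP]
    refine (card_filter_le _ _).trans ?_
    rw [card_powerset, card_univ, Fintype.card_fin]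
  have h3 : (univ.filter fun a : Fin n → X => (univ.filter fun i => a i ∉ A).card ≤ 4 * k).card * 8 ^ n ≤
      2 ^ n * (Fintype.card X ^ n * 8 ^ (4 * k)) := by
    calc _ ≤ (P.biUnion fun J => univ.filter fun a : Fin n → X => ∀ i ∈ J, a i ∈ A).card * 8 ^ n :=
          Nat.mul_le_mul_right _ (card_le_card h1)
      _ ≤ (∑ J ∈ P, (univ.filter fun a : Fin n → X => ∀ i ∈ J, a i ∈ A).card) * 8 ^ n :=
          Nat.mul_le_mul_right _ card_biUnion_le
      _ = ∑ J ∈ P, (univ.filter fun a : Fin n → X => ∀ i ∈ J, a i ∈ A).card * 8 ^ n := by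
          rw [Finset.sum_mul]
      _ ≤ ∑ _J ∈ P, Fintype.card X ^ n * 8 ^ (4 * k) := Finset.sum_le_sum h2
      _ = P.card * (Fintype.card X ^ n * 8 ^ (4 * k)) := by rw [sum_const, smul_eq_mul]
      _ ≤ _ := Nat.mul_le_mul_right _ hPc
  have e1 : (8 : ℕ) ^ n = 2 ^ n * 4 ^ n := by rw [← mul_pow]; norm_num
  have e2 : (8 : ℕ) ^ (4 * k) = 2 ^ (12 * k) := by
    rw [show (8 : ℕ) = 2 ^ 3 by norm_num, ← pow_mul]
    congr 1
    ring
  rw [e1, e2] at h3
  refine Nat.le_of_mul_le_mul_left (c := 2 ^ n) ?_ (by positivity)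
  calc 2 ^ n * ((univ.filter fun a : Fin n → X => (univ.filter fun i => a i ∉ A).card ≤ 4 * k).card * 4 ^ n)
      = (univ.filter fun a : Fin n → X => (univ.filter fun i => a i ∉ A).card ≤ 4 * k).card *
        (2 ^ n * 4 ^ n) := by ring
    _ ≤ _ := h3

private theorem pt_ij {X : Type} [Fintype X] [DecidableEq X] (m k : ℕ) (Q : Finset (X × X))
    (i : Fin k → Fin (m + 1)) (j : Fin k → Fin m) (hi : Function.Injective i)
    (hj : Function.Injective j) :
    (univ.filter fun ab : (Fin (m + 1) → X) × (Fin m → X) => ∀ l, (ab.1 (i l), ab.2 (j l)) ∈ Q).card *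
      (Fintype.card X ^ 2) ^ k ≤ Q.card ^ k * (Fintype.card X ^ (m + 1) * Fintype.card X ^ m) := by
  obtain ⟨Φ, hΦ⟩ : ∃ Φ : {ab : (Fin (m + 1) → X) × (Fin m → X) // ∀ l, (ab.1 (i l), ab.2 (j l)) ∈ Q} ×
      (Fin k → X × X) → (Fin k → Q) × ((Fin (m + 1) → X) × (Fin m → X)), Φ = fun x =>
      (fun l => ⟨(x.1.1.1 (i l), x.1.1.2 (j l)), x.1.2 l⟩,
        (Function.extend i (fun l => (x.2 l).1) x.1.1.1, Function.extend j (fun l => (x.2 l).2) x.1.1.2)) :=
    ⟨_, rfl⟩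
  have hinj : Function.Injective Φ := by
    rintro ⟨⟨⟨a, b⟩, h⟩, r⟩ ⟨⟨⟨a', b'⟩, h'⟩, r'⟩ he
    rw [hΦ] at he
    simp only [Prod.mk.injEq] at he
    obtain ⟨he1, he2, he3⟩ := he
    have hr : r = r' := by
      funext l
      have h1 := congrFun he2 (i l)
      have h2 := congrFun he3 (j l)
      rw [hi.extend_apply, hi.extend_apply] at h1
      rw [hj.extend_apply, hj.extend_apply] at h2
      exact Prod.ext h1 h2
    have ha : a = a' := by
      funext x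
      by_cases hx : ∃ l, i l = x
      · obtain ⟨l, rfl⟩ := hx
        have h3 := congrArg (fun q : Q => q.1.1) (congrFun he1 l)
        exact h3
      · have h3 := congrFun he2 x
        rw [Function.extend_apply' _ _ _ hx, Function.extend_apply' _ _ _ hx] at h3
        exact h3
    have hb : b = b' := by
      funext x
      by_cases hx : ∃ l, j l = x
      · obtain ⟨l, rfl⟩ := hx
        have h3 := congrArg (fun q : Q => q.1.2) (congrFun he1 l)
        exact h3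
      · have h3 := congrFun he3 x
        rw [Function.extend_apply' _ _ _ hx, Function.extend_apply' _ _ _ hx] at h3
        exact h3
    subst hr ha hb
    rfl
  have h1 := Fintype.card_le_of_injective Φ hinj
  rw [Fintype.card_prod, Fintype.card_prod, Fintype.card_prod, Fintype.card_fun, Fintype.card_fun,
    Fintype.card_fun, Fintype.card_fun, Fintype.card_prod, Fintype.card_subtype, Fintype.card_coe,
    Fintype.card_fin, Fintype.card_fin, Fintype.card_fin] at h1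
  rw [sq]
  exact h1

private theorem pt_Q {X : Type} [Fintype X] [DecidableEq X] [Nonempty X] (m k : ℕ) (Q : Finset (X × X))
    (hQ : 2 * ((m + 1) * m * Q.card) ≤ Fintype.card X ^ 2) :
    (univ.filter fun ab : (Fin (m + 1) → X) × (Fin m → X) => ∃ (i : Fin k → Fin (m + 1))
      (j : Fin k → Fin m), Function.Injective i ∧ Function.Injective j ∧
      ∀ l, (ab.1 (i l), ab.2 (j l)) ∈ Q).card * 2 ^ k ≤
      Fintype.card X ^ (m + 1) * Fintype.card X ^ m := by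
  classical
  obtain ⟨N, hN⟩ : ∃ N : ℕ, N = Fintype.card X := ⟨_, rfl⟩
  have hN0 : 0 < N := by rw [hN]; exact Fintype.card_pos
  obtain ⟨T, hT⟩ : ∃ T : ℕ, T = N ^ (m + 1) * N ^ m := ⟨_, rfl⟩
  obtain ⟨P, hP⟩ : ∃ P : Finset ((Fin k → Fin (m + 1)) × (Fin k → Fin m)), P = univ.filter fun ij =>
      Function.Injective ij.1 ∧ Function.Injective ij.2 := ⟨_, rfl⟩
  have h1 : (univ.filter fun ab : (Fin (m + 1) → X) × (Fin m → X) => ∃ (i : Fin k → Fin (m + 1))
      (j : Fin k → Fin m), Function.Injective i ∧ Function.Injective j ∧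
      ∀ l, (ab.1 (i l), ab.2 (j l)) ∈ Q) ⊆ P.biUnion fun ij =>
      univ.filter fun ab : (Fin (m + 1) → X) × (Fin m → X) => ∀ l, (ab.1 (ij.1 l), ab.2 (ij.2 l)) ∈ Q := by
    intro ab hab
    obtain ⟨_, i, j, hi, hj, h⟩ := mem_filter.1 hab
    rw [mem_biUnion]
    refine ⟨(i, j), ?_, mem_filter.2 ⟨mem_univ _, h⟩⟩
    rw [hP, mem_filter]
    exact ⟨mem_univ _, hi, hj⟩
  have h2 : ∀ ij ∈ P, (univ.filter fun ab : (Fin (m + 1) → X) × (Fin m → X) =>
      ∀ l, (ab.1 (ij.1 l), ab.2 (ij.2 l)) ∈ Q).card * (N ^ 2) ^ k ≤ Q.card ^ k * T := by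
    intro ij hij
    rw [hP, mem_filter] at hij
    rw [hT, hN]
    exact pt_ij m k Q ij.1 ij.2 hij.2.1 hij.2.2
  have hPc : P.card ≤ (m + 1) ^ k * m ^ k := by
    rw [hP]
    refine (card_filter_le _ _).trans (le_of_eq ?_)
    rw [card_univ, Fintype.card_prod, Fintype.card_fun, Fintype.card_fun, Fintype.card_fin,
      Fintype.card_fin, Fintype.card_fin]
  have h3 : (univ.filter fun ab : (Fin (m + 1) → X) × (Fin m → X) => ∃ (i : Fin k → Fin (m + 1))
      (j : Fin k → Fin m), Function.Injective i ∧ Function.Injective j ∧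
      ∀ l, (ab.1 (i l), ab.2 (j l)) ∈ Q).card * (N ^ 2) ^ k ≤ (m + 1) ^ k * m ^ k * (Q.card ^ k * T) := by
    calc _ ≤ (P.biUnion fun ij => univ.filter fun ab : (Fin (m + 1) → X) × (Fin m → X) =>
          ∀ l, (ab.1 (ij.1 l), ab.2 (ij.2 l)) ∈ Q).card * (N ^ 2) ^ k :=
          Nat.mul_le_mul_right _ (card_le_card h1)
      _ ≤ (∑ ij ∈ P, (univ.filter fun ab : (Fin (m + 1) → X) × (Fin m → X) =>
          ∀ l, (ab.1 (ij.1 l), ab.2 (ij.2 l)) ∈ Q).card) * (N ^ 2) ^ k :=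
          Nat.mul_le_mul_right _ card_biUnion_le
      _ = ∑ ij ∈ P, (univ.filter fun ab : (Fin (m + 1) → X) × (Fin m → X) =>
          ∀ l, (ab.1 (ij.1 l), ab.2 (ij.2 l)) ∈ Q).card * (N ^ 2) ^ k := by rw [Finset.sum_mul]
      _ ≤ ∑ _ij ∈ P, Q.card ^ k * T := Finset.sum_le_sum h2
      _ = P.card * (Q.card ^ k * T) := by rw [sum_const, smul_eq_mul]
      _ ≤ _ := Nat.mul_le_mul_right _ hPc
  obtain ⟨B, hB⟩ : ∃ B : ℕ, B = (univ.filter fun ab : (Fin (m + 1) → X) × (Fin m → X) =>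
      ∃ (i : Fin k → Fin (m + 1)) (j : Fin k → Fin m), Function.Injective i ∧ Function.Injective j ∧
      ∀ l, (ab.1 (i l), ab.2 (j l)) ∈ Q).card := ⟨_, rfl⟩
  have hN2 : 0 < (N ^ 2) ^ k := by positivity
  rw [← hN] at hQ
  have h4 : B * 2 ^ k ≤ T := by
    refine Nat.le_of_mul_le_mul_left (c := (N ^ 2) ^ k) ?_ hN2
    calc (N ^ 2) ^ k * (B * 2 ^ k) = (B * (N ^ 2) ^ k) * 2 ^ k := by ring
      _ ≤ ((m + 1) ^ k * m ^ k * (Q.card ^ k * T)) * 2 ^ k := Nat.mul_le_mul_right _ (by rw [hB]; exact h3)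
      _ = (2 * ((m + 1) * m * Q.card)) ^ k * T := by
          rw [mul_pow, mul_pow, mul_pow]
          ring
      _ ≤ (N ^ 2) ^ k * T := Nat.mul_le_mul_right _ (Nat.pow_le_pow_left hQ k)
  rw [← hN, ← hT]
  rw [hB] at h4
  exact h4

theorem exists_points {X : Type} [Fintype X] [DecidableEq X] [Nonempty X] (m k : ℕ)
    (𝓑 : Finset (Finset (X × X))) (𝓒 : Finset (Finset X))
    (hB : ∀ Q ∈ 𝓑, 2 * ((m + 1) * m * Q.card) ≤ Fintype.card X ^ 2) (hk : 2 * 𝓑.card < 2 ^ k)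
    (hC : ∀ A ∈ 𝓒, 8 * A.card ≤ Fintype.card X) (hC2 : 𝓒.card * 2 ^ (12 * k + 1) ≤ 4 ^ (m + 1)) :
    ∃ (a : Fin (m + 1) → X) (b : Fin m → X),
      (∀ Q ∈ 𝓑, ¬ ∃ (i : Fin k → Fin (m + 1)) (j : Fin k → Fin m), Function.Injective i ∧
        Function.Injective j ∧ ∀ l, (a (i l), b (j l)) ∈ Q) ∧
      ∀ A ∈ 𝓒, 4 * k < (Finset.univ.filter fun i => a i ∉ A).card := by
  classical
  by_contra hcon
  push Not at hcon
  obtain ⟨N, hN⟩ : ∃ N : ℕ, N = Fintype.card X := ⟨_, rfl⟩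
  have hN0 : 0 < N := by rw [hN]; exact Fintype.card_pos
  obtain ⟨T, hT⟩ : ∃ T : ℕ, T = N ^ (m + 1) * N ^ m := ⟨_, rfl⟩
  have hT0 : 0 < T := by rw [hT]; positivity
  obtain ⟨B1, hB1⟩ : ∃ B1 : Finset (X × X) → Finset ((Fin (m + 1) → X) × (Fin m → X)), B1 = fun Q =>
      univ.filter fun ab : (Fin (m + 1) → X) × (Fin m → X) => ∃ (i : Fin k → Fin (m + 1))
      (j : Fin k → Fin m), Function.Injective i ∧ Function.Injective j ∧
      ∀ l, (ab.1 (i l), ab.2 (j l)) ∈ Q := ⟨_, rfl⟩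
  obtain ⟨B2, hB2⟩ : ∃ B2 : Finset X → Finset ((Fin (m + 1) → X) × (Fin m → X)), B2 = fun A =>
      (univ.filter fun a : Fin (m + 1) → X => (univ.filter fun i => a i ∉ A).card ≤ 4 * k) ×ˢ univ :=
    ⟨_, rfl⟩
  have hcov : (univ : Finset ((Fin (m + 1) → X) × (Fin m → X))) ⊆ 𝓑.biUnion B1 ∪ 𝓒.biUnion B2 := by
    rintro ⟨a, b⟩ _
    rw [mem_union, mem_biUnion, mem_biUnion]
    by_cases h : ∀ Q ∈ 𝓑, ∀ (i : Fin k → Fin (m + 1)) (j : Fin k → Fin m), Function.Injective i →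
        Function.Injective j → ∃ l, (a (i l), b (j l)) ∉ Q
    · obtain ⟨A, hA, hA2⟩ := hcon a b h
      refine Or.inr ⟨A, hA, ?_⟩
      rw [hB2, mem_product]
      exact ⟨mem_filter.2 ⟨mem_univ _, hA2⟩, mem_univ _⟩
    · push Not at h
      obtain ⟨Q, hQ, i, j, hi, hj, hl⟩ := h
      refine Or.inl ⟨Q, hQ, ?_⟩
      rw [hB1]
      exact mem_filter.2 ⟨mem_univ _, i, j, hi, hj, hl⟩
  have hc := card_le_card hcov
  rw [card_univ, Fintype.card_prod, Fintype.card_fun, Fintype.card_fun, Fintype.card_fin,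
    Fintype.card_fin, ← hN, ← hT] at hc
  have h1 : ∀ Q ∈ 𝓑, (B1 Q).card * 2 ^ k ≤ T := by
    intro Q hQ
    rw [hB1, hT, hN]
    exact pt_Q m k Q (hB Q hQ)
  have h2 : ∀ A ∈ 𝓒, (B2 A).card * 4 ^ (m + 1) ≤ T * 2 ^ (12 * k) := by
    intro A hA
    have h3 := pt_A (m + 1) k A (hC A hA)
    rw [← hN] at h3
    rw [hB2]
    show ((univ.filter fun a : Fin (m + 1) → X => (univ.filter fun i => a i ∉ A).card ≤ 4 * k) ×ˢ
      (univ : Finset (Fin m → X))).card * 4 ^ (m + 1) ≤ T * 2 ^ (12 * k)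
    rw [card_product, card_univ, Fintype.card_fun, Fintype.card_fin, ← hN, hT]
    calc _ = ((univ.filter fun a : Fin (m + 1) → X => (univ.filter fun i => a i ∉ A).card ≤ 4 * k).card *
          4 ^ (m + 1)) * N ^ m := by ring
      _ ≤ (N ^ (m + 1) * 2 ^ (12 * k)) * N ^ m := Nat.mul_le_mul_right _ h3
      _ = _ := by ring
  have h3 : (𝓑.biUnion B1).card * 2 ^ k ≤ 𝓑.card * T := by
    calc (𝓑.biUnion B1).card * 2 ^ k ≤ (∑ Q ∈ 𝓑, (B1 Q).card) * 2 ^ k :=
          Nat.mul_le_mul_right _ card_biUnion_le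
      _ = ∑ Q ∈ 𝓑, (B1 Q).card * 2 ^ k := by rw [Finset.sum_mul]
      _ ≤ ∑ _Q ∈ 𝓑, T := Finset.sum_le_sum h1
      _ = 𝓑.card * T := by rw [sum_const, smul_eq_mul]
  have h4 : (𝓒.biUnion B2).card * 4 ^ (m + 1) ≤ 𝓒.card * (T * 2 ^ (12 * k)) := by
    calc (𝓒.biUnion B2).card * 4 ^ (m + 1) ≤ (∑ A ∈ 𝓒, (B2 A).card) * 4 ^ (m + 1) :=
          Nat.mul_le_mul_right _ card_biUnion_le
      _ = ∑ A ∈ 𝓒, (B2 A).card * 4 ^ (m + 1) := by rw [Finset.sum_mul]
      _ ≤ ∑ _A ∈ 𝓒, T * 2 ^ (12 * k) := Finset.sum_le_sum h2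
      _ = 𝓒.card * (T * 2 ^ (12 * k)) := by rw [sum_const, smul_eq_mul]
  have h5 : 2 * (𝓑.biUnion B1).card < T := by
    refine Nat.lt_of_mul_lt_mul_left (a := 2 ^ k) ?_
    calc 2 ^ k * (2 * (𝓑.biUnion B1).card) = 2 * ((𝓑.biUnion B1).card * 2 ^ k) := by ring
      _ ≤ 2 * (𝓑.card * T) := Nat.mul_le_mul_left _ h3
      _ = (2 * 𝓑.card) * T := by ring
      _ < 2 ^ k * T := Nat.mul_lt_mul_of_pos_right hk hT0
  have h6 : 2 * (𝓒.biUnion B2).card ≤ T := by
    refine Nat.le_of_mul_le_mul_left (c := 4 ^ (m + 1)) ?_ (by positivity)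
    calc 4 ^ (m + 1) * (2 * (𝓒.biUnion B2).card) = 2 * ((𝓒.biUnion B2).card * 4 ^ (m + 1)) := by ring
      _ ≤ 2 * (𝓒.card * (T * 2 ^ (12 * k))) := Nat.mul_le_mul_left _ h4
      _ = (𝓒.card * 2 ^ (12 * k + 1)) * T := by rw [pow_succ]; ring
      _ ≤ 4 ^ (m + 1) * T := Nat.mul_le_mul_right _ hC2
  have h7 := card_union_le (𝓑.biUnion B1) (𝓒.biUnion B2)
  omega

end Pool.Agent.H6.AC
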