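import Pool.Agent.H6.AC.Gad2
import Pool.Agent.H6.AC.Wd0
import Pool.Agent.H6.AC.Cut
import Pool.Agent.H6.AC.Hit
import Pool.Agent.H6.AC.Pts
import Pool.Agent.H6.AC.Cov

/-!
# Worlds at matchings: existence

PROOF. `grid_gad2` gives `g`, `c` and for `w` the `Zs`, `W0`. For `U`, `U'` in `UU` let `A U U'` be the set of
`big_cut` for `Zs U ∪ Zs U'`. `exists_points` for `X` = the box, the family of the `hits L (Zs U)` (as finite sets
of pairs in `X`) and the family of the `A U U'` gives the points `a i`, `b j`. `exists_cover` for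
`{(i, j) | (a i, b j) ∈ hits L (Zs U)}` gives `sp U`. For a set `α` of pairs let
`Φ α z := ∑ i, pth z 0 (a i) - ∑ j, pth z 0 (b j) + ∑ q ∈ α, pth z (a q.1) (b q.2)` (additive in `z`) and
`W U α := W0 U (Φ α)`. COHERENCE (`α ⊆ α'`, `PM α'`, `sp U ⊆ dm α`, `sp U' ⊆ dm α'`): (i) for `z` supported in `Zs U`:
`Φ α z = Φ α' z`: a pair `(i, j) ∈ α' \ α` with `pth z (a i) (b j) ≠ 0` is hit, so `i` or `j` is in `sp U ⊆ dm α`, it has a
partner in `α`, which is its partner in `α'`: contradiction. (ii) for small `f` with cut in `Zs U ∪ Zs U'`: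
`pth_cob` gives `Φ α' (cob L f) = f 0 - ∑ (i not matched) f (a i) + ∑ (j not matched) f (b j)`. CLAIM: `f` is zero at
the unmatched points. Let `Y := sp U ∪ sp U' ⊆ dm α'`, `|Y| ≤ 4 k`. For `i, j` with `inl i ∉ Y`, `inr j ∉ Y`: the pair is
not hit by `Zs U`, `Zs U'`, so `f (a i) - f (b j) = pth (cob L f) (a i) (b j) = 0` (write `cob L f = z + z'` with `z`
supported in `Zs U`, `z'` in `Zs U'`). More than `4 k` pigeons `i` have `a i ∉ A U U'`, i.e. `f (a i) = 0`; one of them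
has `inl i ∉ Y`. So `f (b j) = 0` for all `j` with `inr j ∉ Y`; there is such a `j` (`4 k < m`), so `f (a i) = 0` for
all `i` with `inl i ∉ Y`.
-/

set_option autoImplicit false
set_option linter.unusedSectionVars false

namespace Pool.Agent.H6.AC

open Pool.Agent.H42.CS (Pt Ed Sq un inB isE isS mix btw Slot off ed sq)
open Pool.Agent.H79.CQ (nm Sup dl cob sg ye tau Gad Wd pth)

variable {p : ℕ} [hp : Fact p.Prime]

private theorem wda_phi_add {d m : ℕ} (a : Fin (m + 1) → Pt d) (b : Fin m → Pt d)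
    (α : Finset (Fin (m + 1) × Fin m)) (z z' : Ed d → ZMod p) :
    (∑ i, pth (z + z') 0 (a i) - ∑ j, pth (z + z') 0 (b j) +
      ∑ q ∈ α, pth (z + z') (a q.1) (b q.2)) =
    (∑ i, pth z 0 (a i) - ∑ j, pth z 0 (b j) + ∑ q ∈ α, pth z (a q.1) (b q.2)) +
    (∑ i, pth z' 0 (a i) - ∑ j, pth z' 0 (b j) + ∑ q ∈ α, pth z' (a q.1) (b q.2)) := by
  have h : ∀ P x : Pt d, pth (z + z') P x = pth z P x + pth z' P x := by
    intro P x
    unfold pth
    rw [← Finset.sum_add_distrib]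
    refine Finset.sum_congr rfl fun b _ => ?_
    rw [← mul_add, ← Finset.sum_add_distrib]
    rfl
  simp only [h, Finset.sum_add_distrib]
  ring

private theorem wda_sum_fst {m : ℕ} {α : Finset (Fin (m + 1) × Fin m)}
    (hα : Pool.Agent.H63.YL.PM α) (u : Fin (m + 1) → ZMod p)
    (hu : ∀ i, Sum.inl i ∉ Pool.Agent.H63.YL.dm α → u i = 0) :
    ∑ i, u i = ∑ q ∈ α, u q.1 := by
  classical
  rw [← Finset.sum_image (f := u) (g := fun q : Fin (m + 1) × Fin m => q.1) (s := α)]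
  · symm
    refine Finset.sum_subset (Finset.subset_univ _) fun i _ hi => hu i fun h => hi ?_
    obtain ⟨q, hq, hT⟩ := Pool.Agent.H63.YL.mem_dm.1 h
    rcases hT with hT | hT
    · exact Finset.mem_image.2 ⟨q, hq, Sum.inl.inj hT⟩
    · exact absurd hT Sum.inr_ne_inl
  · intro q hq q' hq' h
    exact Prod.ext h ((hα q hq q' hq').1 h)

private theorem wda_sum_snd {m : ℕ} {α : Finset (Fin (m + 1) × Fin m)}
    (hα : Pool.Agent.H63.YL.PM α) (u : Fin m → ZMod p)
    (hu : ∀ j, Sum.inr j ∉ Pool.Agent.H63.YL.dm α → u j = 0) :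
    ∑ j, u j = ∑ q ∈ α, u q.2 := by
  classical
  rw [← Finset.sum_image (f := u) (g := fun q : Fin (m + 1) × Fin m => q.2) (s := α)]
  · symm
    refine Finset.sum_subset (Finset.subset_univ _) fun i _ hi => hu i fun h => hi ?_
    obtain ⟨q, hq, hT⟩ := Pool.Agent.H63.YL.mem_dm.1 h
    rcases hT with hT | hT
    · exact absurd hT Sum.inl_ne_inr
    · exact Finset.mem_image.2 ⟨q, hq, Sum.inr.inj hT⟩
  · intro q hq q' hq' h
    exact Prod.ext ((hα q hq q' hq').2 h) h

/-- The coherence on the chains supported in a covered set. -/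
private theorem wda_coh1 {d m : ℕ} (L : ℕ) (a : Fin (m + 1) → Pt d) (b : Fin m → Pt d)
    (ha : ∀ i, inB L (a i)) (hb : ∀ j, inB L (b j)) (Z : Set (Ed d))
    (Y : Finset (Fin (m + 1) ⊕ Fin m))
    (hY : ∀ i j, (a i, b j) ∈ hits L Z → Sum.inl i ∈ Y ∨ Sum.inr j ∈ Y)
    {α α' : Finset (Fin (m + 1) × Fin m)} (hα' : Pool.Agent.H63.YL.PM α') (hs : α ⊆ α')
    (hYd : Y ⊆ Pool.Agent.H63.YL.dm α) (z : Ed d → ZMod p) (hz : ∀ e, z e ≠ 0 → e ∈ Z) :
    ∑ q ∈ α, pth z (a q.1) (b q.2) = ∑ q ∈ α', pth z (a q.1) (b q.2) := by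
  refine Finset.sum_subset hs fun q hq' hq => ?_
  by_contra hne
  have h1 := hY q.1 q.2 (pth_hits L Z z hz (ha _) (hb _) hne)
  rcases h1 with h1 | h1
  · obtain ⟨r, hr, hT⟩ := Pool.Agent.H63.YL.mem_dm.1 (hYd h1)
    rcases hT with hT | hT
    · have h2 : r.1 = q.1 := Sum.inl.inj hT
      have h3 := (hα' r (hs hr) q hq').1 h2
      exact hq ((Prod.ext h2 h3 : r = q) ▸ hr)
    · exact absurd hT Sum.inr_ne_inl
  · obtain ⟨r, hr, hT⟩ := Pool.Agent.H63.YL.mem_dm.1 (hYd h1)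
    rcases hT with hT | hT
    · exact absurd hT Sum.inl_ne_inr
    · have h2 : r.2 = q.2 := Sum.inr.inj hT
      have h3 := (hα' r (hs hr) q hq').2 h2
      exact hq ((Prod.ext h3 h2 : r = q) ▸ hr)

/-- The values of a small function with a covered cut at the points outside the cover are zero. -/
private theorem wda_zero {d m k : ℕ} (L : ℕ) (a : Fin (m + 1) → Pt d) (b : Fin m → Pt d)
    (ha : ∀ i, inB L (a i)) (hb : ∀ j, inB L (b j)) (Z : Set (Ed d))
    (Y : Finset (Fin (m + 1) ⊕ Fin m)) (hYc : Y.card ≤ 4 * k) (hkm : 4 * k < m)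
    (hY : ∀ i j, (a i, b j) ∈ hits L Z → Sum.inl i ∈ Y ∨ Sum.inr j ∈ Y)
    (f : Pt d → ZMod p) (hf : ∀ e, cob L f e ≠ 0 → e ∈ Z)
    (S : Finset (Fin (m + 1))) (hS : 4 * k < S.card) (hS0 : ∀ i ∈ S, f (a i) = 0) :
    (∀ i, Sum.inl i ∉ Y → f (a i) = 0) ∧ (∀ j, Sum.inr j ∉ Y → f (b j) = 0) := by
  classical
  have h1 : ∀ i j, Sum.inl i ∉ Y → Sum.inr j ∉ Y → f (a i) = f (b j) := by
    intro i j hi hj
    rw [← sub_eq_zero, ← Pool.Agent.H79.CQ.pth_cob L f (a i) (b j) (ha i) (hb j)]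
    by_contra hne
    rcases hY i j (pth_hits L Z (cob L f) hf (ha _) (hb _) hne) with h | h
    · exact hi h
    · exact hj h
  obtain ⟨i0, hi0, hi0Y⟩ : ∃ i ∈ S, Sum.inl i ∉ Y := by
    by_contra hcon
    push Not at hcon
    have h2 : S.card ≤ Y.card := by
      refine Finset.card_le_card_of_injOn (fun i => Sum.inl i) (fun i hi => hcon i hi) ?_
      intro x _ y _ hxy
      exact Sum.inl.inj hxy
    omega
  obtain ⟨j0, hj0⟩ : ∃ j : Fin m, Sum.inr j ∉ Y := by
    by_contra hcon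
    push Not at hcon
    have h2 : (Finset.univ : Finset (Fin m)).card ≤ Y.card := by
      refine Finset.card_le_card_of_injOn (fun j => Sum.inr j) (fun j _ => hcon j) ?_
      intro x _ y _ hxy
      exact Sum.inr.inj hxy
    rw [Finset.card_univ, Fintype.card_fin] at h2
    omega
  have h3 : ∀ j, Sum.inr j ∉ Y → f (b j) = 0 := fun j hj => by
    rw [← h1 i0 j hi0Y hj]
    exact hS0 i0 hi0
  exact ⟨fun i hi => by rw [h1 i j0 hi hj0, h3 j0 hj0], h3⟩

/-- The value of `Φ` on a coboundary. -/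
private theorem wda_phi_cob {d m : ℕ} (L : ℕ) (h0 : inB L (0 : Pt d)) (a : Fin (m + 1) → Pt d)
    (b : Fin m → Pt d) (ha : ∀ i, inB L (a i)) (hb : ∀ j, inB L (b j)) (f : Pt d → ZMod p)
    {α : Finset (Fin (m + 1) × Fin m)} (hα : Pool.Agent.H63.YL.PM α)
    (h1 : ∀ i, Sum.inl i ∉ Pool.Agent.H63.YL.dm α → f (a i) = 0)
    (h2 : ∀ j, Sum.inr j ∉ Pool.Agent.H63.YL.dm α → f (b j) = 0) :
    (∑ i, pth (cob L f) 0 (a i) - ∑ j, pth (cob L f) 0 (b j) +
      ∑ q ∈ α, pth (cob L f) (a q.1) (b q.2)) = f 0 := by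
  have e1 : ∑ i, pth (cob L f) 0 (a i) = ((m : ZMod p) + 1) * f 0 - ∑ i, f (a i) := by
    rw [Finset.sum_congr rfl fun i _ => Pool.Agent.H79.CQ.pth_cob L f 0 (a i) h0 (ha i),
      Finset.sum_sub_distrib, Finset.sum_const, Finset.card_univ, Fintype.card_fin, nsmul_eq_mul]
    push_cast
    ring
  have e2 : ∑ j, pth (cob L f) 0 (b j) = (m : ZMod p) * f 0 - ∑ j, f (b j) := by
    rw [Finset.sum_congr rfl fun j _ => Pool.Agent.H79.CQ.pth_cob L f 0 (b j) h0 (hb j),
      Finset.sum_sub_distrib, Finset.sum_const, Finset.card_univ, Fintype.card_fin, nsmul_eq_mul]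
  have e3 : ∑ q ∈ α, pth (cob L f) (a q.1) (b q.2) = ∑ q ∈ α, f (a q.1) - ∑ q ∈ α, f (b q.2) := by
    rw [Finset.sum_congr rfl fun q _ =>
      Pool.Agent.H79.CQ.pth_cob L f (a q.1) (b q.2) (ha _) (hb _), Finset.sum_sub_distrib]
  rw [e1, e2, e3, wda_sum_fst hα (fun i => f (a i)) h1, wda_sum_snd hα (fun j => f (b j)) h2]
  ring

theorem grid_wd {d : ℕ} {K : Type} [Fintype K] (hd : 3 ≤ d) (L : ℕ) (hL : 100 * d ≤ L)
    (j : Sq d → K) (hj : Set.InjOn j {s | isS L s}) :
    ∃ (g : Gad p K) (c : Ed d → ZMod p), g.w = L ^ (d - 2) / 100 ∧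
      (∀ y ∈ g.D, ∀ k, y k ≠ 0 → ∃ s, isS L s ∧ j s = k) ∧
      (∀ e, isE L e → ye p L j e ∈ g.D) ∧
      (∀ (U : Submodule (ZMod p) (K → ZMod p)) (f : Wd p K), g.Tame U → g.IsW U f →
        ∀ x : Pt d, inB L x → (∀ σ : Slot d, isE L (ed x σ) → ye p L j (ed x σ) ∈ U) →
          (open Classical in (∑ σ : Slot d, if isE L (ed x σ) then
            tau p σ * (f (ye p L j (ed x σ)) + c (ed x σ)) else 0) = if x = 0 then 1 else 0)) ∧
      ∀ (w m k : ℕ) (UU : Set (Submodule (ZMod p) (K → ZMod p))),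
        (∀ U ∈ UU, ∀ y ∈ U, y ∈ g.D → nm y ≤ w) → 100 * w ≤ L ^ (d - 2) →
        4 * (w * ((m + 1) * m)) ≤ L ^ (d - 2) → 2 * UU.ncard < 2 ^ k →
        UU.ncard ^ 2 * 2 ^ (12 * k + 1) ≤ 4 ^ (m + 1) → 4 * k < m →
        Nonempty (WD g UU m (2 * k)) := by
  classical
  obtain ⟨g, c, h1, h2, h3, h4, h5⟩ := grid_gad2 (p := p) hd L hL j hj
  refine ⟨g, c, h1, h2, h3, h4, ?_⟩
  intro w m k UU hUU hw hw2 hk hC hkm
  obtain ⟨Zs, W0, hW⟩ := h5 w hw
  have hL1 : 1 ≤ L := by omega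
  have hfin := (Pool.Agent.H42.CS.box_fin (d := d) L).1
  have hcard := (Pool.Agent.H42.CS.box_fin (d := d) L).2
  have h0B : inB L (0 : Pt d) := fun i => ⟨le_refl _, by
    change (0 : ℤ) < L
    exact_mod_cast hL1⟩
  have hUf : UU.Finite := Set.toFinite UU
  obtain ⟨V, hV⟩ : ∃ V : Finset (Submodule (ZMod p) (K → ZMod p)), V = hUf.toFinset := ⟨_, rfl⟩
  have hVm : ∀ U, U ∈ V ↔ U ∈ UU := fun U => by rw [hV, Set.Finite.mem_toFinset]
  have hVc : V.card = UU.ncard := by rw [hV, Set.ncard_eq_toFinset_card UU hUf]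
  let X : Type := {x : Pt d // inB L x}
  haveI : Fintype X := hfin.fintype
  haveI : Nonempty X := ⟨⟨0, h0B⟩⟩
  have hXc : Fintype.card X = L ^ d := by
    rw [← hcard, ← Nat.card_eq_fintype_card]
    rfl
  -- the cuts
  have hpd : L ^ (d - 1) = L ^ (d - 2) * L := by
    rw [← pow_succ]
    congr 1
    omega
  have hAex : ∀ U U', ∃ A : Set (Pt d), U ∈ UU → U' ∈ UU →
      8 * {x | inB L x ∧ x ∈ A}.ncard < L ^ d ∧
      ∀ f : Pt d → ZMod p, 8 * {x | inB L x ∧ f x ≠ 0}.ncard < L ^ d →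
        (∀ e, cob L f e ≠ 0 → e ∈ ((Zs U ∪ Zs U' : Finset (Ed d)) : Set (Ed d))) →
          ∀ x, inB L x → f x ≠ 0 → x ∈ A := by
    intro U U'
    by_cases hU : U ∈ UU
    · by_cases hU' : U' ∈ UU
      · have hc1 := (hW U (hUU U hU)).1
        have hc2 := (hW U' (hUU U' hU')).1
        have hc3 := Finset.card_union_le (Zs U) (Zs U')
        have hc4 : 0 < L ^ (d - 1) := by positivity
        have hc5 : 100 * w * L ≤ L ^ (d - 1) := by
          rw [hpd]
          exact Nat.mul_le_mul_right _ hw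
        obtain ⟨A, hA⟩ := big_cut p (by omega) L hL1
          ((Zs U ∪ Zs U' : Finset (Ed d)) : Set (Ed d)) (by
            rw [Set.ncard_coe_finset]
            have e1 : 2 * w * L = 2 * (w * L) := by ring
            have e2 : 100 * w * L = 100 * (w * L) := by ring
            rw [e1] at hc1 hc2
            rw [e2] at hc5
            omega) (Finset.finite_toSet _)
        exact ⟨A, fun _ _ => hA⟩
      · exact ⟨∅, fun _ h => absurd h hU'⟩
    · exact ⟨∅, fun h => absurd h hU⟩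
  choose A hA using hAex
  obtain ⟨QB, hQB⟩ : ∃ QB : Submodule (ZMod p) (K → ZMod p) → Finset (X × X), ∀ U, QB U =
      Finset.univ.filter fun q : X × X => (q.1.1, q.2.1) ∈ hits L (Zs U : Set (Ed d)) :=
    ⟨_, fun _ => rfl⟩
  obtain ⟨QC, hQC⟩ : ∃ QC : Submodule (ZMod p) (K → ZMod p) × Submodule (ZMod p) (K → ZMod p) →
      Finset X, ∀ u, QC u = Finset.univ.filter fun x : X => x.1 ∈ A u.1 u.2 :=
    ⟨_, fun _ => rfl⟩
  obtain ⟨a, b, hab1, hab2⟩ := exists_points (X := X) m k (V.image QB) ((V ×ˢ V).image QC) (by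
      intro Q hQ
      obtain ⟨U, hU, rfl⟩ := Finset.mem_image.1 hQ
      rw [hVm] at hU
      have hc1 := (hW U (hUU U hU)).1
      have hc2 := hits_card L (Zs U : Set (Ed d)) (Finset.finite_toSet _)
      rw [Set.ncard_coe_finset] at hc2
      have hc3 : (QB U).card ≤ (hits L (Zs U : Set (Ed d))).ncard := by
        rw [← Set.ncard_coe_finset]
        refine Set.ncard_le_ncard_of_injOn (fun q : X × X => (q.1.1, q.2.1)) ?_ ?_ ?_
        · intro q hq
          rw [hQB] at hq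
          exact (Finset.mem_filter.1 (Finset.mem_coe.1 hq)).2
        · intro q _ q' _ h
          exact Prod.ext (Subtype.ext (congrArg Prod.fst h)) (Subtype.ext (congrArg Prod.snd h))
        · exact (hfin.prod hfin).subset fun q hq => ⟨hq.1, hq.2.1⟩
      rw [hXc]
      calc 2 * ((m + 1) * m * (QB U).card)
          ≤ 2 * ((m + 1) * m * (2 * w * L * L ^ (d + 1))) := by
            refine Nat.mul_le_mul_left _ (Nat.mul_le_mul_left _ ?_)
            exact (hc3.trans hc2).trans (Nat.mul_le_mul_right _ hc1)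
        _ = 4 * (w * ((m + 1) * m)) * L ^ (d + 2) := by ring
        _ ≤ L ^ (d - 2) * L ^ (d + 2) := Nat.mul_le_mul_right _ hw2
        _ = (L ^ d) ^ 2 := by
            rw [← pow_add, ← pow_mul]
            congr 1
            omega) (by
      have := Finset.card_image_le (s := V) (f := QB)
      omega) (by
      intro Q hQ
      obtain ⟨u, hu, rfl⟩ := Finset.mem_image.1 hQ
      obtain ⟨hu1, hu2⟩ := Finset.mem_product.1 hu
      rw [hVm] at hu1 hu2
      have hc := (hA u.1 u.2 hu1 hu2).1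
      have hc3 : (QC u).card ≤ {x | inB L x ∧ x ∈ A u.1 u.2}.ncard := by
        rw [← Set.ncard_coe_finset]
        refine Set.ncard_le_ncard_of_injOn (fun x : X => x.1) ?_ ?_ ?_
        · intro x hx
          rw [hQC] at hx
          exact ⟨x.2, (Finset.mem_filter.1 (Finset.mem_coe.1 hx)).2⟩
        · intro x _ x' _ h
          exact Subtype.ext h
        · exact hfin.subset fun x hx => hx.1
      rw [hXc]
      omega) (by
      have h6 : ((V ×ˢ V).image QC).card ≤ UU.ncard ^ 2 := by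
        refine Finset.card_image_le.trans ?_
        rw [Finset.card_product, hVc, pow_two]
      exact (Nat.mul_le_mul_right _ h6).trans hC)
  have hspex : ∀ U, ∃ Y : Finset (Fin (m + 1) ⊕ Fin m), U ∈ UU → (Y.card ≤ 2 * k ∧
      ∀ i j, ((a i).1, (b j).1) ∈ hits L (Zs U : Set (Ed d)) → Sum.inl i ∈ Y ∨ Sum.inr j ∈ Y) := by
    intro U
    by_cases hU : U ∈ UU
    · obtain ⟨Y, hY1, hY2⟩ := exists_cover
        {q : Fin (m + 1) × Fin m | ((a q.1).1, (b q.2).1) ∈ hits L (Zs U : Set (Ed d))} k (by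
          rintro ⟨i, j, hi, hj, hl⟩
          refine hab1 (QB U) (Finset.mem_image_of_mem _ ((hVm U).2 hU)) ⟨i, j, hi, hj, fun l => ?_⟩
          rw [hQB]
          exact Finset.mem_filter.2 ⟨Finset.mem_univ _, hl l⟩)
      exact ⟨Y, fun _ => ⟨hY1, fun i j h => hY2 i j h⟩⟩
    · exact ⟨∅, fun h => absurd h hU⟩
  choose sp hsp using hspex
  have haB : ∀ i, inB L (a i).1 := fun i => (a i).2
  have hbB : ∀ i, inB L (b i).1 := fun i => (b i).2
  refine ⟨⟨fun U α => W0 U (fun z => ∑ i, pth z 0 (a i).1 - ∑ j, pth z 0 (b j).1 +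
      ∑ q ∈ α, pth z (a q.1).1 (b q.2).1), sp, fun U hU => (hsp U hU).1, ?_, ?_⟩⟩
  · intro U hU α _
    exact (hW U (hUU U hU)).2.1 _ fun z z' =>
      wda_phi_add (fun i => (a i).1) (fun j => (b j).1) α z z'
  · intro U hU U' hU' hUle α α' hα' hs hd1 hd2
    refine (hW U (hUU U hU)).2.2 U' (hUU U' hU') hUle _ _
      (fun z z' => wda_phi_add (fun i => (a i).1) (fun j => (b j).1) α z z')
      (fun z z' => wda_phi_add (fun i => (a i).1) (fun j => (b j).1) α' z z') ?_ ?_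
    · intro z hz
      have h6 := wda_coh1 L (fun i => (a i).1) (fun j => (b j).1) haB hbB (Zs U : Set (Ed d))
        (sp U) (hsp U hU).2 hα' hs hd1 z (fun e he => Finset.mem_coe.2 (hz e he))
      exact congrArg _ h6
    · intro f hf hcut
      have hcut' : ∀ e, cob L f e ≠ 0 → e ∈ ((Zs U ∪ Zs U' : Finset (Ed d)) : Set (Ed d)) :=
        fun e he => Finset.mem_coe.2 (Finset.mem_union.2 (hcut e he))
      have h7 := wda_zero (k := k) L (fun i => (a i).1) (fun j => (b j).1) haB hbB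
        ((Zs U ∪ Zs U' : Finset (Ed d)) : Set (Ed d)) (sp U ∪ sp U') (by
          have h8 := Finset.card_union_le (sp U) (sp U')
          have h9 := (hsp U hU).1
          have h10 := (hsp U' hU').1
          omega) hkm (by
          rintro i j ⟨hi, hj, c, t, ht, hZ⟩
          rcases Finset.mem_union.1 (Finset.mem_coe.1 hZ) with hZ | hZ
          · rcases (hsp U hU).2 i j ⟨hi, hj, c, t, ht, Finset.mem_coe.2 hZ⟩ with h | h
            · exact Or.inl (Finset.mem_union_left _ h)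
            · exact Or.inr (Finset.mem_union_left _ h)
          · rcases (hsp U' hU').2 i j ⟨hi, hj, c, t, ht, Finset.mem_coe.2 hZ⟩ with h | h
            · exact Or.inl (Finset.mem_union_right _ h)
            · exact Or.inr (Finset.mem_union_right _ h)) f hcut'
        (Finset.univ.filter fun i => a i ∉ QC (U, U'))
        (hab2 _ (Finset.mem_image_of_mem _ (Finset.mem_product.2 ⟨(hVm U).2 hU, (hVm U').2 hU'⟩)))
        (by
          intro i hi
          have h8 := (Finset.mem_filter.1 hi).2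
          by_contra hne
          apply h8
          rw [hQC]
          exact Finset.mem_filter.2 ⟨Finset.mem_univ _,
            (hA U U' hU hU').2 f hf hcut' _ (haB i) hne⟩)
      have hdm : sp U ∪ sp U' ⊆ Pool.Agent.H63.YL.dm α' := by
        intro x hx
        rcases Finset.mem_union.1 hx with hx | hx
        · obtain ⟨q, hq, hT⟩ := Pool.Agent.H63.YL.mem_dm.1 (hd1 hx)
          exact Pool.Agent.H63.YL.mem_dm.2 ⟨q, hs hq, hT⟩
        · exact hd2 hx
      exact wda_phi_cob L h0B (fun i => (a i).1) (fun j => (b j).1) haB hbB f hα'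
        (fun i hi => h7.1 i fun h => hi (hdm h)) (fun j hj => h7.2 j fun h => hj (hdm h))

end Pool.Agent.H6.AC
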