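import Pool.Agent.H6.AC.Ls2
import Pool.Agent.H6.AC.Wda
import Pool.Agent.H6.AC.Cnu
import Pool.Agent.H63.TC.Kon
import Pool.Agent.H6.AC.Var
import Pool.Agent.H79.CQ.Low

/-!
# The core of the lower bound, with spaces

`core2`: a refutation of `T d` in the calculus of `H63/AC/Defs` whose lines have members built in depth `dd` from
variables and nodes in `A0`, each of which is fixed by its own group with at most `B` annihilating vectors, and
numbers `t`, `m`, `L` with the inequalities stated, give a contradiction.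
-/

set_option autoImplicit false
set_option linter.unusedSectionVars false

namespace Pool.Agent.H6.AC

open Pool.Agent.H63.YL (PM dm)
open Pool.Agent.H42.CS (Pt Ed Sq un inB isE isS Slot off ed sq Ax Atom Gate Circuit isS_fin
  exists_placing)
open Pool.Agent.H79.CQ (Gad Wd Cells Dat Re T k8 csp Vs Vs_anti Vs_top random_cells T_ins nm)
open Pool.Agent.H16.LE (Eng Img stN stL)

theorem stL_empty {Rel : ℕ → Type} {P G : Type} [Group G] (C : Circuit Rel P)
    (ρ : G →* Equiv.Perm P) {X : Set (H42.CS.Lit C.N)} (h : X = ∅) : stL C ρ X = ⊤ := by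
  subst h
  rw [Subgroup.eq_top_iff']
  intro g
  exact ⟨fun x hx => absurd hx (Set.notMem_empty x), fun x hx => absurd hx (Set.notMem_empty x)⟩

variable {p : ℕ} [hp : Fact p.Prime]

theorem core2 {P : Type} [Finite P] {d r L : ℕ} (hd : 3 ≤ d) (hL : 100 * d ≤ L)
    (hr : L ^ d * (1 + 2 * d ^ 2) ≤ r) (M : Cells p P r) (R : H63.AC.Refutation (T d) P)
    (A0 : Set R.C.N) (I dd t m : ℕ)
    (hA : ∀ a ∈ A0, ∃ H : Subgroup M.H, Nat.card (Vs M.pr H) ≤ I ∧
      ∀ g ∈ H, Img R.C (g : Equiv.Perm P) a a)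
    (hR : ∀ Λ ∈ R.lines, ∀ x ∈ Λ, BltN R.C (A0 ∪ {a | ∃ v, R.C.gate a = .var v}) dd x.node)
    (hI1 : 1 ≤ I) (ht : 1 ≤ t)
    (hI : I * R.size ≤ 2 ^ t) (hk : (2 * (r + 1)) ^ k8 d ≤ 2 ^ t)
    (hm : (cc (dd + 1) 4 * (8 * t)) ^ cc (dd + 1) 4 ≤ m)
    (hL2 : 200 * t * ((m + 1) * m) ≤ L ^ (d - 2)) : False := by
  classical
  have hfP : Finite (Equiv.Perm P) := inferInstance
  have hfG : Finite M.H := inferInstance
  have hNF : Finite R.C.N := R.C.fin
  have hLF : Finite (H42.CS.Lit R.C.N) := by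
    refine Finite.of_injective (fun x : H42.CS.Lit R.C.N => (x.node, x.pos)) ?_
    intro x y hxy
    exact H42.CS.Lit.ext (congrArg Prod.fst hxy) (congrArg Prod.snd hxy)
  have hlfin : R.lines.Finite := Set.toFinite _
  have hLpos : 0 < L := by omega
  have hsz : Nat.card R.C.N + R.lines.ncard ≤ I * R.size := by
    have h1 : R.size ≤ I * R.size := Nat.le_mul_of_pos_left _ hI1
    exact h1
  -- numbers
  have hk8 : k8 d ≤ t := by
    have h1 : 2 ^ k8 d ≤ 2 ^ t := (Nat.pow_le_pow_left (by omega) _).trans hk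
    exact (Nat.pow_le_pow_iff_right (by norm_num)).1 h1
  have hk8' : 1 ≤ k8 d := by
    have : Nonempty (Sym2 (Slot d)) := ⟨s((⟨0, by omega⟩, true), (⟨0, by omega⟩, true))⟩
    exact Fintype.card_pos
  have hrt : r + 1 ≤ 2 ^ t := by
    have h1 : 2 * (r + 1) ≤ (2 * (r + 1)) ^ k8 d := Nat.le_self_pow (by omega) _
    omega
  have hrk : (r + 1) ^ k8 d ≤ 2 ^ t := le_trans (Nat.pow_le_pow_left (by omega) _) hk
  have hcc : 100 ≤ cc (dd + 1) 4 := by
    have h1 : 0 < 256 ^ (dd + 1) := by positivity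
    show 100 ≤ (4 + 1) * 256 ^ (dd + 1 + 1)
    rw [pow_succ]
    omega
  have hmt : 800 * t ≤ m := by
    have h1 : cc (dd + 1) 4 * (8 * t) ≤ (cc (dd + 1) 4 * (8 * t)) ^ cc (dd + 1) 4 :=
      Nat.le_self_pow (by omega) _
    have h2 : 100 * (8 * t) ≤ cc (dd + 1) 4 * (8 * t) := Nat.mul_le_mul_right _ hcc
    omega
  have hmL : m ≤ L ^ (d - 2) := by
    have h1 : 1 * (1 * m) ≤ 200 * t * ((m + 1) * m) :=
      Nat.mul_le_mul (by omega) (Nat.mul_le_mul_right _ (by omega))
    omega
  have hmr : m ≤ r := by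
    refine hmL.trans (le_trans ?_ hr)
    calc L ^ (d - 2) = L ^ (d - 2) * 1 := (mul_one _).symm
      _ ≤ L ^ d * (1 + 2 * d ^ 2) :=
        Nat.mul_le_mul (Nat.pow_le_pow_right hLpos (by omega)) (by omega)
  have h5000 : 5000 * t ≤ L ^ (d - 2) := by
    refine le_trans ?_ hL2
    have h1 : 25 ≤ (m + 1) * m := by nlinarith
    calc 5000 * t = 200 * t * 25 := by ring
      _ ≤ 200 * t * ((m + 1) * m) := Nat.mul_le_mul_left _ h1
  -- the small nodes and lines
  have hIN : I * Nat.card R.C.N ≤ 2 ^ t :=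
    le_trans (Nat.mul_le_mul_left _ (Nat.le_add_right _ _)) hI
  have hcard : ∀ a : R.C.N, Nat.card (Vs M.pr (stN (rstC R.C A0) M.H.subtype a)) ≤ 2 ^ t :=
    fun a => (H63.TC.cone_card (C := R.C) (A := A0) M.H.subtype M.pr_mul M.pr_onto hI1 hA a).trans hIN
  have hline := small_lines2 (C := R.C) (dd := dd) (T := T d) A0
    (Pr := fun Λ => {Δ | Δ ∈ R.lines ∧ R.order Δ < R.order Λ}) R.lines hR R.step
  choose φ hφ hφ2 using hline
  -- the spaces
  let Sp : Set (Submodule (ZMod p) (Fin r → ZMod p)) :=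
    Set.range (fun a => Vs M.pr (stN (rstC R.C A0) M.H.subtype a)) ∪
      ((fun Λ => Vs M.pr (stL (rstC R.C A0) M.H.subtype (φ Λ))) '' R.lines)
  let fam : Set (Submodule (ZMod p) (Fin r → ZMod p)) :=
    Sp ∪ {A | ∃ s : Finset (Fin r), s.card ≤ k8 d ∧ A = csp p s}
  have hSpdef : Sp = Set.range (fun a => Vs M.pr (stN (rstC R.C A0) M.H.subtype a)) ∪
      ((fun Λ => Vs M.pr (stL (rstC R.C A0) M.H.subtype (φ Λ))) '' R.lines) := rfl
  have hSp_card : Sp.ncard ≤ 2 ^ t := by
    rw [hSpdef]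
    have h2 := Set.ncard_union_le (Set.range (fun a => Vs M.pr (stN (rstC R.C A0) M.H.subtype a)))
      ((fun Λ => Vs M.pr (stL (rstC R.C A0) M.H.subtype (φ Λ))) '' R.lines)
    have h3 : (Set.range (fun a => Vs M.pr (stN (rstC R.C A0) M.H.subtype a))).ncard ≤
        Nat.card R.C.N := by
      have hNF' : Finite (rstC R.C A0).N := hNF
      rw [← Set.image_univ]
      refine le_trans (Set.ncard_image_le (Set.toFinite _)) ?_
      rw [Set.ncard_univ]
      exact le_rfl
    have h4 : ((fun Λ => Vs M.pr (stL (rstC R.C A0) M.H.subtype (φ Λ))) '' R.lines).ncard ≤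
        R.lines.ncard := Set.ncard_image_le hlfin
    omega
  have hSp_le : ∀ A ∈ Sp, Nat.card A ≤ 2 ^ t := by
    intro A hA
    rcases hA with ⟨a, rfl⟩ | ⟨Λ, hΛ, rfl⟩
    · exact hcard a
    · have hle : ∀ A A' : Submodule (ZMod p) (Fin r → ZMod p), A ≤ A' → Nat.card A ≤ Nat.card A' :=
        fun A A' h => Nat.card_le_card_of_injective (Submodule.inclusion h)
          (Submodule.inclusion_injective h)
      rcases hφ Λ with h | ⟨a0, h⟩
      · have h1 : Vs M.pr (stL (rstC R.C A0) M.H.subtype (φ Λ)) = ⊥ := by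
          rw [stL_empty (rstC R.C A0) M.H.subtype h]
          exact Vs_top M.pr_onto
        show Nat.card (Vs M.pr (stL (rstC R.C A0) M.H.subtype (φ Λ))) ≤ 2 ^ t
        rw [h1]
        have h3 : Nat.card (⊥ : Submodule (ZMod p) (Fin r → ZMod p)) = 1 := Nat.card_unique
        rw [h3]
        exact Nat.one_le_two_pow
      · exact (hle _ _ (Vs_anti (h M.H.subtype))).trans (hcard a0)
  have hfam_card : fam.ncard ≤ 2 ^ (t + 1) := fam_card Sp t (k8 d) hSp_card (by
    rw [Nat.card_eq_fintype_card, Fintype.card_fin]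
    exact hrk)
  let UU : Set (Submodule (ZMod p) (Fin r → ZMod p)) :=
    {U | ∃ A ∈ fam, ∃ A' ∈ fam, ∃ A'' ∈ fam, U = A ⊔ A' ⊔ A''}
  have hUU3 : ∀ A ∈ fam, ∀ A' ∈ fam, ∀ A'' ∈ fam, A ⊔ A' ⊔ A'' ∈ UU :=
    fun A hA A' hA' A'' hA'' => ⟨A, hA, A', hA', A'', hA'', rfl⟩
  have hUU : ∀ A ∈ fam, ∀ A' ∈ fam, A ⊔ A' ∈ UU := fun A hA A' hA' => by
    have h := hUU3 A hA A' hA' A' hA'
    rwa [sup_assoc, sup_idem] at h
  have hUU_card : UU.ncard ≤ 2 ^ (3 * t + 3) := sup3_card fam t hfam_card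
  -- the cells
  obtain ⟨cv, cand, hcv, hcand, hne⟩ := exists_placing hLpos hr
  have hSF : Finite {s : Sq d // isS L s} := (isS_fin L).1.to_subtype
  have hnum : (2 * 2 ^ t) ^ 18 * 2 ^ (6 * k8 d) < 2 ^ (42 * t + 1) := by
    have h1 : (2 * 2 ^ t) ^ 18 = 2 ^ (18 * t + 18) := by
      rw [← pow_succ', ← pow_mul]
      congr 1
      ring
    rw [h1, ← pow_add]
    exact Nat.pow_lt_pow_right (by norm_num) (by omega)
  obtain ⟨b, hb⟩ := random_cells (K := Fin r) (I := {s : Sq d // isS L s})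
    (fun s β => cand s.1 β) (by
      intro s β s' β' h
      obtain ⟨h1, h2⟩ := hcand s.1 β s'.1 β' s.2 s'.2 h
      exact ⟨Subtype.ext h1, h2⟩) Sp (2 ^ t) (42 * t) (k8 d)
    hSp_card hSp_le
    (by
      rw [Nat.card_eq_fintype_card, Fintype.card_fin]
      exact hrk) hnum
  let j : Sq d → Fin r := fun s => if h : isS L s then cand s (b ⟨s, h⟩) else cand s true
  have hjv : ∀ s (h : isS L s), j s = cand s (b ⟨s, h⟩) := by
    intro s h
    exact dif_pos h
  have hj : Set.InjOn j {s | isS L s} := by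
    intro s hs s' hs' h
    rw [hjv s hs, hjv s' hs'] at h
    exact (hcand _ _ _ _ hs hs' h).1
  obtain ⟨g, c, hw, hsupp, hye, hlaw, hwd⟩ := grid_wd (p := p) hd L hL j hj
  have hlight : ∀ l : Fin 6 → Submodule (ZMod p) (Fin r → ZMod p), (∀ i, l i = ⊥ ∨ l i ∈ fam) →
      ∀ y ∈ ⨆ i, l i, y ∈ g.D → nm y ≤ 42 * t := by
    intro l hl y hy hyD
    refine hb l (fun i => ?_) y hy ?_
    · rcases hl i with h | h | h
      · exact Or.inl h
      · exact Or.inr (Or.inl h)
      · exact Or.inr (Or.inr h)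
    · intro k hk
      obtain ⟨s, hs, hjs⟩ := hsupp y hyD k hk
      refine ⟨⟨s, hs⟩, ?_⟩
      rw [← hjs, hjv s hs]
  obtain ⟨wd⟩ := hwd (42 * t) m (3 * t + 5) UU (by
      rintro U ⟨A, hA, A', hA', A'', hA'', rfl⟩ y hy hyD
      refine hlight (fun i => if i = 0 then A else if i = 1 then A' else if i = 2 then A'' else ⊥)
        ?_ y ?_ hyD
      · intro i
        by_cases h0 : i = 0
        · right
          rw [if_pos h0]
          exact hA
        · by_cases h1 : i = 1
          · right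
            rw [if_neg h0, if_pos h1]
            exact hA'
          · by_cases h2 : i = 2
            · right
              rw [if_neg h0, if_neg h1, if_pos h2]
              exact hA''
            · left
              rw [if_neg h0, if_neg h1, if_neg h2]
      · refine (sup_le (sup_le ?_ ?_) ?_ : A ⊔ A' ⊔ A'' ≤ _) hy
        · refine le_trans ?_ (le_iSup _ (0 : Fin 6))
          rw [if_pos rfl]
        · refine le_trans ?_ (le_iSup _ (1 : Fin 6))
          rw [if_neg (by decide), if_pos rfl]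
        · refine le_trans ?_ (le_iSup _ (2 : Fin 6))
          rw [if_neg (by decide), if_neg (by decide), if_pos rfl])
    (by omega) (by
      calc 4 * (42 * t * ((m + 1) * m)) = 168 * t * ((m + 1) * m) := by ring
        _ ≤ 200 * t * ((m + 1) * m) := Nat.mul_le_mul_right _ (by omega)
        _ ≤ _ := hL2)
    (by
      calc 2 * UU.ncard ≤ 2 * 2 ^ (3 * t + 3) := Nat.mul_le_mul_left _ hUU_card
        _ = 2 ^ (3 * t + 4) := by rw [← pow_succ']
        _ < 2 ^ (3 * t + 5) := Nat.pow_lt_pow_right (by norm_num) (by omega))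
    (by
      calc UU.ncard ^ 2 * 2 ^ (12 * (3 * t + 5) + 1)
          ≤ (2 ^ (3 * t + 3)) ^ 2 * 2 ^ (12 * (3 * t + 5) + 1) :=
            Nat.mul_le_mul_right _ (Nat.pow_le_pow_left hUU_card _)
        _ = 2 ^ (42 * t + 67) := by
            rw [← pow_mul, ← pow_add]
            congr 1
            ring
        _ ≤ 2 ^ (2 * (m + 1)) := Nat.pow_le_pow_right (by norm_num) (by omega)
        _ = 4 ^ (m + 1) := by
            rw [pow_mul]
            norm_num)
    (by omega)
  let D : Dat p d L r P :=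
    { M := M, cv := cv, cv_inj := hcv, j := j, j_inj := hj
      cv_ne := by
        intro x s hx hs
        rw [hjv s hs]
        exact hne x s _ hx hs
      g := g, c := c, ye_mem := hye, law := hlaw }
  let E : Eng p (Re d) P (Fin r) M.H :=
    { toGad := g
      pr := M.pr
      pr_mul := M.pr_mul
      pr_onto := M.pr_onto
      ρ := M.H.subtype
      C := rstC R.C A0
      leaf := D.leaf
      leaf_loc := by
        intro v f f' h
        apply D.leaf_loc v f f'
        intro y hy hyD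
        apply h y _ hyD
        intro g' hg'
        exact hy g' hg'
      leaf_equi := by
        intro g' v f
        exact D.leaf_equi g' v f
      fam := fam
      node_mem := by
        intro a
        exact Or.inl (Or.inl ⟨a, rfl⟩)
      tame6 := by
        intro l hl y hy hyD
        have h1 := hlight l hl y hy hyD
        rw [hw]
        omega }
  have hev : EvG (fun (a : R.C.N) S => (rstC R.C A0).gate a = .and S) Set.univ ∅ (4 * (8 * t)) m
      (RV wd E.Vn E.val) := by
    have h1 := ev0 E (UU := UU) hUU wd (s := 32 * t) (by omega) (by omega)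
    have h2 : 4 * (8 * t) = 32 * t := by ring
    rw [h2]
    exact h1
  refine base_core (C := R.C) (lines := R.lines) hlfin R.order wd D.leaf (fam := fam) hUU
    {a | Cone R.C A0 a} (fun a S => (rstC R.C A0).gate a = .and S) E.Vn E.val (t := 8 * t) (d := dd)
    hev ?_ ?_ ?_ ?_ ?_ ?_ ?_ ?_ (by omega) (by omega) ?_ ?_ hm R.empty_mem
  · intro a ha S hS
    rw [rstC_pos ha]
    exact hS
  · intro a ha x hx
    exact Cone.child ha hx
  · intro a
    exact E.node_mem a
  · intro a f f' hf hff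
    exact E.val_loc hf hff
  · intro a ha v hv f
    have h1 : (rstC R.C A0).gate a = .var v := (rstC_pos ha).trans hv
    exact E.val_var h1 f
  · intro v
    obtain ⟨s, hs, h1⟩ := leaf_csp D v
    exact ⟨csp p s, Or.inr ⟨s, hs, rfl⟩, h1⟩
  · intro Λ hΛ x hx
    refine blt_mono ?_ (hR Λ hΛ x hx)
    rintro a (ha | ha)
    · exact Or.inl (Cone.mem ha)
    · exact Or.inr ha
  · intro Λ hΛ
    rcases hφ2 Λ hΛ with h | ⟨A1, hA1, v, h⟩ | h | ⟨b₁, b₂, a, c1, c2, c3, h, m1, m2, m3⟩ |
      ⟨h1, h2, h3⟩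
    · exact Or.inl h
    · right
      left
      obtain ⟨Y, hY, h4⟩ := D.ins_ok (fam := fam) (fun s hs => Or.inr ⟨s, hs, rfl⟩) hLpos
        (T_ins A1 hA1 v)
      refine ⟨A1.inst v, Y, hY, fun f hf => h4 Y f le_rfl ?_ hf, h⟩
      exact E.Sm_tame (E.Sm_mono (by norm_num) le_rfl (E.Sm_mem hY))
    · exact Or.inr (Or.inr (Or.inl h))
    · right
      right
      right
      refine ⟨{x | x = ⟨b₁, false⟩ ∨ x = ⟨b₂, false⟩ ∨ x = ⟨a, true⟩}, ?_, ?_, ?_⟩
      · rintro x (rfl | rfl | rfl)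
        · exact m1
        · exact m2
        · exact m3
      · rintro x (rfl | rfl | rfl)
        · exact c1
        · exact c2
        · exact c3
      · intro α hα hM
        obtain ⟨x, hx, β, k1, k2, k3, k4⟩ := loc_sum E (UU := UU) hUU3 wd h hα (by omega)
        exact ⟨x, hx, β, k1, k2, by omega, k4⟩
    · right
      right
      right
      refine ⟨φ Λ, h1, h2, ?_⟩
      intro α hα hM
      have hV : E.Vl (φ Λ) ∈ E.fam := Or.inl (Or.inr ⟨Λ, hΛ, rfl⟩)
      obtain ⟨x, hx, β, k1, k2, k3, k4⟩ := loc_tru E (UU := UU) hUU wd hV (lstep_tru E hV h3) hα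
        (by omega)
      exact ⟨x, hx, β, k1, k2, by omega, k4⟩
  · have h1 : r < 2 ^ (8 * t) := by
      have h2 : 2 ^ t ≤ 2 ^ (8 * t) := Nat.pow_le_pow_right (by norm_num) (by omega)
      omega
    omega
  · have h2 : 2 ^ t < 2 ^ (8 * t) := Nat.pow_lt_pow_right (by norm_num) (by omega)
    omega

end Pool.Agent.H6.AC
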