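import Pool.Agent.H42.CS.Defs
import Pool.Agent.H63.YP.Sw
import Pool.Agent.H63.YL.Sound

/-!
# Evaluations by matchings, switching

`EvG ga B f s M R`: `R α a v` says that the node `a` has the value `v` at the matching `α` (which contains
the fixed matching `f`). Nodes in `B` are decided by at most `s` more pairs as long as there are at most
`M` pairs. `ga a S` says that `a` is the conjunction of `S`; nothing is known of the other nodes. (As
`H63/YL/Sound`, `H63/YP/Lift`, without the variables.)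
-/

set_option autoImplicit false
set_option linter.unusedSectionVars false

namespace Pool.Agent.H6.AC

open Finset Pool.Agent.H63.YL Pool.Agent.H63.YP Relation
open Pool.Agent.H42.CS (Ax Atom Gate Circuit Step Refutation)

variable {P H N : Type}

/-- evaluation of the nodes in `B` by matchings with at most `M` pairs -/
structure EvG [DecidableEq P] [DecidableEq H] (ga : N → Set (H42.CS.Lit N) → Prop) (B : Set N)
    (f : Finset (P × H)) (s M : ℕ) (R : Finset (P × H) → N → Bool → Prop) : Prop where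
  func : ∀ {a S S'}, ga a S → ga a S' → S = S'
  closed : ∀ {a S}, a ∈ B → ga a S → ∀ x ∈ S, x.node ∈ B
  pmf : PM f
  mono : ∀ {α β a v}, a ∈ B → R α a v → α ⊆ β → PM β → R β a v
  decide : ∀ {α a}, a ∈ B → PM α → f ⊆ α → α.card + s ≤ M →
    ∃ β v, α ⊆ β ∧ PM β ∧ β.card ≤ α.card + s ∧ R β a v
  cert : ∀ {α a v}, a ∈ B → R α a v → ∃ β, β ⊆ α ∧ f ⊆ β ∧ β.card ≤ f.card + s ∧ R β a v
  pm : ∀ {α a v}, R α a v → PM α ∧ f ⊆ α
  cons : ∀ {α a}, R α a true → R α a false → False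
  and_true : ∀ {α a S x v}, a ∈ B → ga a S → x ∈ S → R α a true → R α x.node v →
    α.card + s ≤ M → v = x.pos
  and_false : ∀ {α a S}, a ∈ B → ga a S → R α a false → α.card + s ≤ M →
    ∃ x ∈ S, ∃ β, α ⊆ β ∧ PM β ∧ β.card ≤ α.card + s ∧ R β x.node (!x.pos)
  ext : ∀ {α} (x : P ⊕ H), PM α → f ⊆ α → α.card + 1 ≤ M →
    ∃ β, α ⊆ β ∧ PM β ∧ β.card ≤ α.card + 1 ∧ x ∈ dm β
  room : f.card + 8 * s + 8 ≤ M

variable [Fintype P] [DecidableEq P] [Fintype H] [DecidableEq H]

/-- certificates for the value false of the node `a` -/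
noncomputable def termsG (ga : N → Set (H42.CS.Lit N) → Prop) (f : Finset (P × H)) (s : ℕ)
    (R : Finset (P × H) → N → Bool → Prop) (a : N) : Finset (Finset (P × H)) :=
  open Classical in univ.filter fun T => PM T ∧ f ⊆ T ∧ T.card ≤ f.card + s ∧
    ∃ S, ga a S ∧ ∃ x ∈ S, R T x.node (!x.pos)

theorem mem_termsG {ga : N → Set (H42.CS.Lit N) → Prop} {f : Finset (P × H)} {s : ℕ}
    {R : Finset (P × H) → N → Bool → Prop} {a : N} {T : Finset (P × H)} :
    T ∈ termsG ga f s R a ↔ PM T ∧ f ⊆ T ∧ T.card ≤ f.card + s ∧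
      ∃ S, ga a S ∧ ∃ x ∈ S, R T x.node (!x.pos) := by
  simp [termsG]

/-- **Switching.** An evaluation of the nodes in `B` gives an evaluation of the nodes in `B'` if the
children of the new nodes are in `B`. -/
theorem liftG [Finite N] {ga : N → Set (H42.CS.Lit N) → Prop} {B B' : Set N} {f : Finset (P × H)}
    {s l d : ℕ} {R : Finset (P × H) → N → Bool → Prop}
    (E : EvG ga B f s (Fintype.card H) R) (hs : 1 ≤ s) (hBB : B ⊆ B')
    (hB' : ∀ a ∈ B', a ∉ B → ∃ S, ga a S ∧ ∀ x ∈ S, x.node ∈ B)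
    (hPH : Fintype.card P ≤ Fintype.card H + 1) (hHP : Fintype.card H ≤ Fintype.card P)
    (hl : l + f.card ≤ Fintype.card H)
    (hbig : (Fintype.card P - (Fintype.card H - l)) * (Fintype.card H - (Fintype.card H - l)) *
      (8 * s * (l + 1) ^ 2) ≤ Fintype.card H - l + 1 - f.card)
    (hI : Nat.card N * l < 2 ^ (d + 1)) (hroom : 8 * (d + 2 * s) + 8 ≤ l) :
    ∃ (f' : Finset (P × H)) (R' : Finset (P × H) → N → Bool → Prop),
      EvG ga B' f' (d + 2 * s) (Fintype.card H) R' ∧ f'.card = Fintype.card H - l ∧ f ⊆ f' ∧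
        ∀ α a v, a ∈ B → R' α a v → R α a v := by
  classical
  have : Fintype N := Fintype.ofFinite N
  obtain ⟨f', hf', hff', hf'c, hgood⟩ := exists_good (fun a : N => (termsG ga f s R a).toList)
    (f := f) (s := s) (l := l) (D := d) hs (by
      intro a T hT
      obtain ⟨-, h1, h2, -⟩ := mem_termsG.1 (mem_toList.1 hT)
      rw [card_sdiff_of_subset h1]; omega) E.pmf hPH hHP hl hbig
      (by rw [← Nat.card_eq_fintype_card]; exact hI)
  -- the new values
  let F : Finset (P × H) → N → Prop := fun α a =>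
    ∃ S, ga a S ∧ ∃ x ∈ S, R α x.node (!x.pos)
  let G : Finset (P × H) → N → Prop := fun α a =>
    ∃ β, β ⊆ α ∧ f' ⊆ β ∧ β.card ≤ f'.card + d ∧ ∀ T ∈ termsG ga f s R a, ¬ PM (T ∪ β)
  let R' : Finset (P × H) → N → Bool → Prop := fun α a v =>
    PM α ∧ f' ⊆ α ∧ ((a ∈ B ∧ R α a v) ∨ (a ∈ B' ∧ a ∉ B ∧ ((v = false ∧ F α a) ∨ (v = true ∧ G α a))))
  -- a false certificate
  have hcertF : ∀ {a α}, a ∈ B' → a ∉ B → PM α → F α a → ∃ T ∈ termsG ga f s R a, T ⊆ α := by
    rintro a α ha hab hα ⟨S, hS, x, hx, hR⟩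
    obtain ⟨S', hS', hch⟩ := hB' a ha hab
    obtain rfl := E.func hS hS'
    obtain ⟨T, h1, h2, h3, h4⟩ := E.cert (hch x hx) hR
    exact ⟨T, mem_termsG.2 ⟨hα.mono h1, h2, h3, S, hS, x, hx, h4⟩, h1⟩
  have hFG : ∀ {a α}, a ∈ B' → a ∉ B → PM α → F α a → G α a → False := by
    rintro a α ha hab hα h1 ⟨β, h2, -, -, h3⟩
    obtain ⟨T, h4, h5⟩ := hcertF ha hab hα h1
    exact h3 T h4 (hα.mono (union_subset h5 h2))
  have hFmono : ∀ {a α β}, a ∈ B' → a ∉ B → F α a → α ⊆ β → PM β → F β a := by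
    rintro a α β ha hab ⟨S, hS, x, hx, hR⟩ h1 h2
    obtain ⟨S', hS', hch⟩ := hB' a ha hab
    obtain rfl := E.func hS hS'
    exact ⟨S, hS, x, hx, E.mono (hch x hx) hR h1 h2⟩
  refine ⟨f', R', ?_, hf'c, hff', ?_⟩
  · refine ⟨E.func, ?_, hf', ?_, ?_, ?_, ?_, ?_, ?_, ?_, ?_, ?_⟩
    · -- closed
      intro a S ha hg x hx
      by_cases hab : a ∈ B
      · exact hBB (E.closed hab hg x hx)
      · obtain ⟨S', hS', h1⟩ := hB' a ha hab
        obtain rfl := E.func hg hS'
        exact hBB (h1 x hx)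
    · -- mono
      rintro α β a v ha ⟨h1, h2, h3⟩ h4 h5
      refine ⟨h5, h2.trans h4, ?_⟩
      rcases h3 with ⟨h3, h6⟩ | ⟨h3, h6, ⟨h7, h8⟩ | ⟨h7, β', h8, h9, h10, h11⟩⟩
      · exact Or.inl ⟨h3, E.mono h3 h6 h4 h5⟩
      · exact Or.inr ⟨h3, h6, Or.inl ⟨h7, hFmono h3 h6 h8 h4 h5⟩⟩
      · exact Or.inr ⟨h3, h6, Or.inr ⟨h7, β', h8.trans h4, h9, h10, h11⟩⟩
    · -- decide
      intro α a ha h1 h2 h3
      by_cases hab : a ∈ B
      · obtain ⟨β, v, h4, h5, h6, h7⟩ := E.decide hab h1 (hff'.trans h2) (by omega)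
        exact ⟨β, v, h4, h5, by omega, h5, h2.trans h4, Or.inl ⟨hab, h7⟩⟩
      · have hL : ∀ T ∈ (termsG ga f s R a).toList, (T \ f).card ≤ s := by
          intro T hT
          obtain ⟨-, h1, h2, -⟩ := mem_termsG.1 (mem_toList.1 hT)
          rw [card_sdiff_of_subset h1]; omega
        obtain ⟨β, h4, h5, h6⟩ := good_decide hHP hL hff' (hgood a) h1 h2 (by omega)
        have h7 := hgood a β h4
        have h8 := path_mono h4
        have h9 : (β ∪ α).card ≤ α.card + d := by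
          rw [union_comm, ← union_sdiff_self_eq_union]
          have e1 : (β \ f').card + f'.card = β.card := card_sdiff_add_card_eq_card h8
          refine (card_union_le _ _).trans (Nat.add_le_add_left ?_ _)
          refine (card_le_card (sdiff_subset_sdiff subset_rfl h2)).trans (by omega)
        rcases hT : first (termsG ga f s R a).toList β with _ | T
        · refine ⟨β ∪ α, true, subset_union_right, h5, by omega, h5, h2.trans subset_union_right,
            Or.inr ⟨ha, hab, Or.inr ⟨rfl, β, subset_union_left, h8, h7, ?_⟩⟩⟩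
          intro T hT2
          exact first_none hT T (mem_toList.2 hT2)
        · have h10 := h6 T hT
          obtain ⟨-, -, -, S, hS, x, hx, h11⟩ := mem_termsG.1 (mem_toList.1 (first_some hT).1)
          refine ⟨β ∪ α, false, subset_union_right, h5, by omega, h5, h2.trans subset_union_right,
            Or.inr ⟨ha, hab, Or.inl ⟨rfl, ?_⟩⟩⟩
          exact hFmono ha hab ⟨S, hS, x, hx, h11⟩ (h10.trans subset_union_left) h5
    · -- cert
      rintro α a v ha ⟨h1, h2, h3⟩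
      have lemB : ∀ {c w}, c ∈ B → R α c w → ∃ β, β ⊆ α ∧ f' ⊆ β ∧ β.card ≤ f'.card + (d + 2 * s) ∧
          PM β ∧ R β c w := by
        intro c w hc hw
        obtain ⟨β, h4, h5, h6, h7⟩ := E.cert hc hw
        have h8 : PM (β ∪ f') := h1.mono (union_subset h4 h2)
        refine ⟨β ∪ f', union_subset h4 h2, subset_union_right, ?_, h8,
          E.mono hc h7 subset_union_left h8⟩
        rw [union_comm, ← union_sdiff_self_eq_union]
        refine (card_union_le _ _).trans (Nat.add_le_add_left ?_ _)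
        have e1 : (β \ f).card + f.card = β.card := card_sdiff_add_card_eq_card h5
        refine (card_le_card (sdiff_subset_sdiff subset_rfl hff')).trans (by omega)
      rcases h3 with ⟨h3, h6⟩ | ⟨h3, h6, ⟨h7, S, hS, x, hx, h8⟩ | ⟨h7, β', h8, h9, h10, h11⟩⟩
      · obtain ⟨β, h4, h5, h7, h8, h9⟩ := lemB h3 h6
        exact ⟨β, h4, h5, h7, h8, h5, Or.inl ⟨h3, h9⟩⟩
      · obtain ⟨S', hS', hch⟩ := hB' a h3 h6
        obtain rfl := E.func hS hS'
        obtain ⟨β, h4, h5, h9, h10, h11⟩ := lemB (hch x hx) h8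
        exact ⟨β, h4, h5, h9, h10, h5, Or.inr ⟨h3, h6, Or.inl ⟨h7, S, hS, x, hx, h11⟩⟩⟩
      · exact ⟨β', h8, h9, by omega, h1.mono h8, h9,
          Or.inr ⟨h3, h6, Or.inr ⟨h7, β', subset_rfl, h9, h10, h11⟩⟩⟩
    · -- pm
      rintro α a v ⟨h1, h2, -⟩; exact ⟨h1, h2⟩
    · -- cons
      rintro α a ⟨h1, -, h3⟩ ⟨-, -, h4⟩
      rcases h3 with ⟨h3, h6⟩ | ⟨h3, h6, ⟨h7, -⟩ | ⟨-, h8⟩⟩
      · rcases h4 with ⟨-, h9⟩ | ⟨-, h9, -⟩
        · exact E.cons h6 h9
        · exact h9 h3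
      · cases h7
      · rcases h4 with ⟨h9, -⟩ | ⟨-, h9, ⟨-, h10⟩ | ⟨h10, -⟩⟩
        · exact h6 h9
        · exact hFG h3 h6 h1 h10 h8
        · cases h10
    · -- and_true
      rintro α a S x v ha hg hx ⟨h1, h2, h3⟩ ⟨-, -, h4⟩ hM
      rcases h3 with ⟨h3, h6⟩ | ⟨h3, h6, ⟨h7, -⟩ | ⟨-, h8⟩⟩
      · have hxB : x.node ∈ B := E.closed h3 hg x hx
        rcases h4 with ⟨-, h9⟩ | ⟨-, h9, -⟩
        · exact E.and_true h3 hg hx h6 h9 (by omega)
        · exact absurd hxB h9
      · cases h7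
      · obtain ⟨S', hS', hch⟩ := hB' a h3 h6
        obtain rfl := E.func hg hS'
        rcases h4 with ⟨-, h9⟩ | ⟨-, h9, -⟩
        · by_contra hne
          have e : v = !x.pos := by
            cases v <;> cases hp : x.pos <;> simp_all
          rw [e] at h9
          exact hFG h3 h6 h1 ⟨S, hg, x, hx, h9⟩ h8
        · exact absurd (hch x hx) h9
    · -- and_false
      rintro α a S ha hg ⟨h1, h2, h3⟩ hM
      rcases h3 with ⟨h3, h6⟩ | ⟨h3, h6, ⟨h7, S', hS', x, hx, h8⟩ | ⟨h7, -⟩⟩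
      · obtain ⟨x, hx, β, h9, h10, h11, h12⟩ := E.and_false h3 hg h6 (by omega)
        have hxB : x.node ∈ B := E.closed h3 hg x hx
        exact ⟨x, hx, β, h9, h10, by omega, h10, h2.trans h9, Or.inl ⟨hxB, h12⟩⟩
      · obtain rfl := E.func hg hS'
        obtain ⟨S', hS', hch⟩ := hB' a h3 h6
        obtain rfl := E.func hg hS'
        exact ⟨x, hx, α, subset_rfl, h1, by omega, h1, h2, Or.inl ⟨hch x hx, h8⟩⟩
      · cases h7
    · -- ext
      intro α x h1 h2 h3
      exact E.ext x h1 (hff'.trans h2) h3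
    · -- room
      omega
  · rintro α a v ha ⟨-, -, ⟨-, h1⟩ | ⟨-, h1, -⟩⟩
    · exact h1
    · exact absurd ha h1

end Pool.Agent.H6.AC
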