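import Pool.Agent.H6.AC.Ev

/-!
# Soundness at matchings: the frame

Lines are nodes (`gaX`): the conjunction of the negations of the members of the line. If there is an
evaluation of all the lines, every line follows by a rule for conjunctions (`FStep`) from earlier lines or
has, at extensions of every small matching, a true member, then the empty line is not there. As
`H63/YL/Sound`.
-/

set_option autoImplicit false
set_option linter.unusedSectionVars false

namespace Pool.Agent.H6.AC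

open Pool.Agent.H63.YL (PM dm)
open Pool.Agent.H42.CS (Ax Atom Gate Circuit Step Refutation)

/-- The rules for conjunctions. -/
inductive FStep {Rel : ℕ → Type} {Pt : Type} (C : Circuit Rel Pt)
    (Pr : Set (Set (H42.CS.Lit C.N))) : Set (H42.CS.Lit C.N) → Prop
  | ident {Λ S : Set (H42.CS.Lit C.N)} {a b : C.N} : C.gate a = .and S → C.gate b = .and S →
      ⟨a, true⟩ ∈ Λ → ⟨b, false⟩ ∈ Λ → FStep C Pr Λ
  | weak {Λ Δ : Set (H42.CS.Lit C.N)} : Δ ∈ Pr → Δ ⊆ Λ → FStep C Pr Λ
  | cut {Λ : Set (H42.CS.Lit C.N)} {a : C.N} : insert ⟨a, true⟩ Λ ∈ Pr →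
      insert ⟨a, false⟩ Λ ∈ Pr → FStep C Pr Λ
  | andI {Λ S : Set (H42.CS.Lit C.N)} {a : C.N} : C.gate a = .and S → ⟨a, true⟩ ∈ Λ →
      (∀ x ∈ S, insert x Λ ∈ Pr) → FStep C Pr Λ
  | andE {Λ S : Set (H42.CS.Lit C.N)} {a : C.N} : C.gate a = .and S → ⟨a, false⟩ ∈ Λ →
      Λ ∪ H42.CS.Lit.neg '' S ∈ Pr → FStep C Pr Λ

variable {Rel : ℕ → Type} {Pt : Type}

/-- The conjunctions among the nodes of `C` and the lines. -/
def gaX (C : Circuit Rel Pt) (lines : Set (Set (H42.CS.Lit C.N))) :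
    C.N ⊕ lines → Set (H42.CS.Lit (C.N ⊕ lines)) → Prop
  | .inl a, S => ∃ S0, C.gate a = .and S0 ∧ S = H42.CS.Lit.map Sum.inl '' S0
  | .inr Λ, S => S = (fun x : H42.CS.Lit C.N => (⟨Sum.inl x.node, !x.pos⟩ :
      H42.CS.Lit (C.N ⊕ lines))) '' Λ.1

theorem gaX_func {C : Circuit Rel Pt} {lines : Set (Set (H42.CS.Lit C.N))} {a : C.N ⊕ lines}
    {S S' : Set (H42.CS.Lit (C.N ⊕ lines))} (h : gaX C lines a S) (h' : gaX C lines a S') :
    S = S' := by
  rcases a with a | Λ
  · obtain ⟨S0, h1, rfl⟩ := h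
    obtain ⟨S1, h2, rfl⟩ := h'
    rw [h1] at h2
    rw [Gate.and.inj h2]
  · have h1 : S = _ := h
    have h2 : S' = _ := h'
    rw [h1, h2]

variable {P H : Type} [DecidableEq P] [DecidableEq H]

section

variable {C : Circuit Rel Pt} {lines : Set (Set (H42.CS.Lit C.N))} {B : Set (C.N ⊕ lines)}
  {f : Finset (P × H)} {s M : ℕ} {V : Finset (P × H) → C.N ⊕ lines → Bool → Prop}

private theorem line_true (E : EvG (gaX C lines) B f s M V) {Λ : lines}
    (hΛ : (Sum.inr Λ : C.N ⊕ lines) ∈ B) {α : Finset (P × H)} (h : V α (Sum.inr Λ) true)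
    {x : H42.CS.Lit C.N} (hx : x ∈ Λ.1) {v : Bool} (hv : V α (Sum.inl x.node) v)
    (hM : α.card + s ≤ M) : v = !x.pos :=
  E.and_true hΛ (rfl : gaX C lines (Sum.inr Λ) _) ⟨x, hx, rfl⟩ h hv hM

private theorem mem_of_line (E : EvG (gaX C lines) B f s M V) {Λ : lines}
    (hΛ : (Sum.inr Λ : C.N ⊕ lines) ∈ B) {x : H42.CS.Lit C.N} (hx : x ∈ Λ.1) :
    (Sum.inl x.node : C.N ⊕ lines) ∈ B :=
  E.closed hΛ (rfl : gaX C lines (Sum.inr Λ) _) ⟨Sum.inl x.node, !x.pos⟩ ⟨x, hx, rfl⟩

/-- a false line with a small certificate -/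
private def FalseAt (V : Finset (P × H) → C.N ⊕ lines → Bool → Prop) (f : Finset (P × H)) (s : ℕ)
    (Λ : lines) : Prop :=
  ∃ α, α.card ≤ f.card + s ∧ V α (Sum.inr Λ) true

private theorem falseAt_of (E : EvG (gaX C lines) B f s M V) {Λ : lines}
    (hΛ : (Sum.inr Λ : C.N ⊕ lines) ∈ B) {α : Finset (P × H)} (hα : PM α) (hf : f ⊆ α)
    (hM : α.card + 3 * s ≤ M)
    (h : ∀ x ∈ Λ.1, ∀ β, α ⊆ β → PM β → β.card ≤ α.card + 2 * s →
      ¬ V β (Sum.inl x.node) x.pos) : FalseAt V f s Λ := by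
  obtain ⟨β, v, h1, h2, h3, h4⟩ := E.decide hΛ hα hf (by omega)
  rcases v with _ | _
  · exfalso
    obtain ⟨y, hy, γ, h5, h6, h7, h8⟩ := E.and_false hΛ (rfl : gaX C lines (Sum.inr Λ) _) h4
      (by omega)
    obtain ⟨x, hx, rfl⟩ := hy
    simp only [Bool.not_not] at h8
    exact h x hx γ (h1.trans h5) h6 (by omega) h8
  · obtain ⟨γ, h5, h6, h7, h8⟩ := E.cert hΛ h4
    exact ⟨γ, h7, h8⟩

/-- **Soundness.** -/
theorem frame (E : EvG (gaX C lines) B f s M V) (hB : ∀ Λ : lines, (Sum.inr Λ : C.N ⊕ lines) ∈ B)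
    (order : Set (H42.CS.Lit C.N) → ℕ)
    (hstep : ∀ Λ : lines, FStep C {Δ | Δ ∈ lines ∧ order Δ < order Λ.1} Λ.1 ∨
      ∀ α, PM α → f ⊆ α → α.card + 7 * s ≤ M → ∃ x ∈ Λ.1, ∃ β, α ⊆ β ∧ PM β ∧
        β.card ≤ α.card + 6 * s ∧ V β (Sum.inl x.node) x.pos)
    (hempty : ∅ ∈ lines) : False := by
  have hroom := E.room
  -- members of false lines are false
  have mem_false : ∀ {Λ : lines} {α : Finset (P × H)}, V α (Sum.inr Λ) true →
      ∀ x ∈ Λ.1, ∀ β, α ⊆ β → PM β → β.card + s ≤ M →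
      ¬ V β (Sum.inl x.node) x.pos := by
    intro Λ α h x hx β h1 h2 h3 h4
    have h5 := line_true E (hB Λ) (E.mono (hB Λ) h h1 h2) hx h4 h3
    cases hp : x.pos <;> rw [hp] at h5 <;> simp at h5
  have decide_mem : ∀ {Λ : lines} {α : Finset (P × H)}, V α (Sum.inr Λ) true →
      ∀ x ∈ Λ.1, ∀ β, α ⊆ β → PM β → β.card + 2 * s ≤ M →
      ∃ γ, β ⊆ γ ∧ PM γ ∧ γ.card ≤ β.card + s ∧ V γ (Sum.inl x.node) (!x.pos) := by
    intro Λ α h x hx β h1 h2 h3
    have hf := (E.pm h).2
    obtain ⟨γ, v, h4, h5, h6, h7⟩ := E.decide (mem_of_line E (hB Λ) hx) h2 (hf.trans h1) (by omega)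
    refine ⟨γ, h4, h5, h6, ?_⟩
    have h8 := mem_false h x hx γ (h1.trans h4) h5 (by omega)
    by_cases h9 : v = x.pos
    · rw [h9] at h7; exact absurd h7 h8
    · have h10 : v = !x.pos := by
        cases v <;> cases hp : x.pos <;> simp_all
      rw [← h10]; exact h7
  -- no line is false
  have key : ∀ (m : ℕ) (Λ : lines), order Λ.1 ≤ m → ¬ FalseAt V f s Λ := by
    intro m
    induction m using Nat.strong_induction_on with
    | _ m ih =>
      rintro Λ hm ⟨α, hcard, hα⟩
      obtain ⟨hpm, hf⟩ := E.pm hα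
      have hle : ∀ Δ : lines, order Δ.1 < order Λ.1 → ¬ FalseAt V f s Δ :=
        fun Δ h => ih _ (lt_of_lt_of_le h hm) Δ le_rfl
      rcases hstep Λ with hst | hloc
      · cases hst with
        | @ident S a b ha hb haΛ hbΛ =>
          obtain ⟨β, h1, h2, h3, h4⟩ := decide_mem hα _ haΛ α subset_rfl hpm (by omega)
          obtain ⟨γ, h5, h6, h7, h8⟩ := decide_mem hα _ hbΛ β h1 h2 (by omega)
          -- `a` is false, `b` is true
          have ha' : gaX C lines (Sum.inl a) (H42.CS.Lit.map Sum.inl '' S) := ⟨S, ha, rfl⟩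
          have hb' : gaX C lines (Sum.inl b) (H42.CS.Lit.map Sum.inl '' S) := ⟨S, hb, rfl⟩
          have h9 := E.mono (mem_of_line E (hB Λ) haΛ) h4 h5 h6
          obtain ⟨x, hx, δ, k1, k2, k3, k4⟩ := E.and_false (mem_of_line E (hB Λ) haΛ) ha' h9
            (by omega)
          have h10 := E.and_true (mem_of_line E (hB Λ) hbΛ) hb' hx
            (E.mono (mem_of_line E (hB Λ) hbΛ) h8 k1 k2) k4 (by omega)
          simp at h10
        | @weak Δ hΔ hsub =>
          refine hle ⟨Δ, hΔ.1⟩ hΔ.2 (falseAt_of E (hB _) hpm hf (by omega) ?_)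
          intro x hx β h1 h2 h3
          exact mem_false hα x (hsub hx) β h1 h2 (by omega)
        | @cut a h1 h2 =>
          -- decide `a`
          have haB : (Sum.inl a : C.N ⊕ lines) ∈ B :=
            mem_of_line E (hB ⟨_, h1.1⟩) (x := ⟨a, true⟩) (Set.mem_insert _ _)
          obtain ⟨β, v, h3, h4, h5, h6⟩ := E.decide haB hpm hf (by omega)
          rcases v with _ | _
          · refine hle ⟨_, h1.1⟩ h1.2 (falseAt_of E (hB _) h4 (hf.trans h3) (by omega) ?_)
            intro x hx γ h7 h8 h9 h10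
            rcases hx with rfl | hx
            · exact E.cons h10 (E.mono haB h6 h7 h8)
            · exact mem_false hα x hx γ (h3.trans h7) h8 (by omega) h10
          · refine hle ⟨_, h2.1⟩ h2.2 (falseAt_of E (hB _) h4 (hf.trans h3) (by omega) ?_)
            intro x hx γ h7 h8 h9 h10
            rcases hx with rfl | hx
            · exact E.cons (E.mono haB h6 h7 h8) h10
            · exact mem_false hα x hx γ (h3.trans h7) h8 (by omega) h10
        | @andI S a hg haΛ h =>
          obtain ⟨β, h1, h2, h3, h4⟩ := decide_mem hα _ haΛ α subset_rfl hpm (by omega)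
          have haB := mem_of_line E (hB Λ) haΛ
          have hg' : gaX C lines (Sum.inl a) (H42.CS.Lit.map Sum.inl '' S) := ⟨S, hg, rfl⟩
          obtain ⟨y, hy, γ, h5, h6, h7, h8⟩ := E.and_false haB hg' h4 (by omega)
          obtain ⟨x, hx, rfl⟩ := hy
          have hins := h x hx
          refine hle ⟨_, hins.1⟩ hins.2 (falseAt_of E (hB _) h6 (hf.trans (h1.trans h5))
            (by omega) ?_)
          intro z hz δ h9 h10 h11 h12
          have hxB : (Sum.inl x.node : C.N ⊕ lines) ∈ B :=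
            mem_of_line E (hB ⟨_, hins.1⟩) (x := x) (Set.mem_insert _ _)
          rcases hz with rfl | hz
          · have h13 := E.mono hxB h8 h9 h10
            simp only [H42.CS.Lit.map] at h13
            cases hp : z.pos <;> rw [hp] at h12 h13
            · exact E.cons h13 h12
            · exact E.cons h12 h13
          · exact mem_false hα z hz δ (h1.trans (h5.trans h9)) h10 (by omega) h12
        | @andE S a hg haΛ h =>
          obtain ⟨β, h1, h2, h3, h4⟩ := decide_mem hα _ haΛ α subset_rfl hpm (by omega)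
          have haB := mem_of_line E (hB Λ) haΛ
          have hg' : gaX C lines (Sum.inl a) (H42.CS.Lit.map Sum.inl '' S) := ⟨S, hg, rfl⟩
          refine hle ⟨_, h.1⟩ h.2 (falseAt_of E (hB _) h2 (hf.trans h1) (by omega) ?_)
          intro z hz δ h5 h6 h7 h8
          rcases hz with hz | ⟨w, hw, rfl⟩
          · exact mem_false hα z hz δ (h1.trans h5) h6 (by omega) h8
          · have h9 := E.and_true haB hg' (x := H42.CS.Lit.map Sum.inl w) ⟨w, hw, rfl⟩
              (E.mono haB h4 h5 h6) h8 (by omega)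
            simp [H42.CS.Lit.neg, H42.CS.Lit.map] at h9
      · obtain ⟨x, hx, β, h1, h2, h3, h4⟩ := hloc α hpm hf (by omega)
        exact mem_false hα x hx β h1 h2 (by omega) h4
  -- the empty line is false
  refine key _ ⟨∅, hempty⟩ le_rfl (falseAt_of E (hB _) E.pmf subset_rfl (by omega) ?_)
  intro x hx
  exact absurd hx (Set.notMem_empty x)

end

end Pool.Agent.H6.AC
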