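import Pool.Agent.H42.AC.Gd2

/-!
# The gadget of the grid with its worlds (final statement of chapter A)

`grid_gad2`: the gadget of `H79/CQ/GGad.grid_gad` (same first four properties) and worlds: for every `w` with
`100 w ≤ L ^ (d - 2)` and every space `U` whose members in `g.D` have weight at most `w` there are a set
`Zs U` of at most `2 w L` edges and for every additive functional `Φ` on the chains a world `W U Φ` on `U`;
`W U Φ` agrees on `U` with `W U' Φ'`, `U ≤ U'`, if `Φ = Φ'` on the chains supported in `Zs U` and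
`Φ' (cob L f) = f 0` for all small `f` whose cut lies in `Zs U ∪ Zs U'`.

PROOF. `light_supp`: the support of the space `U ⊓ g.D` (all members of weight `≤ w`) has at most `2 w` elements
(sum of the weights of all members = (1 - 1/p) |space| |support|). `lin_fill`: let `s` be a linear section of
the surjection `z ↦ iot L j (dl L z)` from the chains with `Sup L z` onto `D`; for a base point `P` put
`ζ y := cob L (pth (s y) P) + s y` (GFil, `zp`), linear in `y`; `ζ y e ≠ 0` implies `Rl P e s` for some square `s`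
with `j s` in the support of `U ⊓ D`; by `pairs` (GFil) and averaging over `P` there is `P` for which at most
`2 w L` edges occur: `Zs U`. `W U Φ y := Φ (ζ y) - sg L (ζ y - Z y)`, `Z` the fillings which define `kap`
(`kap y y' = sg L (Z (y + y') - Z y - Z y')`). World: `sg_add`; sizes `≤ 3 w L` each. Agreement: for
`y ∈ U ⊓ D`: `Φ (ζ y) = Φ' (ζ y)`, `ζ y - ζ' y = cob L f` with `f` small (`small_cut`),
`Φ' (ζ y) - Φ' (ζ' y) = Φ' (cob L f) = f 0 = sg L (cob L f) = sg L (ζ y - Z y) - sg L (ζ' y - Z y)`.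
-/

set_option autoImplicit false
set_option linter.unusedSectionVars false

namespace Pool.Agent.H6.AC

open Pool.Agent.H42.CS (Pt Ed Sq un inB isE isS mix btw Slot off ed sq)
open Pool.Agent.H79.CQ (nm Sup dl cob sg ye tau Gad Wd)

variable {p : ℕ} [hp : Fact p.Prime]

theorem grid_gad2 {d : ℕ} {K : Type} [Fintype K] (hd : 3 ≤ d) (L : ℕ) (hL : 100 * d ≤ L)
    (j : Sq d → K) (hj : Set.InjOn j {s | isS L s}) :
    ∃ (g : Gad p K) (c : Ed d → ZMod p), g.w = L ^ (d - 2) / 100 ∧
      (∀ y ∈ g.D, ∀ k, y k ≠ 0 → ∃ s, isS L s ∧ j s = k) ∧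
      (∀ e, isE L e → ye p L j e ∈ g.D) ∧
      (∀ (U : Submodule (ZMod p) (K → ZMod p)) (f : Wd p K), g.Tame U → g.IsW U f →
        ∀ x : Pt d, inB L x → (∀ σ : Slot d, isE L (ed x σ) → ye p L j (ed x σ) ∈ U) →
          (open Classical in (∑ σ : Slot d, if isE L (ed x σ) then
            tau p σ * (f (ye p L j (ed x σ)) + c (ed x σ)) else 0) = if x = 0 then 1 else 0)) ∧
      ∀ w : ℕ, 100 * w ≤ L ^ (d - 2) →
        ∃ (Zs : Submodule (ZMod p) (K → ZMod p) → Finset (Ed d))
          (W : Submodule (ZMod p) (K → ZMod p) → ((Ed d → ZMod p) → ZMod p) → Wd p K),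
          ∀ U : Submodule (ZMod p) (K → ZMod p), (∀ y ∈ U, y ∈ g.D → nm y ≤ w) →
            (Zs U).card ≤ 2 * w * L ∧
            (∀ Φ : (Ed d → ZMod p) → ZMod p, (∀ z z', Φ (z + z') = Φ z + Φ z') →
              g.IsW U (W U Φ)) ∧
            ∀ U' : Submodule (ZMod p) (K → ZMod p), (∀ y ∈ U', y ∈ g.D → nm y ≤ w) → U ≤ U' →
              ∀ Φ Φ' : (Ed d → ZMod p) → ZMod p, (∀ z z', Φ (z + z') = Φ z + Φ z') →
                (∀ z z', Φ' (z + z') = Φ' z + Φ' z') →
                (∀ z, (∀ e, z e ≠ 0 → e ∈ Zs U) → Φ z = Φ' z) →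
                (∀ f : Pt d → ZMod p, 8 * {x | inB L x ∧ f x ≠ 0}.ncard < L ^ d →
                  (∀ e, cob L f e ≠ 0 → e ∈ Zs U ∨ e ∈ Zs U') → Φ' (cob L f) = f 0) →
                g.Agr U (W U Φ) (W U' Φ') :=
  Pool.Agent.H42.AC.grid_gad3 hd L hL j hj

end Pool.Agent.H6.AC
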