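import Pool.Agent.H6.AC.Kln

/-!
# The small line of a step, II

As `small_line` of `Kln`, without indices: the small lines of the rules ident, cover, unit and dist are fixed by the
stabiliser of ONE node; the addition rule is treated separately (`Sum3`).
-/

set_option autoImplicit false
set_option linter.unusedSectionVars false

namespace Pool.Agent.H6.AC

open Pool.Agent.H42.CS (Ax Atom Gate Circuit)
open Pool.Agent.H79.CQ (Gad Wd)
open Pool.Agent.H16.LE (Eng Img stN stL)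

/-- The rule `sum`: from `b₁` and `b₂` infer `a`. -/
def Sum3 {Rel : ℕ → Type} {P : Type} (C : Circuit Rel P) (b₁ b₂ a : C.N) : Prop :=
  ∃ (S₁ S₂ : Set (H42.CS.Lit C.N)) (A₁ A₂ A' : Set ℕ), C.gate b₁ = .sym A₁ S₁ ∧
    C.gate b₂ = .sym A₂ S₂ ∧ Disjoint S₁ S₂ ∧ C.gate a = .sym A' (S₁ ∪ S₂) ∧
    ∀ c₁ ∈ A₁, ∀ c₂ ∈ A₂, c₁ + c₂ ∈ A'

section

variable {Rel : ℕ → Type} {P : Type} {R : Circuit Rel P}

private theorem stL_of {G : Type} [Group G] (ρ : G →* Equiv.Perm P) {H : Subgroup G}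
    {X : Set (H42.CS.Lit R.N)} (h : ∀ g ∈ H, ∀ x ∈ X, Img R (ρ g) x.node x.node) :
    H ≤ stL R ρ X :=
  H16.LE.le_stL (C := R) ρ fun g hg x hx => ⟨x, hx, rfl, h g hg x hx⟩

private theorem img_self {g : P → P} {a : R.N} {A0 : Set ℕ} {S : Set (H42.CS.Lit R.N)}
    (ha : R.gate a = .sym A0 S) (h : Img R g a a) : H16.LE.ImgS R g S S := by
  obtain ⟨S', h1, h2⟩ := H16.LE.img_sym h ha
  rw [ha] at h1
  obtain ⟨-, h3⟩ := Gate.sym.inj h1
  rw [← h3] at h2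
  exact h2

open Classical in
private theorem bij_to {β X : Type} [Nonempty β] {F : Set β} {m : β → X} (hm : Set.InjOn m F)
    {b : X → X} (hb : Set.BijOn b (m '' F) (m '' F)) :
    ∃ φ : β → β, Set.BijOn φ F F ∧ ∀ z ∈ F, m (φ z) = b (m z) := by
  obtain ⟨φ, hφ⟩ : ∃ φ : β → β, ∀ z ∈ F, φ z ∈ F ∧ m (φ z) = b (m z) := by
    refine ⟨fun z => if h : ∃ z' ∈ F, m z' = b (m z) then h.choose else z, fun z hz => ?_⟩
    have h : ∃ z' ∈ F, m z' = b (m z) := hb.mapsTo (Set.mem_image_of_mem m hz)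
    simp only [dif_pos h]
    exact h.choose_spec
  refine ⟨φ, ⟨fun z hz => (hφ z hz).1, ?_, ?_⟩, fun z hz => (hφ z hz).2⟩
  · intro z hz w hw he
    have h1 : b (m z) = b (m w) := by rw [← (hφ z hz).2, ← (hφ w hw).2, he]
    exact hm hz hw (hb.injOn (Set.mem_image_of_mem m hz) (Set.mem_image_of_mem m hw) h1)
  · intro w hw
    obtain ⟨x, ⟨z, hz, rfl⟩, h1⟩ := hb.surjOn (Set.mem_image_of_mem m hw)
    refine ⟨z, hz, hm (hφ z hz).1 hw ?_⟩
    rw [(hφ z hz).2]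
    exact h1

private theorem bij_from {β X : Type} [Nonempty β] {F : Set β} {m : β → X} (hm : Set.InjOn m F)
    {φ : β → β} (hφ : Set.BijOn φ F F) :
    ∃ b : X → X, Set.BijOn b (m '' F) (m '' F) ∧ ∀ z ∈ F, b (m z) = m (φ z) := by
  have h1 := hm.leftInvOn_invFunOn
  refine ⟨fun y => m (φ (Function.invFunOn m F y)), ⟨?_, ?_, ?_⟩, fun z hz => ?_⟩
  · rintro _ ⟨z, hz, rfl⟩
    show m (φ (Function.invFunOn m F (m z))) ∈ m '' F
    rw [h1 hz]
    exact ⟨φ z, hφ.mapsTo hz, rfl⟩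
  · rintro _ ⟨z, hz, rfl⟩ _ ⟨w, hw, rfl⟩ he
    have he' : m (φ (Function.invFunOn m F (m z))) = m (φ (Function.invFunOn m F (m w))) := he
    rw [h1 hz, h1 hw] at he'
    rw [hφ.injOn hz hw (hm (hφ.mapsTo hz) (hφ.mapsTo hw) he')]
  · rintro _ ⟨w, hw, rfl⟩
    obtain ⟨z, hz, h2⟩ := hφ.surjOn hw
    refine ⟨m z, ⟨z, hz, rfl⟩, ?_⟩
    show m (φ (Function.invFunOn m F (m z))) = m w
    rw [h1 hz, h2]
  · show m (φ (Function.invFunOn m F (m z))) = m (φ z)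
    rw [h1 hz]

private theorem dist_phi {g : P → P} {F : Set (Set (H42.CS.Lit R.N))} {J : ℕ}
    {B : ℕ → Set (H42.CS.Lit R.N) → R.N} {u : ℕ → R.N} {A0 : ℕ → Set ℕ}
    (hB : ∀ j ≤ J, ∀ X ∈ F, R.gate (B j X) = .sym {j} X)
    (hu : ∀ j ≤ J, R.gate (u j) = .sym (A0 j) ((fun X => ⟨B j X, true⟩) '' F))
    (h0 : Img R g (u 0) (u 0)) :
    (∀ j ≤ J, Set.InjOn (fun X => (⟨B j X, true⟩ : H42.CS.Lit R.N)) F) ∧
    ∃ φ : Set (H42.CS.Lit R.N) → Set (H42.CS.Lit R.N), Set.BijOn φ F F ∧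
      ∀ X ∈ F, H16.LE.ImgS R g X (φ X) := by
  have hinj : ∀ j ≤ J, Set.InjOn (fun X => (⟨B j X, true⟩ : H42.CS.Lit R.N)) F := by
    intro j hj X hX Y hY he
    have h1 : B j X = B j Y := congrArg H42.CS.Lit.node he
    have h2 := hB j hj X hX
    rw [h1, hB j hj Y hY] at h2
    exact (Gate.sym.inj h2).2.symm
  refine ⟨hinj, ?_⟩
  obtain ⟨β, h1, -, h3⟩ := img_self (hu 0 (Nat.zero_le _)) h0
  obtain ⟨φ, hφ, hφ2⟩ := bij_to (hinj 0 (Nat.zero_le _)) h1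
  refine ⟨φ, hφ, ?_⟩
  intro X hX
  have h5 := h3 _ (Set.mem_image_of_mem (fun X => (⟨B 0 X, true⟩ : H42.CS.Lit R.N)) hX)
  rw [← hφ2 X hX] at h5
  obtain ⟨S', h6, h7⟩ := H16.LE.img_sym h5 (hB 0 (Nat.zero_le _) X hX)
  have h8 : R.gate (B 0 (φ X)) = .sym {0} S' := h6
  rw [hB 0 (Nat.zero_le _) (φ X) (hφ.mapsTo hX)] at h8
  rw [(Gate.sym.inj h8).2]
  exact h7

private theorem dist_img {g : P → P} {F : Set (Set (H42.CS.Lit R.N))} {J : ℕ}
    {B : ℕ → Set (H42.CS.Lit R.N) → R.N} {u : ℕ → R.N} {A0 : ℕ → Set ℕ}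
    (hB : ∀ j ≤ J, ∀ X ∈ F, R.gate (B j X) = .sym {j} X)
    (hu : ∀ j ≤ J, R.gate (u j) = .sym (A0 j) ((fun X => ⟨B j X, true⟩) '' F))
    (h0 : Img R g (u 0) (u 0)) {j : ℕ} (hj : j ≤ J) : Img R g (u j) (u j) := by
  obtain ⟨hinj, φ, hφ, h4⟩ := dist_phi hB hu h0
  obtain ⟨b, hb1, hb2⟩ := bij_from (hinj j hj) hφ
  refine H16.LE.img_of_sym (hu j hj) (hu j hj) ⟨b, hb1, ?_, ?_⟩
  · rintro _ ⟨X, hX, rfl⟩
    rw [hb2 X hX]
  · rintro _ ⟨X, hX, rfl⟩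
    rw [hb2 X hX]
    exact H16.LE.img_of_sym (hB j hj X hX) (hB j hj _ (hφ.mapsTo hX)) (h4 X hX)

open Classical in
private theorem union_img {g : P → P} {F : Set (Set (H42.CS.Lit R.N))} (hF : F.PairwiseDisjoint id)
    {φ : Set (H42.CS.Lit R.N) → Set (H42.CS.Lit R.N)} (hφ : Set.BijOn φ F F)
    (h : ∀ X ∈ F, H16.LE.ImgS R g X (φ X)) : H16.LE.ImgS R g (⋃₀ F) (⋃₀ F) := by
  have h' : ∀ X : Set (H42.CS.Lit R.N), ∃ β : H42.CS.Lit R.N → H42.CS.Lit R.N, X ∈ F →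
      Set.BijOn β X (φ X) ∧ (∀ x ∈ X, (β x).pos = x.pos) ∧ ∀ x ∈ X, Img R g x.node (β x).node := by
    intro X
    by_cases hX : X ∈ F
    · obtain ⟨β, hβ⟩ := h X hX
      exact ⟨β, fun _ => hβ⟩
    · exact ⟨id, fun h => absurd h hX⟩
  choose β hβ using h'
  have huni : ∀ {x : H42.CS.Lit R.N} {X Y : Set (H42.CS.Lit R.N)}, X ∈ F → Y ∈ F → x ∈ X → x ∈ Y →
      X = Y := by
    intro x X Y hX hY hx hy
    by_contra hne
    exact Set.disjoint_left.1 (hF hX hY hne) hx hy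
  have hs : ∀ x : H42.CS.Lit R.N, ∃ X : Set (H42.CS.Lit R.N), x ∈ ⋃₀ F → X ∈ F ∧ x ∈ X := by
    intro x
    by_cases hx : x ∈ ⋃₀ F
    · obtain ⟨X, hX, hxX⟩ := hx
      exact ⟨X, fun _ => ⟨hX, hxX⟩⟩
    · exact ⟨∅, fun h => absurd h hx⟩
  choose s hs using hs
  have key : ∀ {X : Set (H42.CS.Lit R.N)} {x : H42.CS.Lit R.N}, X ∈ F → x ∈ X →
      s x = X := fun hX hx => huni (hs _ ⟨_, hX, hx⟩).1 hX (hs _ ⟨_, hX, hx⟩).2 hx
  refine ⟨fun x => β (s x) x, ⟨?_, ?_, ?_⟩, ?_, ?_⟩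
  · rintro x ⟨X, hX, hx⟩
    show β (s x) x ∈ ⋃₀ F
    rw [key hX hx]
    exact ⟨φ X, hφ.mapsTo hX, (hβ X hX).1.mapsTo hx⟩
  · rintro x ⟨X, hX, hx⟩ y ⟨Y, hY, hy⟩ he
    have he' : β (s x) x = β (s y) y := he
    rw [key hX hx, key hY hy] at he'
    have h1 := (hβ X hX).1.mapsTo hx
    have h2 := (hβ Y hY).1.mapsTo hy
    rw [← he'] at h2
    have h3 : φ X = φ Y := huni (hφ.mapsTo hX) (hφ.mapsTo hY) h1 h2
    have h4 : X = Y := hφ.injOn hX hY h3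
    subst h4
    exact (hβ X hX).1.injOn hx hy he'
  · rintro y ⟨Y, hY, hy⟩
    obtain ⟨X, hX, rfl⟩ := hφ.surjOn hY
    obtain ⟨x, hx, rfl⟩ := (hβ X hX).1.surjOn hy
    refine ⟨x, ⟨X, hX, hx⟩, ?_⟩
    show β (s x) x = β X x
    rw [key hX hx]
  · rintro x ⟨X, hX, hx⟩
    show (β (s x) x).pos = x.pos
    rw [key hX hx]
    exact (hβ X hX).2.1 x hx
  · rintro x ⟨X, hX, hx⟩
    show Img R g x.node (β (s x) x).node
    rw [key hX hx]
    exact (hβ X hX).2.2 x hx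

end

theorem small_line2 {Rel : ℕ → Type} {P : Type} {T : Set (Ax Rel)} {C : Circuit Rel P}
    (A : Set C.N) {Pr : Set (Set (H42.CS.Lit C.N))} {Λ : Set (H42.CS.Lit C.N)}
    (hA : ∀ x ∈ Λ, (∃ A0 S, C.gate x.node = .sym A0 S) → x.node ∈ A)
    (h : H63.AC.Step T C Pr Λ) :
    FStep C Pr Λ ∨
      (∃ A0 ∈ T, ∃ v : Fin A0.k → P, ∀ x ∈ A0.inst v, ∃ a, C.gate a = .var x.1 ∧ ⟨a, x.2⟩ ∈ Λ) ∨
      (∃ v a b, C.gate a = .var v ∧ C.gate b = .var v ∧ ⟨a, true⟩ ∈ Λ ∧ ⟨b, false⟩ ∈ Λ) ∨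
      (∃ b₁ b₂ a, Cone C A b₁ ∧ Cone C A b₂ ∧ Cone C A a ∧ Sum3 (rstC C A) b₁ b₂ a ∧
        ⟨b₁, false⟩ ∈ Λ ∧ ⟨b₂, false⟩ ∈ Λ ∧ ⟨a, true⟩ ∈ Λ) ∨
      ∃ Λ' : Set (H42.CS.Lit C.N), Λ' ⊆ Λ ∧ (∀ x ∈ Λ', Cone C A x.node) ∧ LStep (rstC C A) Λ' ∧
        ∃ a0, ∀ {G : Type} [Group G] (ρ : G →* Equiv.Perm P),
          stN (rstC C A) ρ a0 ≤ stL (rstC C A) ρ Λ' := by
  classical
  have hcone : ∀ {x : H42.CS.Lit C.N}, x ∈ Λ → ∀ {A0 : Set ℕ} {S : Set (H42.CS.Lit C.N)},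
      C.gate x.node = .sym A0 S → Cone C A x.node := fun hx _ _ hg => Cone.mem (hA _ hx ⟨_, _, hg⟩)
  cases h with
  | @hyp A0 v hT hx => exact Or.inr (Or.inl ⟨A0, hT, v, hx⟩)
  | @ident a b hg ha hb =>
    rcases hga : C.gate a with v | S | ⟨A0, S⟩
    · exact Or.inr (Or.inr (Or.inl ⟨v, a, b, hga, hg.symm.trans hga, ha, hb⟩))
    · exact Or.inl (FStep.ident hga (hg.symm.trans hga) ha hb)
    · refine Or.inr (Or.inr (Or.inr (Or.inr ?_)))
      have hgb : C.gate b = .sym A0 S := hg.symm.trans hga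
      have ca : Cone C A a := hcone ha hga
      have cb : Cone C A b := hcone hb hgb
      refine ⟨{⟨a, true⟩, ⟨b, false⟩}, ?_, ?_, ?_, ?_⟩
      · rintro x (rfl | rfl)
        · exact ha
        · exact hb
      · rintro x (rfl | rfl)
        · exact ca
        · exact cb
      · exact LStep.ident (C := rstC C A) (a := a) (b := b)
          ((rstC_pos ca).trans (hg.trans (rstC_pos cb).symm)) (Or.inl rfl) (Or.inr rfl)
      · refine ⟨a, fun {G} _ ρ => stL_of (R := rstC C A) ρ fun g hg x hx => ?_⟩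
        have h1 : Img (rstC C A) (ρ g) a a := hg
        rcases hx with rfl | rfl
        · exact h1
        · exact H16.LE.img_of_sym ((rstC_pos cb).trans hgb) ((rstC_pos cb).trans hgb)
            (img_self (R := rstC C A) ((rstC_pos ca).trans hga) h1)
  | weak hΔ hsub => exact Or.inl (FStep.weak hΔ hsub)
  | cut h1 h2 => exact Or.inl (FStep.cut h1 h2)
  | andI hg ha hS => exact Or.inl (FStep.andI hg ha hS)
  | andE hg ha h1 => exact Or.inl (FStep.andE hg ha h1)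
  | @cover S h =>
    refine Or.inr (Or.inr (Or.inr (Or.inr ?_)))
    have h' : ∀ c : ℕ, ∃ (a : C.N) (A0 : Set ℕ) (b : Bool), c ≤ S.ncard →
        C.gate a = .sym A0 S ∧ (c ∈ A0 ↔ b = true) ∧ ⟨a, b⟩ ∈ Λ := by
      intro c
      by_cases hc : c ≤ S.ncard
      · obtain ⟨a, A0, b, h1⟩ := h c hc
        exact ⟨a, A0, b, fun _ => h1⟩
      · obtain ⟨a, A0, b, h1⟩ := h 0 (Nat.zero_le _)
        exact ⟨a, A0, b, fun h2 => absurd h2 hc⟩
    choose a A0 b hab using h'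
    have ca : ∀ c ≤ S.ncard, Cone C A (a c) := fun c hc =>
      hcone (x := ⟨a c, b c⟩) (hab c hc).2.2 (hab c hc).1
    have hR : ∀ c ≤ S.ncard, (rstC C A).gate (a c) = .sym (A0 c) S := fun c hc =>
      (rstC_pos (ca c hc)).trans (hab c hc).1
    refine ⟨{x | ∃ c ≤ S.ncard, x = ⟨a c, b c⟩}, ?_, ?_, ?_, ?_⟩
    · rintro x ⟨c, hc, rfl⟩
      exact (hab c hc).2.2
    · rintro x ⟨c, hc, rfl⟩
      exact ca c hc
    · exact LStep.cover (C := rstC C A) (S := S) fun c hc =>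
        ⟨a c, A0 c, b c, hR c hc, (hab c hc).2.1, ⟨c, hc, rfl⟩⟩
    · refine ⟨a 0, fun {G} _ ρ => stL_of (R := rstC C A) ρ fun g hg x hx => ?_⟩
      obtain ⟨c, hc, rfl⟩ := hx
      have h1 : Img (rstC C A) (ρ g) (a 0) (a 0) := hg
      exact H16.LE.img_of_sym (hR c hc) (hR c hc) (img_self (hR 0 (Nat.zero_le _)) h1)
  | @unit a A0 x hga ha hx =>
    refine Or.inr (Or.inr (Or.inr (Or.inr ?_)))
    have ca : Cone C A a := hcone (x := ⟨a, true⟩) ha hga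
    have cx : Cone C A x.node := Cone.child ca (by rw [hga]; exact Set.mem_singleton x)
    have hR : (rstC C A).gate a = .sym A0 {x} := (rstC_pos ca).trans hga
    rcases hx with ⟨h1, h2⟩ | ⟨h1, h2⟩
    · refine ⟨{⟨a, true⟩, x.neg}, ?_, ?_, ?_, ?_⟩
      · rintro y (rfl | rfl)
        · exact ha
        · exact h2
      · rintro y (rfl | rfl)
        · exact ca
        · exact cx
      · exact LStep.unit (C := rstC C A) (a := a) (x := x) hR (Or.inl rfl)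
          (Or.inl ⟨h1, Or.inr rfl⟩)
      · refine ⟨a, fun {G} _ ρ => stL_of (R := rstC C A) ρ fun g hg y hy => ?_⟩
        have h3 : Img (rstC C A) (ρ g) a a := hg
        obtain ⟨β, h4, -, h5⟩ := img_self (R := rstC C A) hR h3
        have h6 : β x = x := h4.mapsTo (Set.mem_singleton x)
        have h7 := h5 x (Set.mem_singleton x)
        rw [h6] at h7
        rcases hy with rfl | rfl
        · exact h3
        · exact h7
    · refine ⟨{⟨a, true⟩, x}, ?_, ?_, ?_, ?_⟩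
      · rintro y (rfl | rfl)
        · exact ha
        · exact h2
      · rintro y (rfl | rfl)
        · exact ca
        · exact cx
      · exact LStep.unit (C := rstC C A) (a := a) (x := x) hR (Or.inl rfl)
          (Or.inr ⟨h1, Or.inr rfl⟩)
      · refine ⟨a, fun {G} _ ρ => stL_of (R := rstC C A) ρ fun g hg y hy => ?_⟩
        have h3 : Img (rstC C A) (ρ g) a a := hg
        obtain ⟨β, h4, -, h5⟩ := img_self (R := rstC C A) hR h3
        have h6 : β x = x := h4.mapsTo (Set.mem_singleton x)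
        have h7 := h5 x (Set.mem_singleton x)
        rw [h6] at h7
        rcases hy with rfl | rfl
        · exact h3
        · exact h7
  | @sum S₁ S₂ a b₁ b₂ A₁ A₂ A' h1 h2 hd ha hc m1 m2 m3 =>
    refine Or.inr (Or.inr (Or.inr (Or.inl ?_)))
    have c1 : Cone C A b₁ := hcone (x := ⟨b₁, false⟩) m1 h1
    have c2 : Cone C A b₂ := hcone (x := ⟨b₂, false⟩) m2 h2
    have c3 : Cone C A a := hcone (x := ⟨a, true⟩) m3 ha
    exact ⟨b₁, b₂, a, c1, c2, c3, ⟨S₁, S₂, A₁, A₂, A', (rstC_pos c1).trans h1,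
      (rstC_pos c2).trans h2, hd, (rstC_pos c3).trans ha, hc⟩, m1, m2, m3⟩
  | @dist a F J0 B u A0 A' hF hJ0 hB hu ha ht huΛ haΛ =>
    refine Or.inr (Or.inr (Or.inr (Or.inr ?_)))
    have cu : ∀ j ≤ J0, Cone C A (u j) := fun j hj => hcone (x := ⟨u j, false⟩) (huΛ j hj) (hu j hj)
    have cB : ∀ j ≤ J0, ∀ X ∈ F, Cone C A (B j X) := by
      intro j hj X hX
      have h1 : (⟨B j X, true⟩ : H42.CS.Lit C.N) ∈ (C.gate (u j)).children := by
        rw [hu j hj]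
        exact ⟨X, hX, rfl⟩
      exact Cone.child (cu j hj) h1
    have ca : Cone C A a := hcone (x := ⟨a, true⟩) haΛ ha
    have hRu : ∀ j ≤ J0, (rstC C A).gate (u j) = .sym (A0 j) ((fun X => ⟨B j X, true⟩) '' F) :=
      fun j hj => (rstC_pos (cu j hj)).trans (hu j hj)
    have hRB : ∀ j ≤ J0, ∀ X ∈ F, (rstC C A).gate (B j X) = .sym {j} X :=
      fun j hj X hX => (rstC_pos (cB j hj X hX)).trans (hB j hj X hX)
    refine ⟨{x | (∃ j ≤ J0, x = ⟨u j, false⟩) ∨ x = ⟨a, true⟩}, ?_, ?_, ?_, ?_⟩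
    · rintro x (⟨j, hj, rfl⟩ | rfl)
      · exact huΛ j hj
      · exact haΛ
    · rintro x (⟨j, hj, rfl⟩ | rfl)
      · exact cu j hj
      · exact ca
    · exact LStep.dist (C := rstC C A) (a := a) hF hJ0 hRB hRu ((rstC_pos ca).trans ha) ht
        (fun j hj => Or.inl ⟨j, hj, rfl⟩) (Or.inr rfl)
    · refine ⟨u 0, fun {G} _ ρ => stL_of (R := rstC C A) ρ fun g hg x hx => ?_⟩
      have h0 : Img (rstC C A) (ρ g) (u 0) (u 0) := hg
      rcases hx with ⟨j, hj, rfl⟩ | rfl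
      · exact dist_img (R := rstC C A) hRB hRu h0 hj
      · obtain ⟨-, φ, hφ, h4⟩ := dist_phi (R := rstC C A) hRB hRu h0
        exact H16.LE.img_of_sym ((rstC_pos ca).trans ha) ((rstC_pos ca).trans ha)
          (union_img (R := rstC C A) hF hφ h4)

end Pool.Agent.H6.AC
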