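import Pool.Agent.H16.LE.Snd

/-!
# Soundness of the binary addition rule
-/

set_option autoImplicit false
set_option linter.unusedSectionVars false
set_option linter.unusedVariables false

namespace Pool.Agent.H6.AC

open Pool.Agent.H42.CS (Ax Atom Gate Circuit Step Refutation)
open Pool.Agent.H79.CQ (Gad Wd)
open Pool.Agent.H16.LE (Eng)

theorem sound_sum2 {p : ℕ} [hp : Fact p.Prime] {Rel : ℕ → Type} {P K G : Type} [Fintype K]
    [Group G] (E : Eng p Rel P K G) {Λ S₁ S₂ : Set (H42.CS.Lit E.C.N)} (hΛ : E.Vl Λ ∈ E.fam)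
    {a b₁ b₂ : E.C.N} {A₁ A₂ A' : Set ℕ} (h1 : E.C.gate b₁ = .sym A₁ S₁)
    (h2 : E.C.gate b₂ = .sym A₂ S₂) (hd : Disjoint S₁ S₂) (ha : E.C.gate a = .sym A' (S₁ ∪ S₂))
    (hc : ∀ c₁ ∈ A₁, ∀ c₂ ∈ A₂, c₁ + c₂ ∈ A') (m1 : ⟨b₁, false⟩ ∈ Λ) (m2 : ⟨b₂, false⟩ ∈ Λ)
    (m3 : ⟨a, true⟩ ∈ Λ) : E.Tru Λ := by
  have hfin : Finite (H42.CS.Lit E.C.N) :=
    Finite.of_injective (fun x : H42.CS.Lit E.C.N => (x.node, x.pos)) (by
      intro x y h
      exact H42.CS.Lit.ext (congrArg Prod.fst h) (congrArg Prod.snd h))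
  refine E.Tru_of hΛ fun f hf => ?_
  obtain ⟨U, hU⟩ : ∃ U, U = E.Vl Λ ⊔ E.Vn b₁ ⊔ E.Vn b₂ ⊔ E.Vn a := ⟨_, rfl⟩
  have hU1 : E.Vl Λ ≤ U := by
    rw [hU]
    exact le_sup_left.trans (le_sup_left.trans le_sup_left)
  have hU2 : E.Vn b₁ ≤ U := by
    rw [hU]
    exact le_sup_right.trans (le_sup_left.trans le_sup_left)
  have hU3 : E.Vn b₂ ≤ U := by
    rw [hU]
    exact le_sup_right.trans le_sup_left
  have hU4 : E.Vn a ≤ U := by
    rw [hU]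
    exact le_sup_right
  have hS4 : E.Sm 4 U := by
    rw [hU]
    exact E.Sm_sup (E.Sm_sup (E.Sm_sup (E.Sm_mem hΛ) (E.Sm_Vn b₁)) (E.Sm_Vn b₂)) (E.Sm_Vn a)
  have hT : E.toGad.Tame U := E.Sm_tame (E.Sm_mono (by norm_num) le_rfl hS4)
  have hS5 : E.Sm 5 U := E.Sm_mono (by norm_num) le_rfl hS4
  obtain ⟨f', hf', ha'⟩ := E.toGad.ext_exists hU1 hT hf
  by_cases hv1 : E.val b₁ f'
  · by_cases hv2 : E.val b₂ f'
    · have k1 := (E.val_sym_iff h1 hU2 hS5 hf').1 hv1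
      have k2 := (E.val_sym_iff h2 hU3 hS5 hf').1 hv2
      have k3 : E.cnt (S₁ ∪ S₂) U f' = E.cnt S₁ U f' + E.cnt S₂ U f' := by
        unfold Eng.cnt
        rw [← Set.ncard_union_eq]
        · congr 1
          ext x
          simp only [Set.mem_union, Set.mem_ofPred_eq]
          tauto
        · rw [Set.disjoint_left]
          rintro x ⟨h3, -⟩ ⟨h4, -⟩
          exact Set.disjoint_left.1 hd h3 h4
      refine ⟨U, f', hU1, hS5, hf', ha', ⟨a, true⟩, m3, ?_⟩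
      refine (E.tr_ext (x := ⟨a, true⟩) hU4 hT hf').2 ?_
      show E.val a f' ↔ true = true
      rw [E.val_sym_iff ha hU4 hS5 hf', k3]
      exact ⟨fun _ => rfl, fun _ => hc _ k1 _ k2⟩
    · refine ⟨U, f', hU1, hS5, hf', ha', ⟨b₂, false⟩, m2, ?_⟩
      refine (E.tr_ext (x := ⟨b₂, false⟩) hU3 hT hf').2 ?_
      show E.val b₂ f' ↔ false = true
      exact ⟨fun h => absurd h hv2, fun h => absurd h (by decide)⟩
  · refine ⟨U, f', hU1, hS5, hf', ha', ⟨b₁, false⟩, m1, ?_⟩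
    refine (E.tr_ext (x := ⟨b₁, false⟩) hU2 hT hf').2 ?_
    show E.val b₁ f' ↔ false = true
    exact ⟨fun h => absurd h hv1, fun h => absurd h (by decide)⟩

end Pool.Agent.H6.AC
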