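import Pool.Agent.H6.AC.Rsc
import Pool.Agent.H6.AC.Frm
import Pool.Agent.H6.AC.Sum2
import Pool.Agent.H63.AC.Defs

/-!
# The small line of a step

`LStep C Λ`: `Λ` follows in the circuit `C` by one of the rules ident, cover, unit, sum, dist (without
premises).

PROOF of `lstep_tru`: `E.sound_ident`, `E.sound_cover`, `E.sound_unit`, `sound_sum2`, `E.sound_dist` (`H16/LE/Ru1`,
`Ru2`, `Ru3`).

PROOF of `small_line`. Cases on the step. weak, cut, andI, andE, and ident for conjunctions: `FStep`. hyp: second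
case. ident for variables: third case. In the other cases `Λ'` is the set of the members of `Λ` named in the
rule; all nodes named there are in the cone (members of `Λ` which are symmetric gates are in `A`, and children of
cone nodes are in the cone), so their labels in `rstC C A` are those in `C` (`rstC_pos`). INDEX (all stabilisers in
`rstC C A`; `Subgroup.index_inf_le`; a larger subgroup has a smaller index, `G` is finite):
* ident (`gate a = gate b = sym A0 S`): `Λ' = {(a, true), (b, false)}`, `stN a ⊓ stN b ≤ stL Λ'` (`le_stL`).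
* unit: `Λ' = {(a, true), x.neg}` or `{(a, true), x}`: `stN a ⊓ stN x.node ≤ stL Λ'`.
* sum: `Λ' = {(b₁, false), (b₂, false), (a, true)}`: `stN b₁ ⊓ stN b₂ ⊓ stN a ≤ stL Λ'`.
* cover: choose for every `c ≤ |S|` the node `a c`; `Λ'` = the set of the `(a c, b c)`. `stN (a 0) ≤ stL Λ'`: for
  `g ∈ stN (a 0)`: `ImgS g S S` (`img_sym`), so `Img g (a c) (a c)` (`img_of_sym`).
* dist: `Λ' = {(u j, false) : j ≤ J} ∪ {(a, true)}`. `stN (u 0) ⊓ stN a ≤ stL Λ'`: for `g ∈ stN (u 0)` the bijection of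
  the set `{(B 0 X, true) : X ∈ F}` (`img_sym`) gives a bijection `φ` of `F` with `Img g (B 0 X) (B 0 (φ X))`
  (`B j` is injective on `F`: the label of `B j X` is `sym {j} X`), so `ImgS g X (φ X)`, `Img g (B j X) (B j (φ X))`
  (`img_of_sym`), `Img g (u j) (u j)`.
-/

set_option autoImplicit false
set_option linter.unusedSectionVars false

namespace Pool.Agent.H6.AC

open Pool.Agent.H42.CS (Ax Atom Gate Circuit)
open Pool.Agent.H79.CQ (Gad Wd)
open Pool.Agent.H16.LE (Eng Img stN stL)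

/-- The local rules, without premises. -/
inductive LStep {Rel : ℕ → Type} {P : Type} (C : Circuit Rel P) : Set (H42.CS.Lit C.N) → Prop
  | ident {Λ : Set (H42.CS.Lit C.N)} {a b : C.N} : C.gate a = C.gate b → ⟨a, true⟩ ∈ Λ →
      ⟨b, false⟩ ∈ Λ → LStep C Λ
  | cover {Λ S : Set (H42.CS.Lit C.N)} : (∀ c ≤ S.ncard, ∃ (a : C.N) (A : Set ℕ) (b : Bool),
      C.gate a = .sym A S ∧ (c ∈ A ↔ b = true) ∧ ⟨a, b⟩ ∈ Λ) → LStep C Λ
  | unit {Λ : Set (H42.CS.Lit C.N)} {a : C.N} {A : Set ℕ} {x : H42.CS.Lit C.N} :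
      C.gate a = .sym A {x} → ⟨a, true⟩ ∈ Λ → (1 ∈ A ∧ x.neg ∈ Λ) ∨ (0 ∈ A ∧ x ∈ Λ) → LStep C Λ
  | sum {Λ S₁ S₂ : Set (H42.CS.Lit C.N)} {a b₁ b₂ : C.N} {A₁ A₂ A' : Set ℕ} :
      C.gate b₁ = .sym A₁ S₁ → C.gate b₂ = .sym A₂ S₂ → Disjoint S₁ S₂ →
      C.gate a = .sym A' (S₁ ∪ S₂) → (∀ c₁ ∈ A₁, ∀ c₂ ∈ A₂, c₁ + c₂ ∈ A') →
      ⟨b₁, false⟩ ∈ Λ → ⟨b₂, false⟩ ∈ Λ → ⟨a, true⟩ ∈ Λ → LStep C Λ
  | dist {Λ : Set (H42.CS.Lit C.N)} {a : C.N} {F : Set (Set (H42.CS.Lit C.N))} {J : ℕ}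
      {B : ℕ → Set (H42.CS.Lit C.N) → C.N} {u : ℕ → C.N} {A : ℕ → Set ℕ} {A' : Set ℕ} :
      F.PairwiseDisjoint id → (∀ X ∈ F, X.ncard ≤ J) →
      (∀ j ≤ J, ∀ X ∈ F, C.gate (B j X) = .sym {j} X) →
      (∀ j ≤ J, C.gate (u j) = .sym (A j) ((fun X => ⟨B j X, true⟩) '' F)) →
      C.gate a = .sym A' (⋃₀ F) →
      (∀ t : ℕ → ℕ, (∀ j ≤ J, t j ∈ A j) → ∑ j ∈ Finset.range (J + 1), t j = F.ncard →
        ∑ j ∈ Finset.range (J + 1), j * t j ∈ A') →
      (∀ j ≤ J, ⟨u j, false⟩ ∈ Λ) → ⟨a, true⟩ ∈ Λ → LStep C Λ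

theorem lstep_tru {p : ℕ} [hp : Fact p.Prime] {Rel : ℕ → Type} {P K G : Type} [Fintype K]
    [Group G] (E : Eng p Rel P K G) {Λ : Set (H42.CS.Lit E.C.N)} (hΛ : E.Vl Λ ∈ E.fam)
    (h : LStep E.C Λ) : E.Tru Λ := by
  cases h with
  | ident hg ha hb => exact E.sound_ident hΛ hg ha hb
  | cover h => exact E.sound_cover hΛ h
  | unit hg ha hx => exact E.sound_unit hΛ hg ha hx
  | sum h1 h2 hd ha hc m1 m2 m3 => exact sound_sum2 E hΛ h1 h2 hd ha hc m1 m2 m3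
  | dist hF hJ hB hu ha ht huΛ haΛ => exact E.sound_dist hΛ hF hJ hB hu ha ht huΛ haΛ

section

variable {Rel : ℕ → Type} {P : Type} {R : Circuit Rel P}

private theorem stL_of {G : Type} [Group G] (ρ : G →* Equiv.Perm P) {H : Subgroup G}
    {X : Set (H42.CS.Lit R.N)} (h : ∀ g ∈ H, ∀ x ∈ X, Img R (ρ g) x.node x.node) :
    H ≤ stL R ρ X :=
  H16.LE.le_stL (C := R) ρ fun g hg x hx => ⟨x, hx, rfl, h g hg x hx⟩

private theorem idx3 {G : Type} [Group G] [Finite G] (ρ : G →* Equiv.Perm P) {J : ℕ}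
    (hJ : ∀ a, (stN R ρ a).index ≤ J) {X : Set (H42.CS.Lit R.N)} {a b c : R.N}
    (h : stN R ρ a ⊓ stN R ρ b ⊓ stN R ρ c ≤ stL R ρ X) : (stL R ρ X).index ≤ J ^ 3 := by
  have h1 : (stL R ρ X).index ≤ (stN R ρ a ⊓ stN R ρ b ⊓ stN R ρ c).index :=
    Nat.le_of_dvd (Nat.pos_of_ne_zero Subgroup.index_ne_zero_of_finite) (Subgroup.index_dvd_of_le h)
  have h2 : (stN R ρ a ⊓ stN R ρ b ⊓ stN R ρ c).index ≤
      (stN R ρ a ⊓ stN R ρ b).index * (stN R ρ c).index := Subgroup.index_inf_le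
  have h3 : (stN R ρ a ⊓ stN R ρ b).index ≤ (stN R ρ a).index * (stN R ρ b).index :=
    Subgroup.index_inf_le
  calc (stL R ρ X).index ≤ (stN R ρ a ⊓ stN R ρ b).index * (stN R ρ c).index := h1.trans h2
    _ ≤ ((stN R ρ a).index * (stN R ρ b).index) * (stN R ρ c).index :=
      Nat.mul_le_mul_right _ h3
    _ ≤ (J * J) * J := Nat.mul_le_mul (Nat.mul_le_mul (hJ a) (hJ b)) (hJ c)
    _ = J ^ 3 := by ring

private theorem img_self {g : P → P} {a : R.N} {A0 : Set ℕ} {S : Set (H42.CS.Lit R.N)}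
    (ha : R.gate a = .sym A0 S) (h : Img R g a a) : H16.LE.ImgS R g S S := by
  obtain ⟨S', h1, h2⟩ := H16.LE.img_sym h ha
  rw [ha] at h1
  obtain ⟨-, h3⟩ := Gate.sym.inj h1
  rw [← h3] at h2
  exact h2

open Classical in
private theorem bij_to {β X : Type} [Nonempty β] {F : Set β} {m : β → X} (hm : Set.InjOn m F)
    {b : X → X} (hb : Set.BijOn b (m '' F) (m '' F)) :
    ∃ φ : β → β, Set.BijOn φ F F ∧ ∀ z ∈ F, m (φ z) = b (m z) := by
  obtain ⟨φ, hφ⟩ : ∃ φ : β → β, ∀ z ∈ F, φ z ∈ F ∧ m (φ z) = b (m z) := by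
    refine ⟨fun z => if h : ∃ z' ∈ F, m z' = b (m z) then h.choose else z, fun z hz => ?_⟩
    have h : ∃ z' ∈ F, m z' = b (m z) := hb.mapsTo (Set.mem_image_of_mem m hz)
    simp only [dif_pos h]
    exact h.choose_spec
  refine ⟨φ, ⟨fun z hz => (hφ z hz).1, ?_, ?_⟩, fun z hz => (hφ z hz).2⟩
  · intro z hz w hw he
    have h1 : b (m z) = b (m w) := by rw [← (hφ z hz).2, ← (hφ w hw).2, he]
    exact hm hz hw (hb.injOn (Set.mem_image_of_mem m hz) (Set.mem_image_of_mem m hw) h1)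
  · intro w hw
    obtain ⟨x, ⟨z, hz, rfl⟩, h1⟩ := hb.surjOn (Set.mem_image_of_mem m hw)
    refine ⟨z, hz, hm (hφ z hz).1 hw ?_⟩
    rw [(hφ z hz).2]
    exact h1

private theorem bij_from {β X : Type} [Nonempty β] {F : Set β} {m : β → X} (hm : Set.InjOn m F)
    {φ : β → β} (hφ : Set.BijOn φ F F) :
    ∃ b : X → X, Set.BijOn b (m '' F) (m '' F) ∧ ∀ z ∈ F, b (m z) = m (φ z) := by
  have h1 := hm.leftInvOn_invFunOn
  refine ⟨fun y => m (φ (Function.invFunOn m F y)), ⟨?_, ?_, ?_⟩, fun z hz => ?_⟩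
  · rintro _ ⟨z, hz, rfl⟩
    show m (φ (Function.invFunOn m F (m z))) ∈ m '' F
    rw [h1 hz]
    exact ⟨φ z, hφ.mapsTo hz, rfl⟩
  · rintro _ ⟨z, hz, rfl⟩ _ ⟨w, hw, rfl⟩ he
    have he' : m (φ (Function.invFunOn m F (m z))) = m (φ (Function.invFunOn m F (m w))) := he
    rw [h1 hz, h1 hw] at he'
    rw [hφ.injOn hz hw (hm (hφ.mapsTo hz) (hφ.mapsTo hw) he')]
  · rintro _ ⟨w, hw, rfl⟩
    obtain ⟨z, hz, h2⟩ := hφ.surjOn hw
    refine ⟨m z, ⟨z, hz, rfl⟩, ?_⟩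
    show m (φ (Function.invFunOn m F (m z))) = m w
    rw [h1 hz, h2]
  · show m (φ (Function.invFunOn m F (m z))) = m (φ z)
    rw [h1 hz]

private theorem dist_img {g : P → P} {F : Set (Set (H42.CS.Lit R.N))} {J : ℕ}
    {B : ℕ → Set (H42.CS.Lit R.N) → R.N} {u : ℕ → R.N} {A0 : ℕ → Set ℕ}
    (hB : ∀ j ≤ J, ∀ X ∈ F, R.gate (B j X) = .sym {j} X)
    (hu : ∀ j ≤ J, R.gate (u j) = .sym (A0 j) ((fun X => ⟨B j X, true⟩) '' F))
    (h0 : Img R g (u 0) (u 0)) {j : ℕ} (hj : j ≤ J) : Img R g (u j) (u j) := by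
  have hinj : ∀ j ≤ J, Set.InjOn (fun X => (⟨B j X, true⟩ : H42.CS.Lit R.N)) F := by
    intro j hj X hX Y hY he
    have h1 : B j X = B j Y := congrArg H42.CS.Lit.node he
    have h2 := hB j hj X hX
    rw [h1, hB j hj Y hY] at h2
    exact (Gate.sym.inj h2).2.symm
  obtain ⟨β, h1, -, h3⟩ := img_self (hu 0 (Nat.zero_le _)) h0
  obtain ⟨φ, hφ, hφ2⟩ := bij_to (hinj 0 (Nat.zero_le _)) h1
  have h4 : ∀ X ∈ F, H16.LE.ImgS R g X (φ X) := by
    intro X hX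
    have h5 := h3 _ (Set.mem_image_of_mem (fun X => (⟨B 0 X, true⟩ : H42.CS.Lit R.N)) hX)
    rw [← hφ2 X hX] at h5
    obtain ⟨S', h6, h7⟩ := H16.LE.img_sym h5 (hB 0 (Nat.zero_le _) X hX)
    have h8 : R.gate (B 0 (φ X)) = .sym {0} S' := h6
    rw [hB 0 (Nat.zero_le _) (φ X) (hφ.mapsTo hX)] at h8
    rw [(Gate.sym.inj h8).2]
    exact h7
  obtain ⟨b, hb1, hb2⟩ := bij_from (hinj j hj) hφ
  refine H16.LE.img_of_sym (hu j hj) (hu j hj) ⟨b, hb1, ?_, ?_⟩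
  · rintro _ ⟨X, hX, rfl⟩
    rw [hb2 X hX]
  · rintro _ ⟨X, hX, rfl⟩
    rw [hb2 X hX]
    exact H16.LE.img_of_sym (hB j hj X hX) (hB j hj _ (hφ.mapsTo hX)) (h4 X hX)

end

theorem small_line {Rel : ℕ → Type} {P : Type} {T : Set (Ax Rel)} {C : Circuit Rel P}
    (A : Set C.N) {Pr : Set (Set (H42.CS.Lit C.N))} {Λ : Set (H42.CS.Lit C.N)}
    (hA : ∀ x ∈ Λ, (∃ A0 S, C.gate x.node = .sym A0 S) → x.node ∈ A)
    (h : H63.AC.Step T C Pr Λ) :
    FStep C Pr Λ ∨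
      (∃ A0 ∈ T, ∃ v : Fin A0.k → P, ∀ x ∈ A0.inst v, ∃ a, C.gate a = .var x.1 ∧ ⟨a, x.2⟩ ∈ Λ) ∨
      (∃ v a b, C.gate a = .var v ∧ C.gate b = .var v ∧ ⟨a, true⟩ ∈ Λ ∧ ⟨b, false⟩ ∈ Λ) ∨
      ∃ Λ' : Set (H42.CS.Lit C.N), Λ' ⊆ Λ ∧ (∀ x ∈ Λ', Cone C A x.node) ∧ LStep (rstC C A) Λ' ∧
        ∀ {G : Type} [Group G] [Finite G] (ρ : G →* Equiv.Perm P) (J : ℕ),
          (∀ a, (stN (rstC C A) ρ a).index ≤ J) → 1 ≤ J →
          (stL (rstC C A) ρ Λ').index ≤ J ^ 3 := by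
  classical
  have hcone : ∀ {x : H42.CS.Lit C.N}, x ∈ Λ → ∀ {A0 : Set ℕ} {S : Set (H42.CS.Lit C.N)},
      C.gate x.node = .sym A0 S → Cone C A x.node := fun hx _ _ hg => Cone.mem (hA _ hx ⟨_, _, hg⟩)
  cases h with
  | @hyp A0 v hT hx => exact Or.inr (Or.inl ⟨A0, hT, v, hx⟩)
  | @ident a b hg ha hb =>
    rcases hga : C.gate a with v | S | ⟨A0, S⟩
    · exact Or.inr (Or.inr (Or.inl ⟨v, a, b, hga, hg.symm.trans hga, ha, hb⟩))
    · exact Or.inl (FStep.ident hga (hg.symm.trans hga) ha hb)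
    · refine Or.inr (Or.inr (Or.inr ?_))
      have hgb : C.gate b = .sym A0 S := hg.symm.trans hga
      have ca : Cone C A a := hcone ha hga
      have cb : Cone C A b := hcone hb hgb
      refine ⟨{⟨a, true⟩, ⟨b, false⟩}, ?_, ?_, ?_, ?_⟩
      · rintro x (rfl | rfl)
        · exact ha
        · exact hb
      · rintro x (rfl | rfl)
        · exact ca
        · exact cb
      · exact LStep.ident (C := rstC C A) (a := a) (b := b)
          ((rstC_pos ca).trans (hg.trans (rstC_pos cb).symm)) (Or.inl rfl) (Or.inr rfl)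
      · intro G _ _ ρ J hJ _
        refine idx3 (R := rstC C A) ρ hJ (a := a) (b := b) (c := b) (stL_of ρ fun g hg x hx => ?_)
        rcases hx with rfl | rfl
        · exact hg.1.1
        · exact hg.1.2
  | weak hΔ hsub => exact Or.inl (FStep.weak hΔ hsub)
  | cut h1 h2 => exact Or.inl (FStep.cut h1 h2)
  | andI hg ha hS => exact Or.inl (FStep.andI hg ha hS)
  | andE hg ha h1 => exact Or.inl (FStep.andE hg ha h1)
  | @cover S h =>
    refine Or.inr (Or.inr (Or.inr ?_))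
    have h' : ∀ c : ℕ, ∃ (a : C.N) (A0 : Set ℕ) (b : Bool), c ≤ S.ncard →
        C.gate a = .sym A0 S ∧ (c ∈ A0 ↔ b = true) ∧ ⟨a, b⟩ ∈ Λ := by
      intro c
      by_cases hc : c ≤ S.ncard
      · obtain ⟨a, A0, b, h1⟩ := h c hc
        exact ⟨a, A0, b, fun _ => h1⟩
      · obtain ⟨a, A0, b, h1⟩ := h 0 (Nat.zero_le _)
        exact ⟨a, A0, b, fun h2 => absurd h2 hc⟩
    choose a A0 b hab using h'
    have ca : ∀ c ≤ S.ncard, Cone C A (a c) := fun c hc =>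
      hcone (x := ⟨a c, b c⟩) (hab c hc).2.2 (hab c hc).1
    have hR : ∀ c ≤ S.ncard, (rstC C A).gate (a c) = .sym (A0 c) S := fun c hc =>
      (rstC_pos (ca c hc)).trans (hab c hc).1
    refine ⟨{x | ∃ c ≤ S.ncard, x = ⟨a c, b c⟩}, ?_, ?_, ?_, ?_⟩
    · rintro x ⟨c, hc, rfl⟩
      exact (hab c hc).2.2
    · rintro x ⟨c, hc, rfl⟩
      exact ca c hc
    · exact LStep.cover (C := rstC C A) (S := S) fun c hc =>
        ⟨a c, A0 c, b c, hR c hc, (hab c hc).2.1, ⟨c, hc, rfl⟩⟩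
    · intro G _ _ ρ J hJ _
      refine idx3 (R := rstC C A) ρ hJ (a := a 0) (b := a 0) (c := a 0)
        (stL_of ρ fun g hg x hx => ?_)
      obtain ⟨c, hc, rfl⟩ := hx
      have h1 : Img (rstC C A) (ρ g) (a 0) (a 0) := hg.1.1
      exact H16.LE.img_of_sym (hR c hc) (hR c hc) (img_self (hR 0 (Nat.zero_le _)) h1)
  | @unit a A0 x hga ha hx =>
    refine Or.inr (Or.inr (Or.inr ?_))
    have ca : Cone C A a := hcone (x := ⟨a, true⟩) ha hga
    have cx : Cone C A x.node := Cone.child ca (by rw [hga]; exact Set.mem_singleton x)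
    have hR : (rstC C A).gate a = .sym A0 {x} := (rstC_pos ca).trans hga
    rcases hx with ⟨h1, h2⟩ | ⟨h1, h2⟩
    · refine ⟨{⟨a, true⟩, x.neg}, ?_, ?_, ?_, ?_⟩
      · rintro y (rfl | rfl)
        · exact ha
        · exact h2
      · rintro y (rfl | rfl)
        · exact ca
        · exact cx
      · exact LStep.unit (C := rstC C A) (a := a) (x := x) hR (Or.inl rfl)
          (Or.inl ⟨h1, Or.inr rfl⟩)
      · intro G _ _ ρ J hJ _
        refine idx3 (R := rstC C A) ρ hJ (a := a) (b := x.node) (c := x.node)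
          (stL_of ρ fun g hg y hy => ?_)
        rcases hy with rfl | rfl
        · exact hg.1.1
        · exact hg.1.2
    · refine ⟨{⟨a, true⟩, x}, ?_, ?_, ?_, ?_⟩
      · rintro y (rfl | rfl)
        · exact ha
        · exact h2
      · rintro y (rfl | rfl)
        · exact ca
        · exact cx
      · exact LStep.unit (C := rstC C A) (a := a) (x := x) hR (Or.inl rfl)
          (Or.inr ⟨h1, Or.inr rfl⟩)
      · intro G _ _ ρ J hJ _
        refine idx3 (R := rstC C A) ρ hJ (a := a) (b := x.node) (c := x.node)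
          (stL_of ρ fun g hg y hy => ?_)
        rcases hy with rfl | rfl
        · exact hg.1.1
        · exact hg.1.2
  | @sum S₁ S₂ a b₁ b₂ A₁ A₂ A' h1 h2 hd ha hc m1 m2 m3 =>
    refine Or.inr (Or.inr (Or.inr ?_))
    have c1 : Cone C A b₁ := hcone (x := ⟨b₁, false⟩) m1 h1
    have c2 : Cone C A b₂ := hcone (x := ⟨b₂, false⟩) m2 h2
    have c3 : Cone C A a := hcone (x := ⟨a, true⟩) m3 ha
    refine ⟨{⟨b₁, false⟩, ⟨b₂, false⟩, ⟨a, true⟩}, ?_, ?_, ?_, ?_⟩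
    · rintro y (rfl | rfl | rfl)
      · exact m1
      · exact m2
      · exact m3
    · rintro y (rfl | rfl | rfl)
      · exact c1
      · exact c2
      · exact c3
    · exact LStep.sum (C := rstC C A) (a := a) (b₁ := b₁) (b₂ := b₂)
        ((rstC_pos c1).trans h1) ((rstC_pos c2).trans h2) hd ((rstC_pos c3).trans ha) hc
        (Or.inl rfl) (Or.inr (Or.inl rfl)) (Or.inr (Or.inr rfl))
    · intro G _ _ ρ J hJ _
      refine idx3 (R := rstC C A) ρ hJ (a := b₁) (b := b₂) (c := a)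
        (stL_of ρ fun g hg y hy => ?_)
      rcases hy with rfl | rfl | rfl
      · exact hg.1.1
      · exact hg.1.2
      · exact hg.2
  | @dist a F J0 B u A0 A' hF hJ0 hB hu ha ht huΛ haΛ =>
    refine Or.inr (Or.inr (Or.inr ?_))
    have cu : ∀ j ≤ J0, Cone C A (u j) := fun j hj => hcone (x := ⟨u j, false⟩) (huΛ j hj) (hu j hj)
    have cB : ∀ j ≤ J0, ∀ X ∈ F, Cone C A (B j X) := by
      intro j hj X hX
      have h1 : (⟨B j X, true⟩ : H42.CS.Lit C.N) ∈ (C.gate (u j)).children := by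
        rw [hu j hj]
        exact ⟨X, hX, rfl⟩
      exact Cone.child (cu j hj) h1
    have ca : Cone C A a := hcone (x := ⟨a, true⟩) haΛ ha
    have hRu : ∀ j ≤ J0, (rstC C A).gate (u j) = .sym (A0 j) ((fun X => ⟨B j X, true⟩) '' F) :=
      fun j hj => (rstC_pos (cu j hj)).trans (hu j hj)
    have hRB : ∀ j ≤ J0, ∀ X ∈ F, (rstC C A).gate (B j X) = .sym {j} X :=
      fun j hj X hX => (rstC_pos (cB j hj X hX)).trans (hB j hj X hX)
    refine ⟨{x | (∃ j ≤ J0, x = ⟨u j, false⟩) ∨ x = ⟨a, true⟩}, ?_, ?_, ?_, ?_⟩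
    · rintro x (⟨j, hj, rfl⟩ | rfl)
      · exact huΛ j hj
      · exact haΛ
    · rintro x (⟨j, hj, rfl⟩ | rfl)
      · exact cu j hj
      · exact ca
    · exact LStep.dist (C := rstC C A) (a := a) hF hJ0 hRB hRu ((rstC_pos ca).trans ha) ht
        (fun j hj => Or.inl ⟨j, hj, rfl⟩) (Or.inr rfl)
    · intro G _ _ ρ J hJ _
      refine idx3 (R := rstC C A) ρ hJ (a := u 0) (b := a) (c := a)
        (stL_of ρ fun g hg x hx => ?_)
      rcases hx with ⟨j, hj, rfl⟩ | rfl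
      · exact dist_img (R := rstC C A) hRB hRu hg.1.1 hj
      · exact hg.1.2

end Pool.Agent.H6.AC
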