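import Pool.Agent.H6.AC.Clb
import Pool.Agent.H6.AC.Frm

/-!
# The logic core

An evaluation of the base nodes `Bs` by matchings (of height `4 t`) and local truth of all other rules
refute a set of lines whose members are built in depth `d` from the base nodes.
-/

set_option autoImplicit false
set_option linter.unusedSectionVars false

namespace Pool.Agent.H6.AC

open Pool.Agent.H63.YL (PM dm)
open Pool.Agent.H42.CS (Ax Atom Gate Circuit Step Refutation)

variable {Rel : ℕ → Type} {Pt : Type}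

/-- Built in depth `d` from the nodes in `Bs`. -/
def BltN (C : Circuit Rel Pt) (Bs : Set C.N) : ℕ → C.N → Prop
  | 0, a => a ∈ Bs
  | d + 1, a => a ∈ Bs ∨ ∃ S, C.gate a = .and S ∧ ∀ x ∈ S, BltN C Bs d x.node

/-- the values of the nodes of `C` as values in `C.N ⊕ lines` -/
def RX {C : Circuit Rel Pt} {lines : Set (Set (H42.CS.Lit C.N))} {P H : Type}
    (R : Finset (P × H) → C.N → Bool → Prop) (α : Finset (P × H)) (a : C.N ⊕ lines) (v : Bool) :
    Prop := ∃ a0, a = Sum.inl a0 ∧ R α a0 v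

theorem bltN_mem {C : Circuit Rel Pt} {lines : Set (Set (H42.CS.Lit C.N))} {Bs : Set C.N} :
    ∀ {d : ℕ} {a : C.N}, BltN C Bs d a →
      (Sum.inl a : C.N ⊕ lines) ∈ BB (gaX C lines) (Sum.inl '' Bs) d := by
  intro d
  induction d with
  | zero => intro a h; exact ⟨a, h, rfl⟩
  | succ d ih =>
    rintro a (h | ⟨S, hS, h⟩)
    · exact BB_zero _ _ _ ⟨a, h, rfl⟩
    · right
      refine ⟨H42.CS.Lit.map Sum.inl '' S, ⟨S, hS, rfl⟩, ?_⟩
      rintro _ ⟨x, hx, rfl⟩
      exact ih (h x hx)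

theorem logic_core {C : Circuit Rel Pt} {lines : Set (Set (H42.CS.Lit C.N))} (hfin : lines.Finite)
    (order : Set (H42.CS.Lit C.N) → ℕ) (Bs : Set C.N) {m t d : ℕ} (ht : 1 ≤ t)
    {R : Finset (Fin (m + 1) × Fin m) → C.N → Bool → Prop}
    (E : EvG (gaX C lines) (Sum.inl '' Bs) ∅ (4 * t) m (RX R))
    (hB : ∀ Λ ∈ lines, ∀ x ∈ Λ, BltN C Bs d x.node)
    (hstep : ∀ Λ ∈ lines, FStep C {Δ | Δ ∈ lines ∧ order Δ < order Λ} Λ ∨
      ∀ α : Finset (Fin (m + 1) × Fin m), PM α → α.card + 12 * t ≤ m →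
        ∃ x ∈ Λ, x.node ∈ Bs ∧ ∃ β, α ⊆ β ∧ PM β ∧ β.card ≤ α.card + 12 * t ∧ R β x.node x.pos)
    (hm : m < 2 ^ t) (hS : Nat.card C.N + lines.ncard < 2 ^ t)
    (hc : (cc (d + 1) 4 * t) ^ cc (d + 1) 4 ≤ m) (hempty : ∅ ∈ lines) : False := by
  have hfl : Finite lines := hfin
  have hN : Nat.card (C.N ⊕ lines) < 2 ^ t := by
    rw [Nat.card_sum, Nat.card_coe_set_eq]
    exact hS
  obtain ⟨f', s', R', E', -, hs', hRR⟩ := climbG (gaX C lines) (Sum.inl '' Bs) (d + 1) 4 (by norm_num)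
    m t 0 m ∅ (RX R) ht hm hN E (by simp) hc
  rw [zero_add] at E'
  refine frame E' ?_ order ?_ hempty
  · intro Λ
    right
    refine ⟨_, (rfl : gaX C lines (Sum.inr Λ) _), ?_⟩
    rintro _ ⟨x, hx, rfl⟩
    exact bltN_mem (hB Λ.1 Λ.2 x hx)
  · intro Λ
    rcases hstep Λ.1 Λ.2 with h | h
    · exact Or.inl h
    · right
      intro α hα hf hM
      obtain ⟨x, hx, hxB, β, h1, h2, h3, h4⟩ := h α hα (by omega)
      have hxB' : (Sum.inl x.node : C.N ⊕ lines) ∈ Sum.inl '' Bs := ⟨_, hxB, rfl⟩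
      have hxB2 : (Sum.inl x.node : C.N ⊕ lines) ∈ BB (gaX C lines) (Sum.inl '' Bs) (d + 1) :=
        BB_zero _ _ _ hxB'
      obtain ⟨γ, v, k1, k2, k3, k4⟩ := E'.decide hxB2 h2 (hf.trans h1) (by omega)
      refine ⟨x, hx, γ, h1.trans k1, k2, by omega, ?_⟩
      have k5 := hRR γ _ v hxB' k4
      have k6 : RX (lines := lines) R γ (Sum.inl x.node) x.pos :=
        E.mono hxB' ⟨_, rfl, h4⟩ k1 k2
      have k7 : v = x.pos := by
        cases v <;> cases hp : x.pos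
        · rfl
        · rw [hp] at k6; exact (E.cons k6 k5).elim
        · rw [hp] at k6; exact (E.cons k5 k6).elim
        · rfl
      rw [← k7]
      exact k4

end Pool.Agent.H6.AC
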