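import Pool.Agent.H6.AC.Kl2
import Pool.Agent.H6.AC.Loc
import Pool.Agent.H6.AC.Bas

/-!
# The addition rule at matchings; the small lines of a refutation
-/

set_option autoImplicit false
set_option linter.unusedSectionVars false

namespace Pool.Agent.H6.AC

open Pool.Agent.H63.YL (PM dm)
open Pool.Agent.H42.CS (Ax Atom Gate Circuit)
open Pool.Agent.H79.CQ (Gad Wd)
open Pool.Agent.H16.LE (Eng Img stN stL)

/-- Cover the supports of one space. -/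
private theorem ls_one {m : ℕ} (X : Finset (Fin (m + 1) ⊕ Fin m)) {k : ℕ} (hX : X.card ≤ k)
    {α : Finset (Fin (m + 1) × Fin m)} (hα : PM α) (hM : α.card + k ≤ m) :
    ∃ β, α ⊆ β ∧ PM β ∧ β.card ≤ α.card + k ∧ X ⊆ dm β := by
  obtain ⟨β, h1, h2, h3, h4⟩ := Pool.Agent.H63.YL.ext_many (P := Fin (m + 1)) (H := Fin m)
    (by rw [Fintype.card_fin, Fintype.card_fin]; omega) X hα (by rw [Fintype.card_fin]; omega)
  exact ⟨β, h1, h2, by omega, h4⟩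

theorem loc_sum {p : ℕ} [hp : Fact p.Prime] {Rel : ℕ → Type} {Pt K G : Type} [Fintype K] [Group G]
    (E : Eng p Rel Pt K G) {UU : Set (Submodule (ZMod p) (K → ZMod p))}
    (hUU : ∀ A ∈ E.fam, ∀ A' ∈ E.fam, ∀ A'' ∈ E.fam, A ⊔ A' ⊔ A'' ∈ UU) {m k : ℕ}
    (wd : WD E.toGad UU m k) {b₁ b₂ a : E.C.N} (h : Sum3 E.C b₁ b₂ a)
    {α : Finset (Fin (m + 1) × Fin m)} (hα : PM α) (hM : α.card + 4 * k ≤ m) :
    ∃ x : H42.CS.Lit E.C.N, (x = ⟨b₁, false⟩ ∨ x = ⟨b₂, false⟩ ∨ x = ⟨a, true⟩) ∧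
      ∃ β, α ⊆ β ∧ PM β ∧ β.card ≤ α.card + 4 * k ∧ RV wd E.Vn E.val β x.node x.pos := by
  classical
  obtain ⟨S₁, S₂, A₁, A₂, A', h1, h2, hd, ha, hc⟩ := h
  have hfin : Finite (H42.CS.Lit E.C.N) :=
    Finite.of_injective (fun x : H42.CS.Lit E.C.N => (x.node, x.pos)) (by
      intro x y h
      exact H42.CS.Lit.ext (congrArg Prod.fst h) (congrArg Prod.snd h))
  obtain ⟨U, hU⟩ : ∃ U, U = E.Vn b₁ ⊔ E.Vn b₂ ⊔ E.Vn a := ⟨_, rfl⟩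
  have hU2 : E.Vn b₁ ≤ U := by
    rw [hU]
    exact le_sup_left.trans le_sup_left
  have hU3 : E.Vn b₂ ≤ U := by
    rw [hU]
    exact le_sup_right.trans le_sup_left
  have hU4 : E.Vn a ≤ U := by
    rw [hU]
    exact le_sup_right
  have hUm : U ∈ UU := by
    rw [hU]
    exact hUU _ (E.node_mem b₁) _ (E.node_mem b₂) _ (E.node_mem a)
  have hVm : ∀ c, E.Vn c ∈ UU := fun c => by
    have h3 := hUU _ (E.node_mem c) _ (E.node_mem c) _ (E.node_mem c)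
    rwa [sup_idem, sup_idem] at h3
  have hS3 : E.Sm 3 U := by
    rw [hU]
    exact E.Sm_sup (E.Sm_sup (E.Sm_Vn b₁) (E.Sm_Vn b₂)) (E.Sm_Vn a)
  have hS5 : E.Sm 5 U := E.Sm_mono (by norm_num) le_rfl hS3
  obtain ⟨β₁, a1, a2, a3, a4⟩ := ls_one (wd.sp U) (wd.card_sp _ hUm) hα (by omega)
  obtain ⟨β₂, b1, b2, b3, b4⟩ := ls_one (wd.sp (E.Vn b₁)) (wd.card_sp _ (hVm b₁)) a2 (by omega)
  obtain ⟨β₃, c1, c2, c3, c4⟩ := ls_one (wd.sp (E.Vn b₂)) (wd.card_sp _ (hVm b₂)) b2 (by omega)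
  obtain ⟨β, d1, d2, d3, d4⟩ := ls_one (wd.sp (E.Vn a)) (wd.card_sp _ (hVm a)) c2 (by omega)
  have hαβ : α ⊆ β := a1.trans (b1.trans (c1.trans d1))
  have hcard : β.card ≤ α.card + 4 * k := by omega
  have s1 : wd.sp U ⊆ dm β := a4.trans (H63.YL.dm_mono (b1.trans (c1.trans d1)))
  have s2 : wd.sp (E.Vn b₁) ⊆ dm β := b4.trans (H63.YL.dm_mono (c1.trans d1))
  have s3 : wd.sp (E.Vn b₂) ⊆ dm β := c4.trans (H63.YL.dm_mono d1)
  have hf' : E.toGad.IsW U (wd.W U β) := wd.isW _ hUm β d2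
  have hval : ∀ c, E.Vn c ≤ U → wd.sp (E.Vn c) ⊆ dm β →
      (E.val c (wd.W (E.Vn c) β) ↔ E.val c (wd.W U β)) := fun c hc hs =>
    E.val_loc (wd.isW _ (hVm c) β d2) (wd.coh _ (hVm c) _ hUm hc β β d2 subset_rfl hs s1)
  by_cases hv1 : E.val b₁ (wd.W U β)
  · by_cases hv2 : E.val b₂ (wd.W U β)
    · have k1 := (E.val_sym_iff h1 hU2 hS5 hf').1 hv1
      have k2 := (E.val_sym_iff h2 hU3 hS5 hf').1 hv2
      have k3 : E.cnt (S₁ ∪ S₂) U (wd.W U β) = E.cnt S₁ U (wd.W U β) + E.cnt S₂ U (wd.W U β) := by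
        unfold Eng.cnt
        rw [← Set.ncard_union_eq]
        · congr 1
          ext x
          simp only [Set.mem_union, Set.mem_ofPred_eq]
          tauto
        · rw [Set.disjoint_left]
          rintro x ⟨h3, -⟩ ⟨h4, -⟩
          exact Set.disjoint_left.1 hd h3 h4
      refine ⟨⟨a, true⟩, Or.inr (Or.inr rfl), β, hαβ, d2, hcard, d2, d4, ?_⟩
      show E.val a _ ↔ true = true
      rw [hval a hU4 d4, E.val_sym_iff ha hU4 hS5 hf', k3]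
      exact ⟨fun _ => rfl, fun _ => hc _ k1 _ k2⟩
    · refine ⟨⟨b₂, false⟩, Or.inr (Or.inl rfl), β, hαβ, d2, hcard, d2, s3, ?_⟩
      show E.val b₂ _ ↔ false = true
      rw [hval b₂ hU3 s3]
      exact ⟨fun h => absurd h hv2, fun h => absurd h (by decide)⟩
  · refine ⟨⟨b₁, false⟩, Or.inl rfl, β, hαβ, d2, hcard, d2, s2, ?_⟩
    show E.val b₁ _ ↔ false = true
    rw [hval b₁ hU2 s2]
    exact ⟨fun h => absurd h hv1, fun h => absurd h (by decide)⟩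

section

variable {Rel : ℕ → Type} {P : Type}

theorem blt_mono {C : Circuit Rel P} {Bs Bs' : Set C.N} (hB : Bs ⊆ Bs') :
    ∀ {d : ℕ} {a : C.N}, BltN C Bs d a → BltN C Bs' d a := by
  intro d
  induction d with
  | zero => intro a h; exact hB h
  | succ d ih =>
    rintro a (h | ⟨S, hS, h⟩)
    · exact Or.inl (hB h)
    · exact Or.inr ⟨S, hS, fun x hx => ih (h x hx)⟩

theorem blt_sym {C : Circuit Rel P} {A0 : Set C.N} :
    ∀ {d : ℕ} {a : C.N}, BltN C (A0 ∪ {a | ∃ v, C.gate a = .var v}) d a →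
      (∃ A1 S, C.gate a = .sym A1 S) → a ∈ A0 := by
  intro d
  induction d with
  | zero =>
    rintro a (h | ⟨v, h⟩) ⟨A1, S, h'⟩
    · exact h
    · rw [h] at h'
      cases h'
  | succ d ih =>
    rintro a ((h | ⟨v, h⟩) | ⟨S, hS, h⟩) ⟨A1, S', h'⟩
    · exact h
    · rw [h] at h'
      cases h'
    · rw [hS] at h'
      cases h'

theorem small_lines2 {dd : ℕ} {T : Set (Ax Rel)} {C : Circuit Rel P} (A0 : Set C.N)
    {Pr : Set (H42.CS.Lit C.N) → Set (Set (H42.CS.Lit C.N))} (lines : Set (Set (H42.CS.Lit C.N)))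
    (hR : ∀ Λ ∈ lines, ∀ x ∈ Λ, BltN C (A0 ∪ {a | ∃ v, C.gate a = .var v}) dd x.node)
    (hst : ∀ Λ ∈ lines, H63.AC.Step T C (Pr Λ) Λ) (Λ : Set (H42.CS.Lit C.N)) :
    ∃ Λ' : Set (H42.CS.Lit C.N),
      (Λ' = ∅ ∨ ∃ a0, ∀ {G : Type} [Group G] (ρ : G →* Equiv.Perm P),
          stN (rstC C A0) ρ a0 ≤ stL (rstC C A0) ρ Λ') ∧ (Λ ∈ lines →
        FStep C (Pr Λ) Λ ∨
        (∃ A1 ∈ T, ∃ v : Fin A1.k → P, ∀ x ∈ A1.inst v,
          ∃ a, C.gate a = .var x.1 ∧ ⟨a, x.2⟩ ∈ Λ) ∨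
        (∃ v a b, C.gate a = .var v ∧ C.gate b = .var v ∧ ⟨a, true⟩ ∈ Λ ∧ ⟨b, false⟩ ∈ Λ) ∨
        (∃ b₁ b₂ a, Cone C A0 b₁ ∧ Cone C A0 b₂ ∧ Cone C A0 a ∧ Sum3 (rstC C A0) b₁ b₂ a ∧
          ⟨b₁, false⟩ ∈ Λ ∧ ⟨b₂, false⟩ ∈ Λ ∧ ⟨a, true⟩ ∈ Λ) ∨
        (Λ' ⊆ Λ ∧ (∀ x ∈ Λ', Cone C A0 x.node) ∧ LStep (rstC C A0) Λ')) := by
  by_cases hΛ : Λ ∈ lines
  · rcases small_line2 A0 (fun x hx h => blt_sym (hR Λ hΛ x hx) h) (hst Λ hΛ) with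
      h | h | h | h | ⟨Λ', h1, h2, h3, a0, h4⟩
    · exact ⟨∅, Or.inl rfl, fun _ => Or.inl h⟩
    · exact ⟨∅, Or.inl rfl, fun _ => Or.inr (Or.inl h)⟩
    · exact ⟨∅, Or.inl rfl, fun _ => Or.inr (Or.inr (Or.inl h))⟩
    · exact ⟨∅, Or.inl rfl, fun _ => Or.inr (Or.inr (Or.inr (Or.inl h)))⟩
    · exact ⟨Λ', Or.inr ⟨a0, h4⟩, fun _ => Or.inr (Or.inr (Or.inr (Or.inr ⟨h1, h2, h3⟩)))⟩
  · exact ⟨∅, Or.inl rfl, fun h => absurd h hΛ⟩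

end

end Pool.Agent.H6.AC
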