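import Pool.Agent.H16.LE.Eng

/-!
# The part of a circuit below a set of nodes

`Cone C A`: the nodes below the members of `A`. `rstC C A`: the other nodes get a trivial label. Model:
`H16/LE/Rst`, `H16/LE/Idx`.

PROOF of `cone_index`: for `a` below `b ∈ A` and `g ∈ H` (the group of `b`) the formula below `a` has an image among
the nodes below `b` (induction on `Cone`, see `bel_img`), and the image determines the coset of `g` modulo
`H ⊓ stN a` (see `idx_le`); `H.index ≤ I`.
-/

set_option autoImplicit false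
set_option linter.unusedSectionVars false

namespace Pool.Agent.H6.AC

open Pool.Agent.H42.CS (Ax Atom Gate Circuit Step Refutation)
open Pool.Agent.H16.LE (Img stN)

variable {Rel : ℕ → Type} {P : Type}

/-- The nodes below the members of `A`. -/
inductive Cone (C : Circuit Rel P) (A : Set C.N) : C.N → Prop
  | mem {a : C.N} : a ∈ A → Cone C A a
  | child {a : C.N} {x : H42.CS.Lit C.N} : Cone C A a → x ∈ (C.gate a).children → Cone C A x.node

open Classical in
/-- The nodes which are not below members of `A` get a trivial label. -/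
noncomputable def rstC (C : Circuit Rel P) (A : Set C.N) : Circuit Rel P where
  N := C.N
  gate a := if Cone C A a then C.gate a else .and ∅
  rank := C.rank
  rank_lt := by
    intro a x hx
    split_ifs at hx with h
    · exact C.rank_lt a x hx
    · exact absurd hx (Set.notMem_empty x)

theorem rstC_pos {C : Circuit Rel P} {A : Set C.N} {a : C.N} (h : Cone C A a) :
    (rstC C A).gate a = C.gate a := if_pos h

theorem rstC_neg {C : Circuit Rel P} {A : Set C.N} {a : C.N} (h : ¬ Cone C A a) :
    (rstC C A).gate a = .and ∅ := if_neg h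

private theorem rs_to {C : Circuit Rel P} {A : Set C.N} {g : P → P} (n : ℕ) :
    ∀ a b : C.N, C.rank a < n → Cone C A a → Cone C A b → Img (rstC C A) g a b → Img C g a b := by
  induction n with
  | zero => exact fun a b h => absurd h (Nat.not_lt_zero _)
  | succ n ih =>
    intro a b hn ha hb h
    rcases hga : C.gate a with v | S | ⟨B, S⟩
    · have h1 : (rstC C A).gate a = .var v := (rstC_pos ha).trans hga
      have h2 := H16.LE.img_var h h1
      exact Img.var hga ((rstC_pos hb).symm.trans h2)
    · have h1 : (rstC C A).gate a = .and S := (rstC_pos ha).trans hga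
      obtain ⟨S', h2, β, h3, h4, h5⟩ := H16.LE.img_and h h1
      have h6 : C.gate b = .and S' := (rstC_pos hb).symm.trans h2
      refine Img.and β hga h6 h3 h4 fun x hx => ?_
      have hx' : x ∈ (C.gate a).children := by rw [hga]; exact hx
      have hy' : β x ∈ (C.gate b).children := by rw [h6]; exact h3.mapsTo hx
      exact ih x.node (β x).node (lt_of_lt_of_le (C.rank_lt a x hx') (Nat.lt_succ_iff.1 hn))
        (Cone.child ha hx') (Cone.child hb hy') (h5 x hx)
    · have h1 : (rstC C A).gate a = .sym B S := (rstC_pos ha).trans hga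
      obtain ⟨S', h2, β, h3, h4, h5⟩ := H16.LE.img_sym h h1
      have h6 : C.gate b = .sym B S' := (rstC_pos hb).symm.trans h2
      refine Img.sym β hga h6 h3 h4 fun x hx => ?_
      have hx' : x ∈ (C.gate a).children := by rw [hga]; exact hx
      have hy' : β x ∈ (C.gate b).children := by rw [h6]; exact h3.mapsTo hx
      exact ih x.node (β x).node (lt_of_lt_of_le (C.rank_lt a x hx') (Nat.lt_succ_iff.1 hn))
        (Cone.child ha hx') (Cone.child hb hy') (h5 x hx)

private theorem rs_from {C : Circuit Rel P} {A : Set C.N} {g : P → P} (n : ℕ) :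
    ∀ a b : C.N, C.rank a < n → Cone C A a → Cone C A b → Img C g a b → Img (rstC C A) g a b := by
  induction n with
  | zero => exact fun a b h => absurd h (Nat.not_lt_zero _)
  | succ n ih =>
    intro a b hn ha hb h
    rcases hga : C.gate a with v | S | ⟨B, S⟩
    · have h1 : (rstC C A).gate a = .var v := (rstC_pos ha).trans hga
      exact Img.var h1 ((rstC_pos hb).trans (H16.LE.img_var h hga))
    · have h1 : (rstC C A).gate a = .and S := (rstC_pos ha).trans hga
      obtain ⟨S', h2, β, h3, h4, h5⟩ := H16.LE.img_and h hga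
      have h6 : (rstC C A).gate b = .and S' := (rstC_pos hb).trans h2
      refine Img.and (C := rstC C A) β h1 h6 h3 h4 fun x hx => ?_
      have hx' : x ∈ (C.gate a).children := by rw [hga]; exact hx
      have hy' : β x ∈ (C.gate b).children := by rw [h2]; exact h3.mapsTo hx
      exact ih x.node (β x).node (lt_of_lt_of_le (C.rank_lt a x hx') (Nat.lt_succ_iff.1 hn))
        (Cone.child ha hx') (Cone.child hb hy') (h5 x hx)
    · have h1 : (rstC C A).gate a = .sym B S := (rstC_pos ha).trans hga
      obtain ⟨S', h2, β, h3, h4, h5⟩ := H16.LE.img_sym h hga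
      have h6 : (rstC C A).gate b = .sym B S' := (rstC_pos hb).trans h2
      refine Img.sym (C := rstC C A) β h1 h6 h3 h4 fun x hx => ?_
      have hx' : x ∈ (C.gate a).children := by rw [hga]; exact hx
      have hy' : β x ∈ (C.gate b).children := by rw [h2]; exact h3.mapsTo hx
      exact ih x.node (β x).node (lt_of_lt_of_le (C.rank_lt a x hx') (Nat.lt_succ_iff.1 hn))
        (Cone.child ha hx') (Cone.child hb hy') (h5 x hx)

theorem rstC_img {C : Circuit Rel P} {A : Set C.N} {g : P → P} {a b : C.N} (ha : Cone C A a)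
    (hb : Cone C A b) : Img (rstC C A) g a b ↔ Img C g a b :=
  ⟨rs_to (C.rank a + 1) a b (Nat.lt_succ_self _) ha hb,
    rs_from (C.rank a + 1) a b (Nat.lt_succ_self _) ha hb⟩

theorem rstC_out {C : Circuit Rel P} {A : Set C.N} {G : Type} [Group G] (ρ : G →* Equiv.Perm P)
    {a : C.N} (ha : ¬ Cone C A a) : stN (rstC C A) ρ a = ⊤ := by
  rw [Subgroup.eq_top_iff']
  intro g
  show Img (rstC C A) (ρ g) a a
  exact Img.and (C := rstC C A) id (rstC_neg ha) (rstC_neg ha) (Set.bijOn_empty id)
    (fun x hx => absurd hx (Set.notMem_empty x)) (fun x hx => absurd hx (Set.notMem_empty x))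

/-- every node of the cone is below one member of `A` -/
private theorem cone_one {C : Circuit Rel P} {A : Set C.N} {a : C.N} (h : Cone C A a) :
    ∃ b ∈ A, Cone C {b} a := by
  induction h with
  | @mem a ha => exact ⟨a, ha, Cone.mem rfl⟩
  | child h hx ih =>
    obtain ⟨b, hb, hc⟩ := ih
    exact ⟨b, hb, Cone.child hc hx⟩

/-- a node below `b` has an image below `b` if `b` is invariant -/
private theorem cone_img {C : Circuit Rel P} {b : C.N} {g : P → P} (hb : Img C g b b) {a : C.N}
    (ha : Cone C {b} a) : ∃ c, Img C g a c := by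
  induction ha with
  | @mem a ha =>
    have h1 : a = b := ha
    exact ⟨b, by rw [h1]; exact hb⟩
  | @child a x ha hx ih =>
    obtain ⟨c, hac⟩ := ih
    rcases hga : C.gate a with v | S | ⟨B, S⟩
    · rw [hga] at hx
      exact absurd hx (Set.notMem_empty x)
    · rw [hga] at hx
      obtain ⟨S', h1, β, h2, h3, h4⟩ := H16.LE.img_and hac hga
      exact ⟨(β x).node, h4 x hx⟩
    · rw [hga] at hx
      obtain ⟨S', h1, β, h2, h3, h4⟩ := H16.LE.img_sym hac hga
      exact ⟨(β x).node, h4 x hx⟩

private theorem cone_idx {C : Circuit Rel P} {G : Type} [Group G] [Finite G]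
    (ρ : G →* Equiv.Perm P) {b : C.N} {H : Subgroup G} (hH : ∀ g ∈ H, Img C (ρ g) b b) {a : C.N}
    (ha : Cone C {b} a) : (H ⊓ stN C ρ a).relIndex H ≤ Nat.card C.N := by
  classical
  have h1 : ∀ g : H, ∃ c, Img C (ρ (g : G)) a c := fun g => cone_img (hH g g.2) ha
  choose φ hφ using h1
  show ((H ⊓ stN C ρ a).subgroupOf H).index ≤ _
  have h2 : ∀ g h : H, φ g = φ h → g⁻¹ * h ∈ (H ⊓ stN C ρ a).subgroupOf H := by
    intro g h he
    have h3 := hφ h
    rw [← he] at h3
    have h4 := H16.LE.img_mul C ρ h3 (H16.LE.img_inv C ρ (hφ g))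
    rw [Subgroup.mem_subgroupOf]
    exact ⟨(g⁻¹ * h).2, h4⟩
  let ψ : H ⧸ (H ⊓ stN C ρ a).subgroupOf H → C.N := fun q => φ q.out
  have hψ : Function.Injective ψ := by
    intro q q' he
    have h3 := h2 _ _ he
    have h4 : (QuotientGroup.mk q.out : H ⧸ (H ⊓ stN C ρ a).subgroupOf H) = QuotientGroup.mk q'.out :=
      QuotientGroup.eq.2 h3
    rw [← QuotientGroup.out_eq' q, ← QuotientGroup.out_eq' q']
    exact h4
  exact Nat.card_le_card_of_injective ψ hψ

theorem cone_index {C : Circuit Rel P} {A : Set C.N} {G : Type} [Group G] [Finite G]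
    (ρ : G →* Equiv.Perm P) {I : ℕ} (hI : 1 ≤ I)
    (hA : ∀ a ∈ A, ∃ H : Subgroup G, H.index ≤ I ∧ ∀ g ∈ H, Img C (ρ g) a a) (a : C.N) :
    (stN (rstC C A) ρ a).index ≤ I * Nat.card C.N := by
  have hne : Nonempty C.N := ⟨a⟩
  have hc : 1 ≤ Nat.card C.N := Nat.card_pos
  by_cases ha : Cone C A a
  · obtain ⟨b, hb, hab⟩ := cone_one ha
    obtain ⟨H, hH1, hH2⟩ := hA b hb
    have h1 : H ⊓ stN C ρ a ≤ stN (rstC C A) ρ a := by
      intro g hg
      exact (rstC_img ha ha).2 hg.2
    have h2 : (stN (rstC C A) ρ a).index ≤ (H ⊓ stN C ρ a).index :=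
      Nat.le_of_dvd (Nat.pos_of_ne_zero Subgroup.index_ne_zero_of_finite) (Subgroup.index_dvd_of_le h1)
    have h3 : (H ⊓ stN C ρ a).relIndex H * H.index = (H ⊓ stN C ρ a).index :=
      Subgroup.relIndex_mul_index inf_le_left
    calc (stN (rstC C A) ρ a).index ≤ (H ⊓ stN C ρ a).index := h2
      _ = H.index * (H ⊓ stN C ρ a).relIndex H := by rw [← h3, mul_comm]
      _ ≤ I * Nat.card C.N := Nat.mul_le_mul hH1 (cone_idx ρ hH2 hab)
  · rw [rstC_out ρ ha, Subgroup.index_top]
    calc 1 = 1 * 1 := rfl
      _ ≤ I * Nat.card C.N := Nat.mul_le_mul hI hc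

end Pool.Agent.H6.AC
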