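import Pool.Agent.H8.AA.Def
import Pool.Agent.H6.AC.Three
import Pool.Agent.H6.AB.Col

/-! # [UC+ STR3] Three integer points near one branch at infinity are collinear, with a free bound `H ≤ S^(n-1)` of the values

As `H8.UC.str2`, with `ε := H X^-n ≤ S/X`.
So `D = 0`. The analysis is in `H6/AC/Three.lean` (`three'`). -/

namespace Pool.Agent.H6.AC

open Polynomial Pool.Agent.H8.AA Pool.Agent.H6.AB

/-- the coefficients of `Φ` -/
private noncomputable def bs (n : ℕ) (e : ℕ → ℕ → ℤ) (S : ℝ) (k j : ℕ) : ℝ :=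
  if k + j ≤ n then (e (n - k - j) j : ℝ) / S ^ k else 0

private theorem bs_inner (n : ℕ) (e : ℕ → ℕ → ℤ) (S : ℝ) {k : ℕ} (hk : k ≤ n) (g : ℕ → ℝ) :
    ∑ j ∈ Finset.range (n + 1), bs n e S k j * g j =
      ∑ j ∈ Finset.range (n - k + 1), (e (n - k - j) j : ℝ) / S ^ k * g j := by
  symm
  apply Finset.sum_subset_zero_on_sdiff
  · intro j hj
    rw [Finset.mem_range] at hj ⊢
    omega
  · intro j hj
    rw [Finset.mem_sdiff, Finset.mem_range, Finset.mem_range] at hj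
    have : ¬ k + j ≤ n := by omega
    rw [bs, if_neg this, zero_mul]
  · intro j hj
    rw [Finset.mem_range] at hj
    have : k + j ≤ n := by omega
    rw [bs, if_pos this]

private theorem Ph_bs (n : ℕ) (e : ℕ → ℕ → ℤ) {S : ℝ} (hS : S ≠ 0) (u t : ℝ) :
    Ph n (bs n e S) (S * u) t =
      ∑ k ∈ Finset.range (n + 1), u ^ (n - k) * aeval t (fm e k) := by
  unfold Ph
  rw [← Finset.sum_range_reflect]
  apply Finset.sum_congr rfl
  intro k hk
  rw [Finset.mem_range] at hk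
  have h1 : n + 1 - 1 - k = n - k := by omega
  have h2 : n - (n - k) = k := by omega
  rw [h1, bs_inner n e S (by omega) (fun j => (S * u) ^ (n - k) * t ^ j), h2, fm_aeval,
    Finset.mul_sum]
  apply Finset.sum_congr rfl
  intro j _
  rw [mul_pow]
  have : S ^ (n - k) ≠ 0 := pow_ne_zero _ hS
  field_simp

private theorem Ph_zero (n : ℕ) (e : ℕ → ℕ → ℤ) {S : ℝ} (hS : S ≠ 0) (t : ℝ) :
    Ph n (bs n e S) 0 t = aeval t (fm e n) := by
  have h := Ph_bs n e hS 0 t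
  rw [mul_zero] at h
  rw [h, Finset.sum_eq_single n]
  · simp
  · intro k hk hkn
    rw [Finset.mem_range] at hk
    rw [zero_pow (by omega), zero_mul]
  · intro h
    exact absurd (Finset.mem_range.2 (Nat.lt_succ_self n)) h

private theorem Pht_zero (n : ℕ) (e : ℕ → ℕ → ℤ) (S t : ℝ) :
    Pht n (bs n e S) 0 t = aeval t (derivative (fm e n)) := by
  unfold Pht
  rw [Finset.sum_eq_single 0]
  · rw [bs_inner n e S (Nat.zero_le n) (fun j => j * 0 ^ 0 * t ^ (j - 1)), fm_daeval]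
    simp
  · intro k _ hk
    apply Finset.sum_eq_zero
    intro j _
    rw [zero_pow hk]
    ring
  · intro h
    exact absurd (Finset.mem_range.2 (Nat.succ_pos n)) h

/-- the arithmetic at the end -/
private theorem fin {n : ℕ} (hn : 3 ≤ n) {C K S W X H : ℝ} (hC : 0 ≤ C) (hK : 16 * C < K)
    (hK1 : 1 ≤ K) (hS : 1 ≤ S) (hW : 1 ≤ W) (hX : 0 < X) (h1 : S ^ 2 ≤ W ^ 3)
    (h2 : H ≤ W * X ^ (n - 2)) :
    8 * X ^ 3 / S * (C * (S / (K * W * X) * (H / X ^ n + (S / (K * W * X)) ^ 2))) <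
      1 := by
  obtain ⟨m, rfl⟩ : ∃ m, n = m + 2 := ⟨n - 2, by omega⟩
  have hK0 : 0 < K := by linarith
  have hS0 : 0 < S := by linarith
  have hW0 : 0 < W := by linarith
  have e1 : m + 2 - 2 = m := by omega
  rw [e1] at h2
  have e : 8 * X ^ 3 / S * (C * (S / (K * W * X) * (H / X ^ (m + 2) +
      (S / (K * W * X)) ^ 2))) =
      8 * C * (H / (W * X ^ m) * (1 / K) + S ^ 2 / W ^ 3 * (1 / K ^ 3)) := by
    field_simp
    ring
  rw [e]
  have q1 : H / (W * X ^ m) ≤ 1 := by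
    rw [div_le_one (by positivity)]
    exact h2
  have q2 : S ^ 2 / W ^ 3 ≤ 1 := by
    rw [div_le_one (by positivity)]
    exact h1
  have q3 : 1 / K ^ 3 ≤ 1 / K := by
    apply one_div_le_one_div_of_le hK0
    calc K = K ^ 1 := (pow_one K).symm
      _ ≤ K ^ 3 := pow_le_pow_right₀ hK1 (by norm_num)
  calc 8 * C * (H / (W * X ^ m) * (1 / K) + S ^ 2 / W ^ 3 * (1 / K ^ 3)) ≤
      8 * C * (1 * (1 / K) + 1 * (1 / K)) := by gcongr
    _ = 16 * C / K := by ring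
    _ < 1 := by
      rw [div_lt_one hK0]
      exact hK

theorem str3 (n : ℕ) (hn : 3 ≤ n) (B c₀ : ℝ) (hB : 1 ≤ B) (hc₀ : 0 < c₀) : ∃ K : ℝ, 1 ≤ K ∧
    ∀ (e : ℕ → ℕ → ℤ) (S W X H : ℝ), 1 ≤ S → 1 ≤ W → H ≤ S ^ (n - 1) → S ^ 2 ≤ W ^ 3 → H ≤ W * X ^ (n - 2) →
    (∀ a b, a + b ≤ n → |(e a b : ℝ)| ≤ B * S ^ (n - (a + b))) → Gd n c₀ e → K * S ≤ X → ∀ x y : Fin 3 → ℤ,
    (∀ i, X ≤ |(x i : ℝ)| ∧ |(x i : ℝ)| ≤ 2 * X ∧ |y i| ≤ |x i| ∧ |(ev n e (x i) (y i) : ℝ)| ≤ H) →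
    (∀ i j, 0 < x i * x j) → (∀ i j, |(x i : ℝ) - x j| ≤ X / (K * W)) →
    (∀ i j, ∀ s ∈ Set.uIcc ((y i : ℝ) / x i) ((y j : ℝ) / x j), aeval s (derivative (fm e n)) ≠ 0) →
    (x 1 - x 0) * (y 2 - y 0) = (x 2 - x 0) * (y 1 - y 0) := by
  have hM4 : 4 ≤ cM n := by
    unfold cM
    have : 0 ≤ 4 * (n : ℝ) ^ 2 * ((n : ℝ) + 1) ^ 2 + 2 * n * ((n : ℝ) + 1) ^ 2 := by positivity
    linarith
  have hB0 : 0 < B := by linarith
  -- the ratio `A`
  set c := min c₀ B with hc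
  have hc0 : 0 < c := lt_min hc₀ hB0
  set A := B / c with hA'
  have hA : 1 ≤ A := by
    rw [hA', le_div_iff₀ hc0, one_mul]
    exact min_le_right _ _
  have hA0 : 0 < A := by linarith
  have hBA : B / A = c := by
    rw [hA']
    field_simp
  set C := 4 * cM n * A * (1 + 2 * cM n ^ 2 * A ^ 2) with hC
  have hM0 : 0 < cM n := by linarith
  have hC0 : 0 ≤ C := by positivity
  refine ⟨6 * cM n * A ^ 2 + 16 * C + 1, ?_, ?_⟩
  · have : 0 ≤ 6 * cM n * A ^ 2 := by positivity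
    linarith
  set K := 6 * cM n * A ^ 2 + 16 * C + 1 with hK
  have hq : 0 ≤ 6 * cM n * A ^ 2 := by positivity
  have hK1 : 1 ≤ K := by linarith
  have hK0 : 0 < K := by linarith
  intro e S W X H hS hW hHS h1 h2 hb hG hX x y hxy _ hd hz
  have hS0 : 0 < S := by linarith
  have hW0 : 0 < W := by linarith
  have hX0 : 0 < X := lt_of_lt_of_le (by positivity) hX
  have hSX : S ≤ X := (le_mul_of_one_le_left hS0.le hK1).trans hX
  have hX1 : 1 ≤ X := hS.trans hSX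
  have hY : 6 * cM n * A ^ 2 ≤ X / S := by
    rw [le_div_iff₀ hS0]
    refine le_trans ?_ hX
    apply mul_le_mul_of_nonneg_right _ hS0.le
    linarith
  have hyx : 1 / (X / S) = S / X := one_div_div X S
  have hbs : ∀ k ≤ n, ∀ j ≤ n, |bs n e S k j| ≤ B := by
    intro k _ j _
    unfold bs
    split_ifs with h
    · rw [abs_div, abs_of_pos (pow_pos hS0 k), div_le_iff₀ (pow_pos hS0 k)]
      have h3 := hb (n - k - j) j (by omega)
      have h4 : n - (n - k - j + j) = k := by omega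
      rwa [h4] at h3
    · rw [abs_zero]
      exact hB0.le
  have hH0 : 0 ≤ H := (abs_nonneg _).trans (hxy 0).2.2.2
  set ε := H / X ^ n with hε
  have hε1 : ε ≤ 1 / (X / S) := by
    refine (div_le_div_of_nonneg_right hHS (by positivity : (0 : ℝ) ≤ X ^ n)).trans ?_
    rw [hyx, div_le_div_iff₀ (by positivity) hX0]
    obtain ⟨m, rfl⟩ : ∃ m, n = m + 2 := ⟨n - 2, by omega⟩
    have e1 : m + 2 - 1 = m + 1 := by omega
    rw [e1]
    calc S ^ (m + 1) * X = S * (S ^ m * X) := by ring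
      _ ≤ S * (X ^ m * (X * X)) := by
        have : S ^ m ≤ X ^ m := by gcongr
        have h5 : X ≤ X * X := le_mul_of_one_le_left hX0.le hX1
        gcongr
      _ = S * X ^ (m + 2) := by ring
  have ne : ∀ i, (x i : ℝ) ≠ 0 := by
    intro i h
    have := (hxy i).1
    rw [h] at this
    simp at this
    linarith
  have hy : ∀ i, |(y i : ℝ)| ≤ |(x i : ℝ)| := by
    intro i
    have := (hxy i).2.2.1
    exact_mod_cast this
  have ub : ∀ i, |S * (1 / (x i : ℝ))| ≤ 1 / (X / S) := by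
    intro i
    rw [hyx, abs_mul, abs_of_pos hS0, abs_div, abs_one, mul_one_div]
    exact div_le_div_of_nonneg_left hS0.le hX0 (hxy i).1
  have tb : ∀ i, |(y i : ℝ) / x i| ≤ 1 := by
    intro i
    rw [abs_div, div_le_one (by linarith [(hxy i).1])]
    exact hy i
  have small : ∀ i, |Ph n (bs n e S) (S * (1 / (x i : ℝ))) (y i / x i)| ≤ B * ε := by
    intro i
    have hx0 : x i ≠ 0 := by
      intro h
      exact ne i (by rw [h]; simp)
    have h3 := (hxy i).2.2.2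
    rw [ev_eq n e (x i) (y i) hx0, abs_mul, abs_pow, ← Ph_bs n e hS0.ne'] at h3
    have h4 : X ^ n ≤ |(x i : ℝ)| ^ n := by
      have := (hxy i).1
      gcongr
    have h5 : |Ph n (bs n e S) (S * (1 / (x i : ℝ))) (y i / x i)| ≤ ε := by
      rw [hε, le_div_iff₀ (by positivity)]
      calc _ ≤ |Ph n (bs n e S) (S * (1 / (x i : ℝ))) (y i / x i)| * |(x i : ℝ)| ^ n := by gcongr
        _ = |(x i : ℝ)| ^ n * |Ph n (bs n e S) (S * (1 / (x i : ℝ))) (y i / x i)| := mul_comm _ _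
        _ ≤ H := h3
    have h6 : 0 ≤ ε := by positivity
    exact h5.trans (le_mul_of_one_le_left h6 hB)
  have dv : ∀ i, |S * (1 / (x i : ℝ)) - S * (1 / (x 0 : ℝ))| ≤ S / (K * W * X) := by
    intro i
    rw [← mul_sub, abs_mul, abs_of_pos hS0]
    have h3 := inv_diff hX0 (hxy i).1 (hxy 0).1 (hd i 0)
    calc S * |1 / (x i : ℝ) - 1 / (x 0 : ℝ)| ≤ S * (1 / (K * W * X)) := by gcongr
      _ = _ := by ring
  have h := three' n hB0 hA hbs hY hε1 (ub 0) (ub 1) (ub 2) (tb 0) (tb 1) (tb 2)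
    (small 0) (small 1) (small 2) (dv 1) (dv 2)
    (fun t ht => by
      rw [Ph_zero n e hS0.ne', Pht_zero, hBA]
      rcases hG t ht with h | h
      · exact Or.inl ((min_le_left _ _).trans_lt h)
      · exact Or.inr ((min_le_left _ _).trans_lt h))
    (fun z hz' => by rw [Pht_zero]; exact hz 0 1 z hz')
    (fun z hz' => by rw [Pht_zero]; exact hz 0 2 z hz')
  rw [← hC] at h
  have hdet := det_eq (y1 := (y 0 : ℝ)) (y2 := y 1) (y3 := y 2) (ne 0) (ne 1) (ne 2)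
  have hlt : |(((x 1 - x 0) * (y 2 - y 0) - (x 2 - x 0) * (y 1 - y 0) : ℤ) : ℝ)| < 1 := by
    push_cast
    rw [hdet, abs_mul, abs_neg, abs_mul, abs_mul]
    have e2 : (1 / (x 1 : ℝ) - 1 / (x 0 : ℝ)) * ((y 2 : ℝ) / x 2 - y 0 / x 0) -
        (1 / (x 2 : ℝ) - 1 / (x 0 : ℝ)) * ((y 1 : ℝ) / x 1 - y 0 / x 0) =
        ((S * (1 / (x 1 : ℝ)) - S * (1 / (x 0 : ℝ))) * ((y 2 : ℝ) / x 2 - y 0 / x 0) -
        (S * (1 / (x 2 : ℝ)) - S * (1 / (x 0 : ℝ))) * ((y 1 : ℝ) / x 1 - y 0 / x 0)) / S := by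
      field_simp
    rw [e2, abs_div, abs_of_pos hS0]
    refine lt_of_le_of_lt ?_ (fin hn hC0 (by linarith : 16 * C < K) hK1 hS hW hX0 h1 h2)
    have h7 : |(x 0 : ℝ)| * |(x 1 : ℝ)| * |(x 2 : ℝ)| ≤ 8 * X ^ 3 := by
      calc |(x 0 : ℝ)| * |(x 1 : ℝ)| * |(x 2 : ℝ)| ≤ 2 * X * (2 * X) * (2 * X) := by
            have := (hxy 0).2.1
            have := (hxy 1).2.1
            have := (hxy 2).2.1
            gcongr
        _ = _ := by ring
    calc _ ≤ 8 * X ^ 3 * (C * (S / (K * W * X) * (ε + (S / (K * W * X)) ^ 2)) / S) := by gcongr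
      _ = _ := by ring
  rw [← Int.cast_abs] at hlt
  have h8 : |(x 1 - x 0) * (y 2 - y 0) - (x 2 - x 0) * (y 1 - y 0)| < 1 := by exact_mod_cast hlt
  have h9 := Int.abs_lt_one_iff.1 h8
  linarith

end Pool.Agent.H6.AC
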