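import Pool.Agent.H6.AC.Lgc

/-!
# The base nodes in the extended circuit

An evaluation of all nodes of a restricted circuit (`ga'`) and values of the variables outside it give an
evaluation of the base nodes in `C.N ⊕ lines`. All fields by cases (`a0 ∈ B1` or not).
-/

set_option autoImplicit false
set_option linter.unusedSectionVars false

namespace Pool.Agent.H6.AC

open Pool.Agent.H63.YL (PM dm)
open Pool.Agent.H42.CS (Ax Atom Gate Circuit Step Refutation)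

theorem trf {Rel : ℕ → Type} {Pt : Type} {C : Circuit Rel Pt} {lines : Set (Set (H42.CS.Lit C.N))}
    {P H : Type} [DecidableEq P] [DecidableEq H] {ga' : C.N → Set (H42.CS.Lit C.N) → Prop}
    {s M : ℕ} {R0 R1 : Finset (P × H) → C.N → Bool → Prop}
    (E : EvG ga' Set.univ ∅ s M R0) (B1 X : Set C.N)
    (h1 : ∀ a ∈ B1, ∀ S, C.gate a = .and S → ga' a S)
    (h2 : ∀ a ∈ B1, ∀ x ∈ (C.gate a).children, x.node ∈ B1)
    (h3 : ∀ a ∈ X, ∃ v, C.gate a = .var v)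
    (mono : ∀ {α β a v}, a ∈ X → R1 α a v → α ⊆ β → PM β → R1 β a v)
    (decide : ∀ {α a}, a ∈ X → PM α → α.card + s ≤ M →
      ∃ β v, α ⊆ β ∧ PM β ∧ β.card ≤ α.card + s ∧ R1 β a v)
    (cert : ∀ {α a v}, a ∈ X → R1 α a v → ∃ β, β ⊆ α ∧ β.card ≤ s ∧ R1 β a v)
    (pm : ∀ {α a v}, R1 α a v → PM α)
    (cons : ∀ {α a}, R1 α a true → R1 α a false → False) :
    EvG (gaX C lines) (Sum.inl '' (B1 ∪ X)) ∅ s M
      (RX fun α a v => (a ∈ B1 ∧ R0 α a v) ∨ (a ∉ B1 ∧ a ∈ X ∧ R1 α a v)) := by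
  refine ⟨fun h h' => gaX_func h h', ?_, E.pmf, ?_, ?_, ?_, ?_, ?_, ?_, ?_, ?_, E.room⟩
  · -- closed
    rintro _ S ⟨a0, ha0, rfl⟩ ⟨S0, hS0, rfl⟩ _ ⟨y, hy, rfl⟩
    have hy' : y ∈ (C.gate a0).children := by rw [hS0]; exact hy
    rcases ha0 with ha0 | ha0
    · exact ⟨y.node, Or.inl (h2 a0 ha0 y hy'), rfl⟩
    · obtain ⟨v, hv⟩ := h3 a0 ha0
      rw [hv] at hS0
      cases hS0
  · -- mono
    rintro α β _ v ⟨a0, ha0, rfl⟩ ⟨a1, he, hR⟩ hαβ hβ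
    obtain rfl := Sum.inl.inj he
    refine ⟨a0, rfl, ?_⟩
    rcases hR with ⟨hb, hR⟩ | ⟨hb, hx, hR⟩
    · exact Or.inl ⟨hb, E.mono (Set.mem_univ _) hR hαβ hβ⟩
    · exact Or.inr ⟨hb, hx, mono hx hR hαβ hβ⟩
  · -- decide
    rintro α _ ⟨a0, ha0, rfl⟩ hα hf hM
    by_cases hb : a0 ∈ B1
    · obtain ⟨β, v, k1, k2, k3, k4⟩ := E.decide (Set.mem_univ a0) hα hf hM
      exact ⟨β, v, k1, k2, k3, a0, rfl, Or.inl ⟨hb, k4⟩⟩
    · have hx : a0 ∈ X := ha0.resolve_left hb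
      obtain ⟨β, v, k1, k2, k3, k4⟩ := decide hx hα hM
      exact ⟨β, v, k1, k2, k3, a0, rfl, Or.inr ⟨hb, hx, k4⟩⟩
  · -- cert
    rintro α _ v ⟨a0, ha0, rfl⟩ ⟨a1, he, hR⟩
    obtain rfl := Sum.inl.inj he
    rcases hR with ⟨hb, hR⟩ | ⟨hb, hx, hR⟩
    · obtain ⟨β, k1, k2, k3, k4⟩ := E.cert (Set.mem_univ _) hR
      exact ⟨β, k1, k2, k3, a0, rfl, Or.inl ⟨hb, k4⟩⟩
    · obtain ⟨β, k1, k2, k3⟩ := cert hx hR
      refine ⟨β, k1, Finset.empty_subset _, ?_, a0, rfl, Or.inr ⟨hb, hx, k3⟩⟩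
      rw [Finset.card_empty, Nat.zero_add]
      exact k2
  · -- pm
    rintro α a v ⟨a0, rfl, hR⟩
    rcases hR with ⟨hb, hR⟩ | ⟨hb, hx, hR⟩
    · exact E.pm hR
    · exact ⟨pm hR, Finset.empty_subset _⟩
  · -- cons
    rintro α a ⟨a0, rfl, hR⟩ ⟨a1, he, hR'⟩
    obtain rfl := Sum.inl.inj he
    rcases hR with ⟨hb, hR⟩ | ⟨hb, hx, hR⟩
    · rcases hR' with ⟨hb', hR'⟩ | ⟨hb', hx', hR'⟩
      · exact E.cons hR hR'
      · exact hb' hb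
    · rcases hR' with ⟨hb', hR'⟩ | ⟨hb', hx', hR'⟩
      · exact hb hb'
      · exact cons hR hR'
  · -- and_true
    rintro α _ S _ v ⟨a0, ha0, rfl⟩ ⟨S0, hS0, rfl⟩ ⟨y, hy, rfl⟩ ⟨a1, he, hR⟩ ⟨a2, he2, hR'⟩ hM
    obtain rfl := Sum.inl.inj he
    have he3 : y.node = a2 := Sum.inl.inj he2
    subst he3
    have hy' : y ∈ (C.gate a0).children := by rw [hS0]; exact hy
    rcases hR with ⟨hb, hR⟩ | ⟨hb, hx, hR⟩
    · have hyb := h2 a0 hb y hy'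
      rcases hR' with ⟨hb', hR'⟩ | ⟨hb', hx', hR'⟩
      · exact E.and_true (Set.mem_univ _) (h1 a0 hb S0 hS0) hy hR hR' hM
      · exact absurd hyb hb'
    · obtain ⟨w, hw⟩ := h3 a0 hx
      rw [hw] at hS0
      cases hS0
  · -- and_false
    rintro α _ S ⟨a0, ha0, rfl⟩ ⟨S0, hS0, rfl⟩ ⟨a1, he, hR⟩ hM
    obtain rfl := Sum.inl.inj he
    rcases hR with ⟨hb, hR⟩ | ⟨hb, hx, hR⟩
    · obtain ⟨x, hx, β, k1, k2, k3, k4⟩ := E.and_false (Set.mem_univ _) (h1 a0 hb S0 hS0) hR hM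
      have hx' : x ∈ (C.gate a0).children := by rw [hS0]; exact hx
      exact ⟨H42.CS.Lit.map Sum.inl x, ⟨x, hx, rfl⟩, β, k1, k2, k3, x.node, rfl,
        Or.inl ⟨h2 a0 hb x hx', k4⟩⟩
    · obtain ⟨w, hw⟩ := h3 a0 hx
      rw [hw] at hS0
      cases hS0
  · -- ext
    intro α x k1 k2 k3
    exact E.ext x k1 k2 k3

end Pool.Agent.H6.AC
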